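import Pool.Agent.Helper35.SH.VW

/-!
# Project RC, SHARP, zone I: the function `α` of the base, its Fourier coefficients, (L1), `H_0`, `H_l`
-/

set_option autoImplicit false

open MeasureTheory Set Filter Metric

namespace Pool.Agent.Helper35.Cas

open Helper49.LT hiding sg
open Helper49.RC (om)
open Helper44.GQ
open Helper49.Sharp hiding mean
open Helper56.RC (fc)
open Helper87.RC (BM)
open Pool.Agent.Helper35.RC
open Pool.Agent.Helper20.RC (eM lk L1)
open Pool.Agent.Helper33.SH (PI ZC z0I b0I)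

/-! ### Fourier coefficients of lists -/

theorem fc_evP (A B : ℂ) (p : Po) (d : ℂ) (n : ℤ) :
    fc (fun t => evP (uu A t) (vv B t) p / d) n = evP A B (fl n p) / d := by
  have h := mean_ee_evP A B (-n) p
  rw [neg_neg] at h
  have e : fc (fun t => evP (uu A t) (vv B t) p / d) n =
      mean (fun t => (1 / d) * (ee (((-n : ℤ) : ℝ) * t) * evP (uu A t) (vv B t) p)) := by
    unfold fc mean
    congr 1
    refine intervalIntegral.integral_congr fun t _ => ?_
    show evP (uu A t) (vv B t) p / d * ee (-((n : ℝ) * t)) = 1 / d * (ee (((-n : ℤ) : ℝ) * t) * evP (uu A t) (vv B t) p)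
    rw [show ((-n : ℤ) : ℝ) * t = -((n : ℝ) * t) by push_cast; ring]
    ring
  rw [e, mean_const_mul, h]
  ring

theorem fl_nil_of {k : ℤ} {p : Po} (h : (p.all fun x => decide (|frq x.1| ≤ k)) = true) {n : ℤ} (hn : k < |n|) :
    fl n p = [] := by
  induction p with
  | nil => rfl
  | cons x p ih =>
    rw [List.all_cons, Bool.and_eq_true, decide_eq_true_eq] at h
    rw [fl_cons, ih h.2, if_neg]
    intro e
    rw [e] at h
    exact absurd h.1 (not_le.2 hn)

/-- `2000 α` -/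
def AL : Po := mulP WL (addP (smP (2, 0) B2L) (smP (-1, 0) YL))

theorem AL_frq : (AL.all fun x => decide (|frq x.1| ≤ 12)) = true := by decide +kernel

/-- `1000 σ` -/
def SG : Po := [((2, 1, 0, 1), (-330, 0)), ((1, 0, 1, 2), (450, 0)), ((1, 0, 0, 1), (-690, 0))]

theorem SG_eq : eqP (addP (fl 2 (mulP WL B2L)) (fl 2 (mulP WL YL))) SG = true := by decide +kernel

variable (c : ZC) (A : ℝ) (B : ℂ)

theorem al_ev (t : ℝ) : (PI c A B).al (b0I A B) t = evP (uu A t) (vv B t) AL / 2000 := by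
  show ((PI c A B).w t : ℂ) * (((b0I A B t).re : ℂ) + Complex.I * (((b0I A B t).im / 2 : ℝ) : ℂ)) = _
  unfold AL
  rw [evP_mul, evP_add, evP_sm, evP_sm, evC_int, evC_int, ← w_ev c A B t, b2_ev, Complex.ofReal_div, b3_ev]
  push_cast
  linear_combination (((PI c A B).w t : ℂ) * evP (uu A t) (vv B t) YL / 2000) * Complex.I_mul_I

theorem al_fun : (PI c A B).al (b0I A B) = fun t => evP (uu A t) (vv B t) AL / 2000 :=
  funext fun t => al_ev c A B t

theorem fc_al (n : ℤ) : fc ((PI c A B).al (b0I A B)) n = evP A B (fl n AL) / 2000 := by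
  rw [al_fun, fc_evP]

theorem sig_ev : (PI c A B).sig (b0I A B) = evP A B SG / 1000 := by
  unfold Par.sig
  have e1 : (fun t => (((PI c A B).w t * (b0I A B t).re : ℝ) : ℂ)) = fun t =>
      evP (uu A t) (vv B t) (mulP WL B2L) / 1000 := by
    funext t
    rw [Complex.ofReal_mul, w_ev, b2_ev, evP_mul]
    ring
  have e2 : (fun t => (((PI c A B).w t * (b0I A B t).im : ℝ) : ℂ)) = fun t =>
      evP (uu A t) (vv B t) (mulP WL YL) / (-1000 * Complex.I) := by
    funext t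
    rw [Complex.ofReal_mul, w_ev, b3_ev, evP_mul]
    have hI : Complex.I ≠ 0 := Complex.I_ne_zero
    field_simp
    linear_combination (evP (uu A t) (vv B t) WL * evP (uu A t) (vv B t) YL) * Complex.I_sq
  rw [e1, e2, fc_evP, fc_evP, ← eqP_ok SG_eq, evP_add]
  have hI : Complex.I ≠ 0 := Complex.I_ne_zero
  field_simp
  ring

/-! ### `dal` -/

theorem fc_noh2 {α : ℝ → ℂ} {E : ℝ} (ha : BM α E) (n : ℤ) : fc (noh2 α) n =
    fc α n - fc α 2 * (if n = 2 then 1 else 0) - fc α (-2) * (if n = -2 then 1 else 0) := by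
  have e : noh2 α = fun t => (α t - fc α 2 * ee (((2 : ℤ) : ℝ) * t)) - fc α (-2) * ee (((-2 : ℤ) : ℝ) * t) := by
    funext t
    unfold noh2
    push_cast
    rfl
  have b1 : BM (fun t : ℝ => ee (((2 : ℤ) : ℝ) * t)) 1 := BM.eec _
  have b2 : BM (fun t : ℝ => ee (((-2 : ℤ) : ℝ) * t)) 1 := BM.eec _
  rw [e, Helper87.RC.fc_sub (ha.sub (b1.cmul _)) (b2.cmul _), Helper87.RC.fc_sub ha (b1.cmul _), Helper87.RC.fc_cmul,
    Helper87.RC.fc_cmul, Pool.Agent.Helper20.RC.fc_eek, Pool.Agent.Helper20.RC.fc_eek]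

theorem al_BM : ∃ E, BM ((PI c A B).al (b0I A B)) E := by
  rw [al_fun]
  have hc : Continuous fun t : ℝ => evP (uu A t) (vv B t) AL / 2000 := (cont_evP A B AL).div_const _
  have hp : ∀ t, evP (uu A (t + 2 * Real.pi)) (vv B (t + 2 * Real.pi)) AL / 2000 = evP (uu A t) (vv B t) AL / 2000 := by
    intro t
    simp only [uu_per, vv_per]
  obtain ⟨C, hC⟩ : ∃ C : ℝ, ∀ t : ℝ, ‖evP (uu A t) (vv B t) AL / 2000‖ ≤ C := by
    obtain ⟨x0, _, hx0⟩ := (isCompact_Icc (a := (0 : ℝ)) (b := 2 * Real.pi)).exists_isMaxOn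
      ⟨0, by constructor <;> positivity⟩ hc.norm.continuousOn
    refine ⟨‖evP (uu A x0) (vv B x0) AL / 2000‖, fun t => ?_⟩
    obtain ⟨y, hy, hty⟩ : ∃ y ∈ Set.Ico (0 : ℝ) (0 + 2 * Real.pi),
        ‖evP (uu A t) (vv B t) AL / 2000‖ = ‖evP (uu A y) (vv B y) AL / 2000‖ :=
      (show Function.Periodic (fun t : ℝ => ‖evP (uu A t) (vv B t) AL / 2000‖) (2 * Real.pi) from fun t => by
        simp only [hp]).exists_mem_Ico (by positivity) t 0
    rw [hty]
    exact hx0 ⟨hy.1, by have := hy.2; linarith⟩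
  exact ⟨C, hc.measurable, hC⟩

theorem dal_fun : (PI c A B).dal (b0I A B) = noh2 ((PI c A B).al (b0I A B)) := by
  funext t
  show noh2 ((PI c A B).al (b0I A B)) t - 0 = _
  rw [sub_zero]

theorem fc_dal (n : ℤ) (h1 : n ≠ 2) (h2 : n ≠ -2) : fc ((PI c A B).dal (b0I A B)) n = evP A B (fl n AL) / 2000 := by
  obtain ⟨E, hE⟩ := al_BM c A B
  rw [dal_fun, fc_noh2 hE, if_neg h1, if_neg h2, fc_al]
  ring

theorem fc_dal2 : fc ((PI c A B).dal (b0I A B)) 2 = 0 := by
  obtain ⟨E, hE⟩ := al_BM c A B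
  rw [dal_fun, fc_noh2 hE, if_pos rfl, if_neg (by decide)]
  ring

theorem fc_dalm2 : fc ((PI c A B).dal (b0I A B)) (-2) = 0 := by
  obtain ⟨E, hE⟩ := al_BM c A B
  rw [dal_fun, fc_noh2 hE, if_pos rfl, if_neg (by decide)]
  ring

/-- **`H_0`** -/
theorem H0_ev : (PI c A B).H0 (b0I A B) = 33 / 200 * A ^ 2 - 9 / 40 * ‖B‖ ^ 2 + 31 / 25 * A ^ 2 * ‖B‖ ^ 2 := by
  unfold Par.H0
  rw [fc_dal c A B 0 (by decide) (by decide)]
  have e : fl 0 AL = [((1, 1, 1, 1), (2480, 0)), ((1, 1, 0, 0), (330, 0)), ((0, 0, 1, 1), (-450, 0))] := by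
    decide +kernel
  have e2 : evP (A : ℂ) B (fl 0 AL) / 2000 =
      ((33 / 200 * A ^ 2 - 9 / 40 * ‖B‖ ^ 2 + 31 / 25 * A ^ 2 * ‖B‖ ^ 2 : ℝ) : ℂ) := by
    rw [e]
    simp only [evP_cons, evP_nil, evC, evM, pow_zero, pow_one, Complex.conj_ofReal]
    push_cast
    rw [show ((‖B‖ : ℂ)) ^ 2 = B * (starRingEnd ℂ) B by rw [← sq_norm_c]; push_cast; rfl]
    ring
  rw [e2, Complex.ofReal_re]

/-- the coefficients `H_l`, `l ≥ 4` -/
theorem Hk_ev (k : ℕ) (hk : k ≠ 0) : ((lk k ^ 2 - 1 : ℝ) : ℂ) * Hk ((PI c A B).dal (b0I A B)) k =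
    (((2 * k + 1 : ℕ) : ℂ) * (evP A B (fl (2 * k + 2) AL) / 2000)
      - ((2 * k + 3 : ℕ) : ℂ) * (starRingEnd ℂ) (evP A B (fl (-(2 * k + 2)) AL) / 2000)) / 2 := by
  have h1 : ((lk k : ℝ) : ℂ) = 2 * (k : ℂ) + 2 := by unfold lk; push_cast; ring
  have n1 : (2 * (k : ℂ) + 3) ≠ 0 := by
    have : (2 * (k : ℂ) + 3) = ((2 * k + 3 : ℕ) : ℂ) := by push_cast; ring
    rw [this]
    exact_mod_cast (by omega : 2 * k + 3 ≠ 0)
  have n2 : (2 * (k : ℂ) + 1) ≠ 0 := by
    have : (2 * (k : ℂ) + 1) = ((2 * k + 1 : ℕ) : ℂ) := by push_cast; ring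
    rw [this]
    exact_mod_cast (by omega : 2 * k + 1 ≠ 0)
  unfold Hk
  rw [fc_dal c A B (2 * k + 2) (by omega) (by omega), fc_dal c A B (-(2 * k + 2)) (by omega) (by omega)]
  push_cast
  rw [h1, show 2 * (k : ℂ) + 2 + 1 = 2 * (k : ℂ) + 3 by ring, show 2 * (k : ℂ) + 2 - 1 = 2 * (k : ℂ) + 1 by ring,
    show (2 * (k : ℂ) + 2) ^ 2 - 1 = (2 * (k : ℂ) + 3) * (2 * (k : ℂ) + 1) by ring]
  field_simp

theorem Hk_zero : Hk ((PI c A B).dal (b0I A B)) 0 = 0 := by
  unfold Hk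
  have e1 : fc ((PI c A B).dal (b0I A B)) (2 * ((0 : ℕ) : ℤ) + 2) = 0 := fc_dal2 c A B
  have e2 : fc ((PI c A B).dal (b0I A B)) (-(2 * ((0 : ℕ) : ℤ) + 2)) = 0 := fc_dalm2 c A B
  rw [e1, e2]
  simp

/-- no coefficients beyond `l = 12` -/
theorem Hk_far (k : ℕ) (hk : 6 ≤ k) : Hk ((PI c A B).dal (b0I A B)) k = 0 := by
  unfold Hk
  rw [fc_dal c A B (2 * k + 2) (by omega) (by omega), fc_dal c A B (-(2 * k + 2)) (by omega) (by omega),
    fl_nil_of AL_frq (n := 2 * k + 2) (by rw [abs_of_nonneg (by omega)]; omega),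
    fl_nil_of AL_frq (n := -(2 * k + 2)) (by rw [abs_neg, abs_of_nonneg (by omega)]; omega)]
  simp

/-- the coefficient `H_12` -/
theorem H12_ev : ((lk 5 ^ 2 - 1 : ℝ) : ℂ) * Hk ((PI c A B).dal (b0I A B)) 5 =
    -(11 / 25) * A * (starRingEnd ℂ) B ^ 3 := by
  rw [Hk_ev c A B 5 (by decide)]
  have e1 : fl (2 * ((5 : ℕ) : ℤ) + 2) AL = [((1, 0, 0, 3), (-290, 0))] := by decide +kernel
  have e2 : fl (-(2 * ((5 : ℕ) : ℤ) + 2)) AL = [((0, 1, 3, 0), (-110, 0))] := by decide +kernel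
  rw [e1, e2]
  have h2 : (starRingEnd ℂ) (2000 : ℂ) = 2000 := Complex.conj_ofReal 2000
  have h3 : (starRingEnd ℂ) (((-110 : ℤ)) : ℂ) = -110 := by
    have := Complex.conj_ofReal (-110)
    push_cast at this ⊢
    exact this
  simp only [evP_cons, evP_nil, evC, evM, pow_zero, pow_one, Complex.conj_ofReal, map_div₀, map_add, map_mul, map_pow,
    h2, h3, s3_conj, map_one, map_zero, Int.cast_zero]
  push_cast
  ring

/-! ### squares and sums of lists -/

/-- `|p|²` -/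
def sqP (p : Po) : Po := mulP p (cjP p)

theorem sqP_re (u v : ℂ) (p : Po) : (evP u v (sqP p)).re = ‖evP u v p‖ ^ 2 := by
  unfold sqP
  rw [evP_mul, evP_cj, Complex.mul_conj, Complex.normSq_eq_norm_sq, Complex.ofReal_re]

/-- integer combination -/
def cmb : List (ℤ × Po) → Po
  | [] => []
  | x :: L => addP (smP (x.1, 0) x.2) (cmb L)

theorem cmb_re (u v : ℂ) : ∀ L : List (ℤ × Po),
    (evP u v (cmb L)).re = (L.map fun x => (x.1 : ℝ) * (evP u v x.2).re).sum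
  | [] => by simp [cmb]
  | x :: L => by
    rw [cmb, evP_add, evP_sm, evC_int, Complex.add_re, cmb_re u v L, List.map_cons, List.sum_cons]
    have : (((x.1 : ℤ) : ℂ) * evP u v x.2).re = (x.1 : ℝ) * (evP u v x.2).re := by
      rw [show ((x.1 : ℤ) : ℂ) = (((x.1 : ℤ) : ℝ) : ℂ) by push_cast; rfl, Complex.re_ofReal_mul]
    rw [this]

theorem eta_ev : (PI c A B).eta = evP A B EL := by
  show -2 * (A : ℂ) * (starRingEnd ℂ) B = _
  unfold EL
  simp only [evP_cons, evP_nil, evC, evM, pow_zero, pow_one]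
  push_cast
  ring

/-- the terms of (L1), denominator `180180 · 10⁶` -/
def L1c : List (ℤ × Po) :=
  [(180180000000, one1), (-120120000000, sqP EL), (180180000, fl 0 AL), (60060000, mulP (cjP EL) (fl 2 AL)),
   (-180180000, mulP EL (fl (-2) AL)),
   (-4095, sqP (fl (-12) AL)), (-5005, sqP (fl (-10) AL)), (-6435, sqP (fl (-8) AL)), (-9009, sqP (fl (-6) AL)),
   (-15015, sqP (fl (-4) AL)), (-45045, sqP (fl (-2) AL)), (45045, sqP (fl 0 AL)), (15015, sqP (fl 2 AL)),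
   (9009, sqP (fl 4 AL)), (6435, sqP (fl 6 AL)), (5005, sqP (fl 8 AL)), (4095, sqP (fl 10 AL)), (3465, sqP (fl 12 AL))]

theorem tsum_al : ∑' j : ℤ, ‖fc ((PI c A B).al (b0I A B)) (2 * j)‖ ^ 2 / (2 * (j : ℝ) + 1) =
    ∑ j ∈ Finset.Icc (-6 : ℤ) 6, (evP A B (sqP (fl (2 * j) AL))).re / (4000000 * (2 * (j : ℝ) + 1)) := by
  rw [tsum_eq_sum (s := Finset.Icc (-6 : ℤ) 6)]
  · refine Finset.sum_congr rfl fun j _ => ?_
    rw [fc_al, sqP_re, norm_div, div_pow, div_div]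
    norm_num
  · intro j hj
    rw [Finset.mem_Icc, not_and_or, not_le, not_le] at hj
    rw [fc_al, fl_nil_of AL_frq (n := 2 * j)]
    · simp
    · rcases hj with h | h
      · rw [abs_of_neg (by omega)]; omega
      · rw [abs_of_pos (by omega)]; omega

/-- **(L1) of the base** -/
theorem L1_ev : L1 (PI c A B).eta 0 0 ((PI c A B).al (b0I A B)) = (evP A B (cmb L1c)).re / 180180000000 := by
  unfold L1
  rw [tsum_al, cmb_re, fc_al, fc_al, fc_al, eta_ev,
    show Finset.Icc (-6 : ℤ) 6 = {-6, -5, -4, -3, -2, -1, 0, 1, 2, 3, 4, 5, 6} by decide,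
    Finset.sum_insert (by decide), Finset.sum_insert (by decide), Finset.sum_insert (by decide),
    Finset.sum_insert (by decide), Finset.sum_insert (by decide), Finset.sum_insert (by decide),
    Finset.sum_insert (by decide), Finset.sum_insert (by decide), Finset.sum_insert (by decide),
    Finset.sum_insert (by decide), Finset.sum_insert (by decide), Finset.sum_insert (by decide),
    Finset.sum_singleton]
  unfold L1c
  simp only [List.map_cons, List.map_nil, List.sum_cons, List.sum_nil]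
  rw [sqP_re (A : ℂ) B EL]
  have e1 : (evP (A : ℂ) B one1).re = 1 := by
    unfold one1
    simp [evP_cons, evC, evM]
  have e2 : (evP (A : ℂ) B (mulP (cjP EL) (fl 2 AL))).re =
      ((starRingEnd ℂ) (evP (A : ℂ) B EL) * evP (A : ℂ) B (fl 2 AL)).re := by rw [evP_mul, evP_cj]
  have e3 : (evP (A : ℂ) B (mulP EL (fl (-2) AL))).re =
      (evP (A : ℂ) B EL * evP (A : ℂ) B (fl (-2) AL)).re := by rw [evP_mul]
  rw [e1, e2, e3]
  set E := evP (A : ℂ) B EL
  set X := evP (A : ℂ) B (fl 0 AL)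
  set Y := evP (A : ℂ) B (fl 2 AL)
  set Z := evP (A : ℂ) B (fl (-2) AL)
  have e4 : (X / 2000 + (starRingEnd ℂ) E * (Y / 2000) / 3 - E * (Z / 2000)
        + (starRingEnd ℂ) 0 * fc ((PI c A B).al (b0I A B)) 6 / 7 - 0 * fc ((PI c A B).al (b0I A B)) (-6) / 5
        + (starRingEnd ℂ) 0 * fc ((PI c A B).al (b0I A B)) 10 / 11
        - 0 * fc ((PI c A B).al (b0I A B)) (-10) / 9).re =
      X.re / 2000 + ((starRingEnd ℂ) E * Y).re / 6000 - (E * Z).re / 2000 := by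
    have : X / 2000 + (starRingEnd ℂ) E * (Y / 2000) / 3 - E * (Z / 2000)
        + (starRingEnd ℂ) 0 * fc ((PI c A B).al (b0I A B)) 6 / 7 - 0 * fc ((PI c A B).al (b0I A B)) (-6) / 5
        + (starRingEnd ℂ) 0 * fc ((PI c A B).al (b0I A B)) 10 / 11
        - 0 * fc ((PI c A B).al (b0I A B)) (-10) / 9 =
        ((1 / 2000 : ℝ) : ℂ) * X + ((1 / 6000 : ℝ) : ℂ) * ((starRingEnd ℂ) E * Y) - ((1 / 2000 : ℝ) : ℂ) * (E * Z) := by
      rw [map_zero]
      push_cast
      ring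
    rw [this, Complex.sub_re, Complex.add_re, Complex.re_ofReal_mul, Complex.re_ofReal_mul, Complex.re_ofReal_mul]
    ring
  rw [e4]
  push_cast
  norm_num
  ring

end Pool.Agent.Helper35.Cas
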