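import Pool.Agent.Helper35.SH.VF
import Pool.Agent.Helper40.NR.Gok

/-!
# Project RC, SHARP, zone I: THE VALUE OF THE CERTIFICATE AT THE BASE in the format of the budget

`vLOC TT`, `vEP TT`: value data; `TT`: the list of the tail of the aligned moments `l ≥ 12` (square root of
`∑ |e_l|²/(l²-1)`).
-/

set_option autoImplicit false

open MeasureTheory Set Filter Metric

namespace Pool.Agent.Helper35.Cas

open Helper49.LT hiding sg
open Helper49.RC (om)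
open Helper44.GQ
open Helper49.Sharp hiding mean
open Helper95.SH (Dat)
open Pool.Agent.Helper35.RC
open Pool.Agent.Helper20.RC (eM lk L1 lk_sq)
open Pool.Agent.Helper33.SH (PI ZC z0I b0I)
open Pool.Agent.Helper33.GM (mul1 mulR abP evR_mul1 evR_mulR evR_append evR_nil evR_cons norm_evP_le leR leR_ok)
open Helper27.SH (P2 evR VD VOK ofP ofP_le evN evN_append)
open Helper40.NR (FP evF vNS vok_NS)
open Pool.Agent.Helper43.SH (reg_PI dat_PI PZ zcI)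

/-- reduction of one monomial to the degree `d` for `A ≤ 1/10`, `y ≤ 1/16` -/
def rd1 (d : ℕ) (m : ℕ × ℕ × ℚ) : ℕ × ℕ × ℚ :=
  (m.1 - min (m.1 + m.2.1 - d) m.1, m.2.1 - (m.1 + m.2.1 - d - min (m.1 + m.2.1 - d) m.1),
    m.2.2 * (1 / 10) ^ (min (m.1 + m.2.1 - d) m.1) * (1 / 16) ^ (m.1 + m.2.1 - d - min (m.1 + m.2.1 - d) m.1))

theorem rd1_le {A y : ℝ} (hA : 0 ≤ A) (hy : 0 ≤ y) (hA' : A ≤ 1 / 10) (hy' : y ≤ 1 / 16) (d : ℕ) (m : ℕ × ℕ × ℚ)
    (h : 0 ≤ m.2.2) : (m.2.2 : ℝ) * (A ^ m.1 * y ^ m.2.1) ≤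
      ((rd1 d m).2.2 : ℝ) * (A ^ (rd1 d m).1 * y ^ (rd1 d m).2.1) := by
  unfold rd1
  simp only
  set i := min (m.1 + m.2.1 - d) m.1 with hi
  set j := m.1 + m.2.1 - d - i with hj
  have i1 : i ≤ m.1 := min_le_right _ _
  have j1 : j ≤ m.2.1 := by omega
  have e1 : A ^ m.1 = A ^ (m.1 - i) * A ^ i := by rw [← pow_add]; congr 1; omega
  have e2 : y ^ m.2.1 = y ^ (m.2.1 - j) * y ^ j := by rw [← pow_add]; congr 1; omega
  rw [e1, e2]
  push_cast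
  have h1 : A ^ i ≤ (1 / 10) ^ i := pow_le_pow_left₀ hA hA' i
  have h2 : y ^ j ≤ (1 / 16) ^ j := pow_le_pow_left₀ hy hy' j
  have h3 : A ^ i * y ^ j ≤ (1 / 10) ^ i * (1 / 16) ^ j := mul_le_mul h1 h2 (by positivity) (by positivity)
  have h4 : (0 : ℝ) ≤ (m.2.2 : ℝ) := by exact_mod_cast h
  calc (m.2.2 : ℝ) * (A ^ (m.1 - i) * A ^ i * (y ^ (m.2.1 - j) * y ^ j)) =
        (m.2.2 : ℝ) * (A ^ (m.1 - i) * y ^ (m.2.1 - j)) * (A ^ i * y ^ j) := by ring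
    _ ≤ (m.2.2 : ℝ) * (A ^ (m.1 - i) * y ^ (m.2.1 - j)) * ((1 / 10) ^ i * (1 / 16) ^ j) :=
        mul_le_mul_of_nonneg_left h3 (by positivity)
    _ = _ := by ring

theorem rd_le {A y : ℝ} (hA : 0 ≤ A) (hy : 0 ≤ y) (hA' : A ≤ 1 / 10) (hy' : y ≤ 1 / 16) (d : ℕ) : ∀ L : P2,
    (L.all fun m => decide (0 ≤ m.2.2)) = true → evR A y L ≤ evR A y (L.map (rd1 d))
  | [], _ => by simp [evR_nil]
  | m :: L, h => by
    rw [List.all_cons, Bool.and_eq_true, decide_eq_true_eq] at h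
    rw [List.map_cons, evR_cons, evR_cons]
    exact add_le_add (rd1_le hA hy hA' hy' d m h.1) (rd_le hA hy hA' hy' d L h.2)

/-- the error as a literal, degrees 8 and 10 -/
def eLL : P2 :=
  [(8, 0, 63 / 25), (7, 1, 398 / 5), (6, 2, 725), (5, 3, 2740), (4, 4, 4990), (3, 5, 4550), (2, 6, 1940), (1, 7,
   324), (0, 8, 147 / 10), (10, 0, 163), (9, 1, 4370), (8, 2, 42400), (7, 3, 213000), (6, 4, 642000), (5, 5,
   1250000), (4, 6, 1650000), (3, 7, 1590000), (2, 8, 1300000), (1, 9, 1050000), (0, 10, 1270000)]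

theorem eLOC_pos : (eLOC.all fun m => decide (0 ≤ m.2.2)) = true := by decide +kernel

theorem eLOC_le : leR eLL (eLOC.map (rd1 10)) = true := by decide +kernel

/-- the value without the shift form -/
def vLOC (TT : P2) : VD := ⟨fLOC, ofP (eLL ++ mul1 0 0 (11 / 240) (mulR TT TT))⟩

/-- the value -/
def vEP (TT : P2) : VD := (vLOC TT).add vNS

variable {A : ℝ} {B : ℂ}

/-- **(V) without the shift form** -/
theorem vok_LOC (hA : 0 ≤ A) (hX : A + 8 / 5 * ‖B‖ ≤ 1 / 10) (TT : P2)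
    (hT : ∑' k : ℕ, ‖(PZ A B).eA (b0I A B) (z0I A B) (k + 5)‖ ^ 2 / (lk (k + 5) ^ 2 - 1) ≤ evR A ‖B‖ TT ^ 2) :
    VOK A B (vLOC TT) ((PZ A B).EP (b0I A B) (z0I A B) - (PZ A B).NS (b0I A B) (z0I A B)) := by
  have hy := norm_nonneg B
  have hZ : |A| + 2 * ‖B‖ ≤ 1 / 4 := by rw [abs_of_nonneg hA]; linarith
  have h1 := vloc_main (zcI A B) A B rfl rfl rfl hA (by linarith)
    (Pool.Agent.Helper43.SH.reg_PZ hZ) (dat_PI hZ) hT
  unfold VOK vLOC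
  refine h1.trans ?_
  refine le_trans ?_ (ofP_le hA hy _)
  rw [evR_append, evR_mul1, evR_mulR]
  have h2 := (rd_le hA hy (by linarith) (by linarith) 10 eLOC eLOC_pos).trans (leR_ok hA hy _ _ eLOC_le)
  push_cast
  simp only [pow_zero, mul_one]
  linarith

/-- **(V)** -/
theorem vok_EP (hA : 0 ≤ A) (hX : A + 8 / 5 * ‖B‖ ≤ 1 / 10) (TT : P2)
    (hT : ∑' k : ℕ, ‖(PZ A B).eA (b0I A B) (z0I A B) (k + 5)‖ ^ 2 / (lk (k + 5) ^ 2 - 1) ≤ evR A ‖B‖ TT ^ 2) :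
    VOK A B (vEP TT) ((PZ A B).EP (b0I A B) (z0I A B)) := by
  have hy := norm_nonneg B
  have hZ : |A| + 2 * ‖B‖ ≤ 1 / 4 := by rw [abs_of_nonneg hA]; linarith
  have h1 := vok_LOC hA hX TT hT
  have h2 : VOK A B vNS ((PZ A B).NS (b0I A B) (z0I A B)) :=
    vok_NS (zcI A B) hA (by linarith) (by linarith) hZ le_rfl (Pool.Agent.Helper43.SH.lam_le_m hZ)
  have n1 : (vLOC TT).f.1 ≠ 0 := by
    show (11608008110899200000 : ℤ) ≠ 0
    norm_num
  have n2 : vNS.f.1 ≠ 0 := by decide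
  have h3 := VOK.add n1 n2 h1 h2
  rw [sub_add_cancel] at h3
  exact h3

end Pool.Agent.Helper35.Cas
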