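import Pool.Agent.Helper35.SH.El

/-!
# Project RC, SHARP, zone I: the aligned moments of the base as mean values of lists, end
-/

set_option autoImplicit false

open MeasureTheory Set Filter Metric

namespace Pool.Agent.Helper35.Cas

open Helper49.LT hiding sg
open Helper49.RC (om)
open Helper44.GQ
open Helper49.Sharp hiding mean
open Pool.Agent.Helper35.RC
open Pool.Agent.Helper20.RC (wR eM eD)
open Pool.Agent.Helper43.SH
open Pool.Agent.Helper33.SH (PI ZC cI z0I b0I dI ζ1 ζ2 om_val om_conj om_mul om_norm om_sq om_cube e1_eq e2_eq Z1_eq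
  Z2_eq Z1 Z2 ee_arg norm_ζ1 norm_ζ2 norm_z0I)

theorem mean_sub {f : ℝ → ℂ} (hf : ∀ t, f (t + 2 * Real.pi) = f t) (d : ℝ) : mean (fun θ => f (θ - d)) = mean f := by
  unfold mean
  congr 1
  rw [intervalIntegral.integral_comp_sub_right]
  have hp : Function.Periodic f (2 * Real.pi) := hf
  have := hp.intervalIntegral_add_eq (0 - d) 0
  rw [show 2 * Real.pi - d = 0 - d + 2 * Real.pi by ring, this, zero_add]

theorem mean_conj (f : ℝ → ℂ) : (starRingEnd ℂ) (mean f) = mean (fun t => (starRingEnd ℂ) (f t)) := by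
  unfold mean
  rw [map_mul, map_div₀, map_one, map_mul, Complex.conj_ofReal, intervalIntegral.integral_of_le (by positivity),
    intervalIntegral.integral_of_le (by positivity), ← integral_conj]
  congr 3
  exact Complex.conj_ofReal 2

theorem lfV_per (A B : ℂ) (Z : Po) (F : List It) (t : ℝ) : lfV A B Z F (t + 2 * Real.pi) = lfV A B Z F t := by
  unfold lfV It.v
  simp only [uu_per, vv_per]

variable (c : ZC) (A : ℝ) (B : ℂ)

/-- **the aligned moments of the base** -/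
theorem eM_eq (h : ‖(A : ℂ)‖ + 3 / 2 * ‖B‖ < 1) (l : ℤ) (G1 G2 : ℕ → ℚ) :
    (starRingEnd ℂ) (eM ((PI c A B).F1 (b0I A B) (z0I A B)) ((PI c A B).F2 (b0I A B) (z0I A B)) (PI c A B).ph1
      (PI c A B).ph2 l) =
    mean (fun t => ee ((l : ℝ) * t) * lfV A B Z1 (Fl l (om2 l) be1 G1) t)
      + mean (fun t => ee ((l : ℝ) * t) * lfV A B Z2 (Fl l (om2 (2 * l)) be2 G2) t) := by
  have c0 : Continuous fun t : ℝ => ee ((l : ℝ) * t) := continuous_ee.comp (by fun_prop)
  have z1 : ∀ t, ‖evP (uu A t) (vv B t) Z1 / 4‖ < 1 := fun t => by rw [zeta1_ev]; exact nz1 A B h t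
  have z2 : ∀ t, ‖evP (uu A t) (vv B t) Z2 / 4‖ < 1 := fun t => by rw [zeta2_ev]; exact nz2 A B h t
  set D1 : ℝ → ℂ := fun t => ee ((l : ℝ) * t) * lfV A B Z1 (Fl l (om2 l) be1 G1) t with hD1
  set D2 : ℝ → ℂ := fun t => ee ((l : ℝ) * t) * lfV A B Z2 (Fl l (om2 (2 * l)) be2 G2) t with hD2
  have k1 : Continuous D1 := c0.mul (cont_lf A B Z1 z1 _)
  have k2 : Continuous D2 := c0.mul (cont_lf A B Z2 z2 _)
  have p1 : ∀ t, D1 (t + 2 * Real.pi) = D1 t := fun t => by simp only [hD1]; rw [ee_per, lfV_per]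
  have p2 : ∀ t, D2 (t + 2 * Real.pi) = D2 t := fun t => by simp only [hD2]; rw [ee_per, lfV_per]
  have e1 : ∀ θ, (starRingEnd ℂ) (eD ((PI c A B).F1 (b0I A B) (z0I A B)) (PI c A B).ph1 l θ) =
      D1 (θ - Real.pi / 3) := by
    intro θ
    rw [eD1_eq c A B h l θ]
    simp only [hD1]
    rw [lfV_Fl, w_ev, zeta1_ev, om2_eq]
    rfl
  have e2 : ∀ θ, (starRingEnd ℂ) (eD ((PI c A B).F2 (b0I A B) (z0I A B)) (PI c A B).ph2 l θ) =
      D2 (θ - 2 * Real.pi / 3) := by
    intro θ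
    rw [eD2_eq c A B h l θ]
    simp only [hD2]
    rw [lfV_Fl, w_ev, zeta2_ev, om2_eq]
    congr 2
    rw [← zpow_natCast, ← zpow_mul]
    rfl
  have e3 : (starRingEnd ℂ) (eM ((PI c A B).F1 (b0I A B) (z0I A B)) ((PI c A B).F2 (b0I A B) (z0I A B)) (PI c A B).ph1
      (PI c A B).ph2 l) = mean (fun θ => D1 (θ - Real.pi / 3) + D2 (θ - 2 * Real.pi / 3)) := by
    have : eM ((PI c A B).F1 (b0I A B) (z0I A B)) ((PI c A B).F2 (b0I A B) (z0I A B)) (PI c A B).ph1
      (PI c A B).ph2 l = mean (fun θ => eD ((PI c A B).F1 (b0I A B) (z0I A B)) (PI c A B).ph1 l θ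
        + eD ((PI c A B).F2 (b0I A B) (z0I A B)) (PI c A B).ph2 l θ) := rfl
    rw [this, mean_conj]
    congr 1
    funext θ
    rw [map_add, e1, e2]
  have k1' : Continuous fun θ => D1 (θ - Real.pi / 3) := k1.comp (by fun_prop)
  have k2' : Continuous fun θ => D2 (θ - 2 * Real.pi / 3) := k2.comp (by fun_prop)
  rw [e3, mean_add k1' k2', mean_sub p1, mean_sub p2]

end Pool.Agent.Helper35.Cas
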