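import Pool.Agent.Helper35.SH.EM

/-!
# Project RC, SHARP, zone I: tables of the aligned moments of the base
-/

set_option autoImplicit false

namespace Pool.Agent.Helper35.Cas

/-- equality of polynomials -/
def eqP (p q : Po) : Bool := (addP (smP (-1, 0) q) p).all fun x => x.2.1 == 0 && x.2.2 == 0

theorem evP_zero (u v : ℂ) : ∀ p : Po, (p.all fun x => x.2.1 == 0 && x.2.2 == 0) = true → evP u v p = 0
  | [], _ => rfl
  | x :: p, h => by
    rw [List.all_cons, Bool.and_eq_true, Bool.and_eq_true, beq_iff_eq, beq_iff_eq] at h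
    rw [evP_cons, evP_zero u v p h.2]
    unfold evC
    rw [h.1.1, h.1.2]
    simp

theorem eqP_ok {p q : Po} (h : eqP p q = true) (u v : ℂ) : evP u v p = evP u v q := by
  have h1 := evP_zero u v _ h
  rw [evP_add, evP_sm, evC_int] at h1
  push_cast at h1
  linear_combination h1

/-- common denominator -/
def DC : ℤ := 137438953472000

def G0 (i : ℕ) : ℚ := [(549 / 10000), (171 / 2000), (239 / 500), (577 / 1000), (239 / 500), (577 / 1000)].getD i 0
/-- `DC conj e_0` -/
def E0 : Po :=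
  [((0, 0, 0, 0), (274877906944000, 0)), ((0, 0, 1, 1), (82463372083200, 0)), ((1, 1, 0, 0), (46042049413120, 0)),
  ((0, 0, 2, 2), (6007585505280, 0)), ((1, 1, 1, 1), (-441737386393600, 0)), ((2, 2, 0, 0), (23106924052480, 0)),
  ((0, 0, 3, 3), (-15557512396800, 0)), ((1, 1, 2, 2), (189341619978240, 0)), ((2, 2, 1, 1), (-196135050280960,
  0)), ((3, 3, 0, 0), (8342973972480, 0))]
theorem c0F : ((Fl 0 (om2 0) be1 G0).all fun x => x.chk 0) = true := by decide +kernel
theorem c0G : ((Fl 0 (om2 (2 * 0)) be2 G0).all fun x => x.chk 0) = true := by decide +kernel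
theorem c0D : (chkD DC (Fl 0 (om2 0) be1 G0) && chkD DC (Fl 0 (om2 (2 * 0)) be2 G0)) = true := by
  decide +kernel
theorem c0E : eqP (totI zp2 zc2 0 0 DC (Fl 0 (om2 (2 * 0)) be2 G0)
    (totI zp1 zc1 0 0 DC (Fl 0 (om2 0) be1 G0) [])) E0 = true := by decide +kernel

def G2 (i : ℕ) : ℚ := [(333 / 500), (39 / 50), (239 / 500), (577 / 1000), (219 / 25), (711 / 100)].getD i 0
/-- `DC conj e_2` -/
def E2 : Po :=
  [((0, 1, 1, 0), (38826504355840, 0)), ((0, 1, 2, 1), (73685532672000, 0)), ((1, 2, 1, 0), (-275028230799360,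
  0)), ((0, 1, 3, 2), (216771361505280, 0)), ((1, 2, 2, 1), (201435308359680, 0)), ((2, 3, 1, 0),
  (-145921513881600, 0)), ((4, 0, 0, 2), (-78369060290560, 0))]
theorem c2F : ((Fl 2 (om2 2) be1 G2).all fun x => x.chk 0) = true := by decide +kernel
theorem c2G : ((Fl 2 (om2 (2 * 2)) be2 G2).all fun x => x.chk 0) = true := by decide +kernel
theorem c2D : (chkD DC (Fl 2 (om2 2) be1 G2) && chkD DC (Fl 2 (om2 (2 * 2)) be2 G2)) = true := by
  decide +kernel
theorem c2E : eqP (totI zp2 zc2 2 0 DC (Fl 2 (om2 (2 * 2)) be2 G2)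
    (totI zp1 zc1 2 0 DC (Fl 2 (om2 2) be1 G2) [])) E2 = true := by decide +kernel

end Pool.Agent.Helper35.Cas
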