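import Pool.Agent.Helper33.SH.ETail2
import Pool.Agent.Helper35.SH.EtA

/-!
# Project RC, SHARP, zone I: the aligned moments `e_l(s)`, `l ≥ 12`, as exact lists plus remainder
-/

set_option autoImplicit false

open MeasureTheory Set Filter Metric

namespace Pool.Agent.Helper35.EX

open Helper49.LT hiding sg s3
open Pool.Agent.Helper35.RC
open Pool.Agent.Helper35.Cas
open Pool.Agent.Helper20.RC (eM lk)
open Helper27.SH (P2 evR)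
open Pool.Agent.Helper33.GM (evR_nil evR_cons evR_append mul1 evR_mul1 mulR evR_mulR powX evR_powX leR leR_ok)
open Pool.Agent.Helper33.SH (PI ZC z0I b0I Z1 Z2 norm_ζ1 norm_ζ2 norm_z0I)
open Pool.Agent.Helper33.ET

/-- the exact list -/
def lstRow (l : ℤ) (K : ℕ) (Dc : ℕ) (G : ℕ → ℚ) : Po :=
  totI zp2 zc2 l 0 Dc (FlK l (om2 (2 * l)) be2 K G) (totI zp1 zc1 l 0 Dc (FlK l (om2 l) be1 K G) [])

/-- the remainder -/
def remRow (l : ℤ) (K : ℕ) (G : ℕ → ℚ) : P2 :=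
  tot6 (FlK l (om2 l) be1 K G) ++ tot6 (FlK l (om2 (2 * l)) be2 K G)

/-- all checks of one row -/
def chkX (l : ℤ) (K : ℕ) (Dc : ℕ) (G : ℕ → ℚ) (E : Po) (D : P2) : Bool :=
  (FlK l (om2 l) be1 K G).all chk6 && (FlK l (om2 (2 * l)) be2 K G).all chk6
  && chkD Dc (FlK l (om2 l) be1 K G) && chkD Dc (FlK l (om2 (2 * l)) be2 K G) && decide (0 < Dc)
  && decide (l.natAbs % 2 = 0) && eqP (lstRow l K Dc G) E && leR D (remRow l K G)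

theorem el6x (c : ZC) {A : ℝ} {B : ℂ} (hA : 0 ≤ A) (h : A + 3 / 2 * ‖B‖ ≤ 1 / 6) (k K Dc : ℕ) (G : ℕ → ℚ) (E : Po)
    (D : P2) (hc : chkX (2 * k + 2) K Dc G E D = true) :
    ‖(starRingEnd ℂ) ((PI c A B).eA (b0I A B) (z0I A B) k) - evP A B E / Dc‖ ≤ evR A ‖B‖ D := by
  unfold chkX at hc
  simp only [Bool.and_eq_true, decide_eq_true_eq] at hc
  obtain ⟨⟨⟨⟨⟨⟨⟨h1, h2⟩, h3⟩, h4⟩, h5⟩, h6⟩, h7⟩, h8⟩ := hc
  have hn : ‖(A : ℂ)‖ = A := by rw [Complex.norm_real, Real.norm_of_nonneg hA]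
  have hA' : ‖(A : ℂ)‖ + 3 / 2 * ‖B‖ ≤ 1 / 6 := by rw [hn]; exact h
  have n1 : ∀ t, ‖evP (uu A t) (vv B t) Z1 / 4‖ ≤ ‖(A : ℂ)‖ + 3 / 2 * ‖B‖ := fun t => by
    rw [zeta1_ev, norm_ζ1, Complex.norm_real, Real.norm_eq_abs]
    exact norm_z0I A B t
  have n2 : ∀ t, ‖evP (uu A t) (vv B t) Z2 / 4‖ ≤ ‖(A : ℂ)‖ + 3 / 2 * ‖B‖ := fun t => by
    rw [zeta2_ev, norm_ζ2, Complex.norm_real, Real.norm_eq_abs]
    exact norm_z0I A B t
  have hDc : ((Dc : ℕ) : ℤ) ≠ 0 := by exact_mod_cast h5.ne'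
  have m1 := lf6 A B Z1 zp1 zc1 pw1 pc1 (by decide) n1 hA' (2 * k + 2) h6 Dc hDc (FlK (2 * k + 2) (om2 (2 * k + 2)) be1 K G)
    [] h3 h1
  have m2 := lf6 A B Z2 zp2 zc2 pw2 pc2 (by decide) n2 hA' (2 * k + 2) h6 Dc hDc
    (FlK (2 * k + 2) (om2 (2 * (2 * k + 2))) be2 K G)
    (totI zp1 zc1 (2 * k + 2) 0 Dc (FlK (2 * k + 2) (om2 (2 * k + 2)) be1 K G) []) h4 h2
  have he := eM_eq c A B (hA'.trans_lt (by norm_num)) (2 * k + 2) G G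
  have e1 : (fun t => ee (((2 * k + 2 : ℤ) : ℝ) * t) * lfV A B Z1 (FlK (2 * k + 2) (om2 (2 * k + 2)) be1 K G) t) =
      fun t => ee (((2 * k + 2 : ℤ) : ℝ) * t) * lfV A B Z1 (Fl (2 * k + 2) (om2 (2 * k + 2)) be1 G) t := by
    funext t
    rw [lfV_FlK A B Z1 _ _ _ K G G]
  have e2 : (fun t => ee (((2 * k + 2 : ℤ) : ℝ) * t) * lfV A B Z2 (FlK (2 * k + 2) (om2 (2 * (2 * k + 2))) be2 K G) t) =
      fun t => ee (((2 * k + 2 : ℤ) : ℝ) * t) * lfV A B Z2 (Fl (2 * k + 2) (om2 (2 * (2 * k + 2))) be2 G) t := by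
    funext t
    rw [lfV_FlK A B Z2 _ _ _ K G G]
  rw [e1] at m1
  rw [e2] at m2
  have hl : (((2 * (k : ℤ) + 2 : ℤ) : ℝ)) = lk k := by unfold lk; push_cast; ring
  have he' : (starRingEnd ℂ) ((PI c A B).eA (b0I A B) (z0I A B) k) =
      mean (fun t => ee (((2 * k + 2 : ℤ) : ℝ) * t) * lfV A B Z1 (Fl (2 * k + 2) (om2 (2 * k + 2)) be1 G) t)
      + mean (fun t => ee (((2 * k + 2 : ℤ) : ℝ) * t) * lfV A B Z2 (Fl (2 * k + 2) (om2 (2 * (2 * k + 2))) be2 G) t) := by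
    rw [← he, hl]
    rfl
  rw [he']
  have hE := leR_ok hA (norm_nonneg B) D _ h8
  refine le_trans ?_ hE
  have h7' := eqP_ok h7 (A : ℂ) B
  unfold lstRow at h7'
  rw [h7'] at m2
  unfold remRow
  rw [evR_append]
  rw [evP_nil, sub_zero] at m1
  rw [hn] at m1 m2
  rw [← h7'] at m2 ⊢
  set W := totI zp2 zc2 (2 * k + 2) 0 Dc (FlK (2 * k + 2) (om2 (2 * (2 * k + 2))) be2 K G)
    (totI zp1 zc1 (2 * k + 2) 0 Dc (FlK (2 * k + 2) (om2 (2 * k + 2)) be1 K G) []) with hW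
  set M1 := mean (fun t => ee (((2 * k + 2 : ℤ) : ℝ) * t) * lfV A B Z1 (Fl (2 * k + 2) (om2 (2 * k + 2)) be1 G) t)
  set M2 := mean (fun t => ee (((2 * k + 2 : ℤ) : ℝ) * t) * lfV A B Z2 (Fl (2 * k + 2) (om2 (2 * (2 * k + 2))) be2 G) t)
  set W1 := totI zp1 zc1 (2 * k + 2) 0 Dc (FlK (2 * k + 2) (om2 (2 * k + 2)) be1 K G) [] with hW1
  have e3 : M1 + M2 - evP A B W / Dc = (M1 - evP A B W1 / ((Dc : ℕ) : ℤ))
      + (M2 - (evP A B W - evP A B W1) / ((Dc : ℕ) : ℤ)) := by push_cast; ring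
  rw [e3]
  exact (norm_add_le _ _).trans (add_le_add m1 m2)

end Pool.Agent.Helper35.EX
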