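import Pool.Agent.Helper35.SH.EX

/-!
# Project RC, SHARP, zone I: the aligned moments `e_l(s)`, `l = 12, 14`, exact through degree 9 (generated)
-/

set_option autoImplicit false

namespace Pool.Agent.Helper35.EX

open Pool.Agent.Helper35.Cas
open Helper27.SH (P2 evR)

/-- `|(1+ζ)^a (1+conj ζ)^b|`: constants -/
def Gx12 (i : ℕ) : ℚ := [51110, 18890, 12030, 3639, 38810, 9412].getD i 0
/-- `32000 16^10 conj e_12`, degree 4 and 6 -/
def L12 : Po :=
  [((0, 1, 3, 0), (-6145692755663257600, 0)), ((4, 0, 0, 0), (-3040831348009861120, 0)), ((0, 1, 4, 1),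
  (32457658177651998720, 0)), ((1, 2, 3, 0), (45772869553388257280, 0)), ((4, 0, 1, 1), (16752480767946260480, 0)),
  ((5, 1, 0, 0), (27139596664921128960, 0))]
/-- degree 8 -/
def H12 : Po :=
  [((0, 1, 5, 2), (82467690989569966080, 0)), ((1, 2, 4, 1), (-1673371868762493419520, 0)), ((2, 3, 3, 0),
  (331911626825568092160, 0)), ((4, 0, 2, 2), (-113091385225453240320, 0)), ((5, 1, 1, 1), (314699493503643156480,
  0)), ((6, 2, 0, 0), (-87245015094310993920, 0))]
/-- remainder -/
def D12 : P2 :=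
  [(10, 0, 803200), (9, 1, 12720000), (8, 2, 87630000), (7, 3, 346400000), (6, 4, 870000000), (5, 5, 1448000000), (4,
  6, 1608000000), (3, 7, 1169000000), (2, 8, 524200000), (1, 9, 127600000), (0, 10, 12070000)]
theorem cx12 : chkX 12 10 (32000 * 16 ^ 10) Gx12 (L12 ++ H12) D12 = true := by decide +kernel

/-- `|(1+ζ)^a (1+conj ζ)^b|`: constants -/
def Gx14 (i : ℕ) : ℚ := [192500, 58720, 38810, 9412, 109800, 21750].getD i 0
/-- `32000 16^10 conj e_14`, degree 4 and 6 -/
def L14 : Po :=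
  [((3, 0, 1, 0), (-429524217390694400, 0)), ((0, 2, 4, 0), (-47818762278351667200, 0)), ((3, 0, 2, 1),
  (2050580595867648000, 0)), ((4, 1, 1, 0), (-91719277432170086400, 0))]
/-- degree 8 -/
def H14 : Po :=
  [((0, 2, 5, 1), (-41665872566786457600, 0)), ((1, 3, 4, 0), (-229086543202379366400, 0)), ((3, 0, 3, 2),
  (2695255199076843520000, 0)), ((4, 1, 2, 1), (-1372536729100301107200, 0)), ((5, 2, 1, 0), (763351273315290316800,
  0))]
/-- remainder -/
def D14 : P2 :=
  [(10, 0, 2854000), (9, 1, 44780000), (8, 2, 306900000), (7, 3, 1210000000), (6, 4, 3040000000), (5, 5, 5071000000),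
  (4, 6, 5664000000), (3, 7, 4152000000), (2, 8, 1886000000), (1, 9, 467100000), (0, 10, 45330000)]
theorem cx14 : chkX 14 10 (32000 * 16 ^ 10) Gx14 (L14 ++ H14) D14 = true := by decide +kernel

end Pool.Agent.Helper35.EX
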