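import Pool.Agent.Helper35.SH.EX

/-!
# Project RC, SHARP, zone I: the aligned moments `e_l(s)`, `l = 16, 18`, exact through degree 9 (generated)
-/

set_option autoImplicit false

namespace Pool.Agent.Helper35.EX

open Pool.Agent.Helper35.Cas
open Helper27.SH (P2 evR)

/-- `|(1+ζ)^a (1+conj ζ)^b|`: constants -/
def Gx16 (i : ℕ) : ℚ := [631100, 160900, 109800, 21750, 279700, 46010].getD i 0
/-- `32000 16^10 conj e_16`, degree 4 and 6 -/
def L16 : Po :=
  [((2, 0, 2, 0), (34062114314256384000, 0)), ((2, 0, 3, 1), (-264649380481046937600, 0)), ((3, 1, 2, 0),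
  (-281582685900505088000, 0))]
/-- degree 8 -/
def H16 : Po :=
  [((0, 3, 5, 0), (-140309945943221862400, 0)), ((2, 0, 4, 2), (-5586102537013533081600, 0)), ((3, 1, 3, 1),
  (5542632976368323788800, 0)), ((4, 2, 2, 0), (-473093917627750809600, 0)), ((7, 0, 0, 1), (-200211607323043430400,
  0))]
/-- remainder -/
def D16 : P2 :=
  [(10, 0, 8766000), (9, 1, 136300000), (8, 2, 927400000), (7, 3, 3643000000), (6, 4, 9133000000), (5, 5,
  15240000000), (4, 6, 17070000000), (3, 7, 12570000000), (2, 8, 5747000000), (1, 9, 1439000000), (0, 10,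
  141900000)]
theorem cx16 : chkX 16 10 (32000 * 16 ^ 10) Gx16 (L16 ++ H16) D16 = true := by decide +kernel

/-- `|(1+ζ)^a (1+conj ζ)^b|`: constants -/
def Gx18 (i : ℕ) : ℚ := [1849000, 398500, 279700, 46010, 654200, 90860].getD i 0
/-- `32000 16^10 conj e_18`, degree 4 and 6 -/
def L18 : Po :=
  [((1, 0, 3, 0), (-40663344358033981440, 0)), ((1, 0, 4, 1), (320959355853062799360, 0)), ((2, 1, 3, 0),
  (1101728631826237358080, 0)), ((6, 0, 0, 0), (-18683812112236544000, 0))]
/-- degree 8 -/
def H18 : Po :=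
  [((1, 0, 5, 2), (4028471943258659880960, 0)), ((2, 1, 4, 1), (-14446875121971175096320, 0)), ((3, 2, 3, 0),
  (-8583382509546163404800, 0)), ((6, 0, 1, 1), (1616273839406815641600, 0)), ((7, 1, 0, 0), (167559889659531100160,
  0))]
/-- remainder -/
def D18 : P2 :=
  [(10, 0, 23460000), (9, 1, 361000000), (8, 2, 2440000000), (7, 3, 9537000000), (6, 4, 23860000000), (5, 5,
  39780000000), (4, 6, 44620000000), (3, 7, 32990000000), (2, 8, 15200000000), (1, 9, 3851000000), (0, 10,
  387500000)]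
theorem cx18 : chkX 18 10 (32000 * 16 ^ 10) Gx18 (L18 ++ H18) D18 = true := by decide +kernel

end Pool.Agent.Helper35.EX
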