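import Pool.Agent.Helper35.SH.EX

/-!
# Project RC, SHARP, zone I: the aligned moments `e_l(s)`, `l = 20`, exact through degree 9 (generated)
-/

set_option autoImplicit false

namespace Pool.Agent.Helper35.EX

open Pool.Agent.Helper35.Cas
open Helper27.SH (P2 evR)

/-- `|(1+ζ)^a (1+conj ζ)^b|`: constants -/
def Gx20 (i : ℕ) : ℚ := [4934000, 909900, 654200, 90860, 1427000, 169700].getD i 0
/-- `32000 16^10 conj e_20`, degree 4 and 6 -/
def L20 : Po :=
  [((0, 0, 4, 0), (13022139493405163520, 0)), ((0, 0, 5, 1), (-61004057486158725120, 0)), ((1, 1, 4, 0),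
  (-900149565928998174720, 0)), ((5, 0, 1, 0), (26664635473109975040, 0))]
/-- degree 8 -/
def H20 : Po :=
  [((0, 0, 6, 2), (-1481166636729803735040, 0)), ((1, 1, 5, 1), (10681539279644629401600, 0)), ((2, 2, 4, 0),
  (18771676394570498703360, 0)), ((5, 0, 2, 1), (-955107444020949811200, 0)), ((6, 1, 1, 0),
  (-2055375678175025561600, 0))]
/-- remainder -/
def D20 : P2 :=
  [(10, 0, 60260000), (9, 1, 924700000), (8, 2, 6242000000), (7, 3, 24410000000), (6, 4, 61130000000), (5, 5,
  102300000000), (4, 6, 115200000000), (3, 7, 85660000000), (2, 8, 39810000000), (1, 9, 10220000000), (0, 10,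
  1048000000)]
theorem cx20 : chkX 20 10 (32000 * 16 ^ 10) Gx20 (L20 ++ H20) D20 = true := by decide +kernel

end Pool.Agent.Helper35.EX
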