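import Pool.Agent.Helper35.SH.Lnk

/-!
# Project RC, SHARP, zone I: the aligned moments of the base as mean values of lists
-/

set_option autoImplicit false

open MeasureTheory Set Filter Metric

namespace Pool.Agent.Helper35.Cas

open Helper49.LT hiding sg
open Helper49.RC (om)
open Helper44.GQ
open Helper49.Sharp hiding mean
open Pool.Agent.Helper35.RC
open Pool.Agent.Helper20.RC (wR eM eD)
open Pool.Agent.Helper43.SH
open Pool.Agent.Helper33.SH (PI ZC cI z0I b0I dI ζ1 ζ2 om_val om_conj om_mul om_norm om_sq om_cube e1_eq e2_eq Z1_eq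
  Z2_eq Z1 Z2 ee_arg norm_ζ1 norm_ζ2 norm_z0I)

/-- the terms of `conj e_l` of one family; `o = 2 om^(jl)` -/
def Fl (l : ℤ) (o : Co) (be : Po) (G : ℕ → ℚ) : List It :=
  [⟨smP o one1, 2, 1 + l, 1 - l, 8, 8, G 0⟩,
   ⟨smP o W2, 2, 1 + l, 1 - l, 6, 6, G 1⟩,
   ⟨smP (mulC (1 + l, 0) o) be, 32000, l - 1, 1 - l, 6, 6, G 2⟩,
   ⟨mulP W2 (smP (mulC (1 + l, 0) o) be), 32000, l - 1, 1 - l, 4, 4, G 3⟩,
   ⟨smP (mulC (1 - l, 0) o) (cjP be), 32000, l + 1, -l - 1, 6, 6, G 4⟩,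
   ⟨mulP W2 (smP (mulC (1 - l, 0) o) (cjP be)), 32000, l + 1, -l - 1, 4, 4, G 5⟩]

/-- the density of `conj e_l` without the factor `ee (l t)` -/
noncomputable def den (l : ℤ) (w : ℂ) (o ζ β : ℂ) : ℂ :=
  o * (w * (Ph ((1 + l) / 2) ((1 - l) / 2) ζ + (1 + l) / 2 * β * Ph ((l - 1) / 2) ((1 - l) / 2) ζ
    + (1 - l) / 2 * (starRingEnd ℂ) β * Ph ((l + 1) / 2) ((-l - 1) / 2) ζ))

theorem lfV_Fl (A B : ℂ) (Z : Po) (l : ℤ) (o : Co) (be : Po) (G : ℕ → ℚ) (t : ℝ) :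
    lfV A B Z (Fl l o be G) t = den l (evP (uu A t) (vv B t) WL) (evC o / 2) (evP (uu A t) (vv B t) Z / 4)
      (evP (uu A t) (vv B t) be / 8000) := by
  have h8 : (starRingEnd ℂ) (8000 : ℂ) = 8000 := Complex.conj_ofReal 8000
  have hW : evP (uu A t) (vv B t) WL = 1 + evP (uu A t) (vv B t) W2 := by
    unfold WL
    rw [evP_cons]
    simp [evC, evM]
  have h1 : evP (uu A t) (vv B t) one1 = 1 := by
    unfold one1
    simp [evC, evM]
  have hc : ∀ n : ℤ, evC (mulC (n, 0) o) = n * evC o := fun n => by rw [evC_mul, evC_int]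
  unfold lfV Fl It.v den
  simp only [List.map_cons, List.map_nil, List.sum_cons, List.sum_nil, evP_sm, evP_mul, hc, h1, evP_cj, hW,
    map_div₀, h8]
  push_cast
  ring

section

variable (c : ZC) (A : ℝ) (B : ℂ)

theorem ee_zpow (l : ℤ) (x : ℝ) : ee ((l : ℝ) * x) = ee x ^ l := by
  unfold ee
  rw [← Complex.exp_int_mul]
  congr 1
  push_cast
  ring

/-- pointwise density, one family -/
theorem den_pt (l : ℤ) (w : ℝ) (o ζ β : ℂ) (ho : ‖o‖ = 1) (hζ : ‖ζ‖ < 1) (t a : ℝ)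
    (ha : ee a = o * ((1 + ζ) / (‖1 + ζ‖ : ℂ))) :
    (starRingEnd ℂ) (((((w : ℂ) * (ee t * (o * (1 + ζ + β)))) * ee (-(t + a))).re
      - Complex.I * ((l : ℝ) : ℂ) * ((((w : ℂ) * (ee t * (o * (1 + ζ + β)))) * ee (-(t + a))).im : ℂ))
        * ee (-((l : ℝ) * (t + a)))) =
      ee ((l : ℝ) * t) * den l w (o ^ l) ζ β := by
  have hF := one_add_ne hζ
  have hn : (‖1 + ζ‖ : ℂ) ≠ 0 := by
    have : ‖1 + ζ‖ ≠ 0 := norm_ne_zero_iff.2 hF
    exact_mod_cast this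
  set U := (1 + ζ) / (‖1 + ζ‖ : ℂ) with hU
  have hUn : ‖U‖ = 1 := by
    rw [hU, norm_div, Complex.norm_real, norm_norm, div_self (norm_ne_zero_iff.2 hF)]
  have hcU : (starRingEnd ℂ) U * U = 1 := by
    rw [mul_comm, Complex.mul_conj, Complex.normSq_eq_norm_sq, hUn]; norm_num
  have hco : (starRingEnd ℂ) o * o = 1 := by
    rw [mul_comm, Complex.mul_conj, Complex.normSq_eq_norm_sq, ho]; norm_num
  have het : (starRingEnd ℂ) (ee t) * ee t = 1 := by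
    rw [mul_comm, Complex.mul_conj, Complex.normSq_eq_norm_sq, norm_ee]; norm_num
  have e1 : ee (-(t + a)) = (starRingEnd ℂ) (ee t) * ((starRingEnd ℂ) o * (starRingEnd ℂ) U) := by
    rw [← conj_ee, ee_add, map_mul, ha, map_mul]
  have eU : 1 + ζ = (‖1 + ζ‖ : ℂ) * U := by rw [hU]; field_simp
  set Y : ℂ := (w : ℂ) * ((‖1 + ζ‖ : ℂ) + β * (starRingEnd ℂ) U) with hY
  have e2 : ((w : ℂ) * (ee t * (o * (1 + ζ + β)))) * ee (-(t + a)) = Y := by
    rw [e1, hY, show (1 + ζ + β) = (‖1 + ζ‖ : ℂ) * U + β by rw [← eU]]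
    linear_combination ((w : ℂ) * (ee t * (starRingEnd ℂ) (ee t)) * (o * (starRingEnd ℂ) o) * (‖1 + ζ‖ : ℂ)) * hcU
      + ((w : ℂ) * (ee t * (starRingEnd ℂ) (ee t)) * ((‖1 + ζ‖ : ℂ) + β * (starRingEnd ℂ) U)) * hco
      + ((w : ℂ) * ((‖1 + ζ‖ : ℂ) + β * (starRingEnd ℂ) U)) * het
  rw [e2]
  have hre : (Y.re : ℂ) = (Y + (starRingEnd ℂ) Y) / 2 := by
    rw [Complex.add_conj]; push_cast; ring
  have him : (Y.im : ℂ) = -Complex.I * (Y - (starRingEnd ℂ) Y) / 2 := by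
    rw [Complex.sub_conj]; push_cast
    linear_combination ((Y.im : ℂ)) * Complex.I_mul_I
  have hcY : (starRingEnd ℂ) Y = (w : ℂ) * ((‖1 + ζ‖ : ℂ) + (starRingEnd ℂ) β * U) := by
    rw [hY, map_mul, map_add, map_mul, Complex.conj_conj, Complex.conj_ofReal, Complex.conj_ofReal]
  have e3 : ee (-((l : ℝ) * (t + a))) = (starRingEnd ℂ) (ee ((l : ℝ) * t) * (o ^ l * U ^ l)) := by
    rw [← conj_ee, mul_add, ee_add, ee_zpow l a, ha, mul_zpow]
  have hl : (starRingEnd ℂ) ((l : ℝ) : ℂ) = ((l : ℝ) : ℂ) := Complex.conj_ofReal _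
  have h2 : (starRingEnd ℂ) (2 : ℂ) = 2 := Complex.conj_ofReal 2
  have P1 : Ph ((1 + l) / 2) ((1 - l) / 2) ζ = (‖1 + ζ‖ : ℂ) * U ^ l := by
    rw [Ph_norm hζ, hU, Ph_unit hζ, Ph_mul hζ]
    congr 1 <;> ring
  have hU1 : U = Ph (1 / 2) (-1 / 2) ζ := by
    have := Ph_unit hζ 1
    rw [zpow_one] at this
    rw [hU, this]
    congr 1 <;> push_cast <;> ring
  have hcU1 : (starRingEnd ℂ) U = Ph (-1 / 2) (1 / 2) ζ := by rw [hU1, Ph_conj]
  have P2 : Ph ((l - 1) / 2) ((1 - l) / 2) ζ = (starRingEnd ℂ) U * U ^ l := by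
    rw [hcU1, hU, Ph_unit hζ, Ph_mul hζ]
    congr 1 <;> ring
  have P3 : Ph ((l + 1) / 2) ((-l - 1) / 2) ζ = U * U ^ l := by
    have : U * U ^ l = Ph (1 / 2) (-1 / 2) ζ * Ph ((l : ℝ) / 2) (-(l : ℝ) / 2) ζ := by
      rw [← hU1, ← Ph_unit hζ l, hU]
    rw [this, Ph_mul hζ]
    congr 1 <;> ring
  unfold den
  rw [P1, P2, P3, e3, map_mul, Complex.conj_conj, map_sub, map_mul, map_mul, Complex.conj_I, hl,
    Complex.conj_ofReal, Complex.conj_ofReal, hre, him, hcY, hY]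
  push_cast
  linear_combination (-(l : ℂ) * (w : ℂ) * (β * (starRingEnd ℂ) U - (starRingEnd ℂ) β * U) / 2 *
    (ee ((l : ℝ) * t) * (o ^ l * U ^ l))) * Complex.I_mul_I

theorem zeta1_ev (t : ℝ) : evP (uu A t) (vv B t) Z1 / 4 = ζ1 A B t := by rw [Z1_eq]; ring
theorem zeta2_ev (t : ℝ) : evP (uu A t) (vv B t) Z2 / 4 = ζ2 A B t := by rw [Z2_eq]; ring

theorem nz1 (h : ‖(A : ℂ)‖ + 3 / 2 * ‖B‖ < 1) (t : ℝ) : ‖ζ1 A B t‖ < 1 := by
  rw [norm_ζ1]
  refine (norm_z0I A B t).trans_lt ?_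
  rwa [Complex.norm_real, Real.norm_eq_abs] at h
theorem nz2 (h : ‖(A : ℂ)‖ + 3 / 2 * ‖B‖ < 1) (t : ℝ) : ‖ζ2 A B t‖ < 1 := by
  rw [norm_ζ2]
  refine (norm_z0I A B t).trans_lt ?_
  rwa [Complex.norm_real, Real.norm_eq_abs] at h

/-- `2 om^k` -/
def om2 (k : ℤ) : Co :=
  match (k % 6).toNat with
  | 0 => (2, 0)
  | 1 => (1, 1)
  | 2 => (-1, 1)
  | 3 => (-2, 0)
  | 4 => (-1, -1)
  | _ => (1, -1)

theorem om_six : om ^ 6 = 1 := by
  rw [show om ^ 6 = (om ^ 3) ^ 2 by ring, om_cube]; norm_num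

theorem om2_eq (k : ℤ) : evC (om2 k) / 2 = om ^ k := by
  have h0 : om ≠ 0 := fun h => by have := om_norm; rw [h] at this; simp at this
  have h1 : om ^ k = om ^ (k % 6).toNat := by
    have e : k = 6 * (k / 6) + ((k % 6).toNat : ℤ) := by
      rw [Int.toNat_of_nonneg (Int.emod_nonneg k (by norm_num))]
      omega
    conv_lhs => rw [e]
    rw [zpow_add₀ h0, zpow_mul, zpow_natCast, show (6 : ℤ) = ((6 : ℕ) : ℤ) by rfl, zpow_natCast, om_six, one_zpow,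
      one_mul]
  rw [h1]
  have h6 : (k % 6).toNat < 6 := by omega
  unfold om2
  have hv := om_val
  have hs := om_sq
  have hc := om_cube
  interval_cases (k % 6).toNat
  · simp [evC]
  · simp only [evC, pow_one]; rw [hv]; push_cast; ring
  · simp only [evC]; rw [hs, hv]; push_cast; ring
  · simp only [evC]; rw [hc]; push_cast; ring
  · simp only [evC]; rw [show om ^ 4 = om ^ 3 * om by ring, hc, hv]; push_cast; ring
  · simp only [evC]; rw [show om ^ 5 = om ^ 3 * om ^ 2 by ring, hc, hs, hv]; push_cast; ring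

/-- density of the first family in the moving frame -/
theorem eD1_eq (h : ‖(A : ℂ)‖ + 3 / 2 * ‖B‖ < 1) (l : ℤ) (θ : ℝ) :
    (starRingEnd ℂ) (eD ((PI c A B).F1 (b0I A B) (z0I A B)) (PI c A B).ph1 l θ) =
      ee ((l : ℝ) * (θ - Real.pi / 3)) * den l ((PI c A B).w (θ - Real.pi / 3)) (om ^ l) (ζ1 A B (θ - Real.pi / 3))
        (β1 A B (θ - Real.pi / 3)) := by
  have hF : (PI c A B).F1 (b0I A B) (z0I A B) θ = ((PI c A B).w (θ - Real.pi / 3) : ℂ) * (ee (θ - Real.pi / 3) *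
      (om * (1 + ζ1 A B (θ - Real.pi / 3) + β1 A B (θ - Real.pi / 3)))) := by
    rw [← g1_eq]
    show (_ : ℂ) * (_ * _) + (_ : ℂ) * (_ * _) = _
    unfold g1
    ring
  have hz := nz1 A B h (θ - Real.pi / 3)
  rw [← den_pt l ((PI c A B).w (θ - Real.pi / 3)) om (ζ1 A B (θ - Real.pi / 3)) (β1 A B (θ - Real.pi / 3)) om_norm hz
    (θ - Real.pi / 3) (om + z0I A B (θ - Real.pi / 3)).arg ?_]
  · unfold eD
    rw [hF]
    rfl
  · rw [e1_eq, ee_arg (mul_ne_zero ?_ (one_add_ne hz)), norm_mul, om_norm, one_mul, mul_div_assoc]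
    intro h0
    have := om_norm
    rw [h0] at this
    simp at this

/-- density of the second family in the moving frame -/
theorem eD2_eq (h : ‖(A : ℂ)‖ + 3 / 2 * ‖B‖ < 1) (l : ℤ) (θ : ℝ) :
    (starRingEnd ℂ) (eD ((PI c A B).F2 (b0I A B) (z0I A B)) (PI c A B).ph2 l θ) =
      ee ((l : ℝ) * (θ - 2 * Real.pi / 3)) * den l ((PI c A B).w (θ - 2 * Real.pi / 3)) ((om ^ 2) ^ l)
        (ζ2 A B (θ - 2 * Real.pi / 3)) (β2 A B (θ - 2 * Real.pi / 3)) := by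
  have hF : (PI c A B).F2 (b0I A B) (z0I A B) θ = ((PI c A B).w (θ - 2 * Real.pi / 3) : ℂ) * (ee (θ - 2 * Real.pi / 3) *
      (om ^ 2 * (1 + ζ2 A B (θ - 2 * Real.pi / 3) + β2 A B (θ - 2 * Real.pi / 3)))) := by
    rw [← g2_eq]
    show (_ : ℂ) * (_ * _) - (_ : ℂ) * (_ * _) = _
    unfold g2
    ring
  have hz := nz2 A B h (θ - 2 * Real.pi / 3)
  have ho : ‖om ^ 2‖ = 1 := by rw [norm_pow, om_norm, one_pow]
  rw [← den_pt l ((PI c A B).w (θ - 2 * Real.pi / 3)) (om ^ 2) (ζ2 A B (θ - 2 * Real.pi / 3))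
    (β2 A B (θ - 2 * Real.pi / 3)) ho hz (θ - 2 * Real.pi / 3) (om ^ 2 - z0I A B (θ - 2 * Real.pi / 3)).arg ?_]
  · unfold eD
    rw [hF]
    rfl
  · rw [e2_eq, ee_arg (mul_ne_zero ?_ (one_add_ne hz)), norm_mul, ho, one_mul, mul_div_assoc]
    intro h0
    rw [h0] at ho
    simp at ho

end

end Pool.Agent.Helper35.Cas
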