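import Pool.Agent.Helper35.SH.EtA

/-!
# Project RC, SHARP, zone I: tables of the aligned moments of the base
-/

set_option autoImplicit false

namespace Pool.Agent.Helper35.Cas

def G4 (i : ℕ) : ℚ := [(191 / 10), (163 / 10), (219 / 25), (711 / 100), (699 / 10), (389 / 10)].getD i 0
/-- `DC conj e_4` -/
def E4 : Po :=
  [((0, 2, 2, 0), (599319736483840, 0)), ((3, 0, 0, 1), (1661722846822400, 0)), ((0, 2, 3, 1), (1329651410534400,
  0)), ((1, 3, 2, 0), (1569240121344000, 0)), ((3, 0, 1, 2), (-754894189363200, 0)), ((4, 1, 0, 1),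
  (-4525982849433600, 0))]
theorem c4F : ((Fl 4 (om2 4) be1 G4).all fun x => x.chk 0) = true := by decide +kernel
theorem c4G : ((Fl 4 (om2 (2 * 4)) be2 G4).all fun x => x.chk 0) = true := by decide +kernel
theorem c4D : (chkD DC (Fl 4 (om2 4) be1 G4) && chkD DC (Fl 4 (om2 (2 * 4)) be2 G4)) = true := by
  decide +kernel
theorem c4E : eqP (totI zp2 zc2 4 0 DC (Fl 4 (om2 (2 * 4)) be2 G4)
    (totI zp1 zc1 4 0 DC (Fl 4 (om2 4) be1 G4) [])) E4 = true := by decide +kernel

def G6 (i : ℕ) : ℚ := [194, 123, (699 / 10), (389 / 10), 354, 139].getD i 0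
/-- `DC conj e_6` -/
def E6 : Po :=
  [((2, 0, 0, 0), (41231686041600, 0)), ((2, 0, 1, 1), (7600910997913600, 0)), ((3, 1, 0, 0), (-5383097260441600,
  0)), ((0, 3, 3, 0), (13326068849049600, 0)), ((2, 0, 2, 2), (9273278988288000, 0)), ((3, 1, 1, 1),
  (9453209596723200, 0)), ((4, 2, 0, 0), (12451982606336000, 0))]
theorem c6F : ((Fl 6 (om2 6) be1 G6).all fun x => x.chk 0) = true := by decide +kernel
theorem c6G : ((Fl 6 (om2 (2 * 6)) be2 G6).all fun x => x.chk 0) = true := by decide +kernel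
theorem c6D : (chkD DC (Fl 6 (om2 6) be1 G6) && chkD DC (Fl 6 (om2 (2 * 6)) be2 G6)) = true := by
  decide +kernel
theorem c6E : eqP (totI zp2 zc2 6 0 DC (Fl 6 (om2 (2 * 6)) be2 G6)
    (totI zp1 zc1 6 0 DC (Fl 6 (om2 6) be1 G6) [])) E6 = true := by decide +kernel

end Pool.Agent.Helper35.Cas
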