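import Pool.Agent.Helper35.SH.EtA

/-!
# Project RC, SHARP, zone I: tables of the aligned moments of the base
-/

set_option autoImplicit false

namespace Pool.Agent.Helper35.Cas

def G8 (i : ℕ) : ℚ := [1220, 584, 354, 139, 1340, 384].getD i 0
/-- `DC conj e_8` -/
def E8 : Po :=
  [((1, 0, 1, 0), (4639080075755520, 0)), ((1, 0, 2, 1), (-27469945105285120, 0)), ((2, 1, 1, 0),
  (-11161374461788160, 0)), ((1, 0, 3, 2), (-5756282103398400, 0)), ((2, 1, 2, 1), (229451922942197760, 0)), ((3,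
  2, 1, 0), (-85981844188692480, 0))]
theorem c8F : ((Fl 8 (om2 8) be1 G8).all fun x => x.chk 0) = true := by decide +kernel
theorem c8G : ((Fl 8 (om2 (2 * 8)) be2 G8).all fun x => x.chk 0) = true := by decide +kernel
theorem c8D : (chkD DC (Fl 8 (om2 8) be1 G8) && chkD DC (Fl 8 (om2 (2 * 8)) be2 G8)) = true := by
  decide +kernel
theorem c8E : eqP (totI zp2 zc2 8 0 DC (Fl 8 (om2 (2 * 8)) be2 G8)
    (totI zp1 zc1 8 0 DC (Fl 8 (om2 8) be1 G8) [])) E8 = true := by decide +kernel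

def G10 (i : ℕ) : ℚ := [5620, 2090, 1340, 384, 4140, 910].getD i 0
/-- `DC conj e_10` -/
def E10 : Po :=
  [((0, 0, 2, 0), (-2724297755852800, 0)), ((0, 0, 3, 1), (12323941578178560, 0)), ((1, 1, 2, 0),
  (42344297319628800, 0)), ((0, 0, 4, 2), (18458868040335360, 0)), ((1, 1, 3, 1), (-496276362881925120, 0)), ((2,
  2, 2, 0), (-32706918183075840, 0)), ((5, 0, 0, 1), (1242474982932480, 0))]
theorem c10F : ((Fl 10 (om2 10) be1 G10).all fun x => x.chk 0) = true := by decide +kernel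
theorem c10G : ((Fl 10 (om2 (2 * 10)) be2 G10).all fun x => x.chk 0) = true := by decide +kernel
theorem c10D : (chkD DC (Fl 10 (om2 10) be1 G10) && chkD DC (Fl 10 (om2 (2 * 10)) be2 G10)) = true := by
  decide +kernel
theorem c10E : eqP (totI zp2 zc2 10 0 DC (Fl 10 (om2 (2 * 10)) be2 G10)
    (totI zp1 zc1 10 0 DC (Fl 10 (om2 10) be1 G10) [])) E10 = true := by decide +kernel

end Pool.Agent.Helper35.Cas
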