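import Pool.Agent.Helper35.SH.EtB
import Pool.Agent.Helper35.SH.EtC

/-!
# Project RC, SHARP, zone I: the aligned moments `e_0, e_2, .., e_10` of the base, exact through degree 7

`|conj e_l - evP A B E_l / DC| ≤ evE |A| |B| 0 X_l`: `E_l` integer polynomials (degree ≤ 6), `X_l` homogeneous of degree 8.
-/

set_option autoImplicit false

open MeasureTheory Set Filter Metric

namespace Pool.Agent.Helper35.Cas

open Helper49.LT hiding sg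
open Helper49.RC (om)
open Helper49.Sharp hiding mean
open Pool.Agent.Helper35.RC
open Pool.Agent.Helper20.RC (eM lk)
open Pool.Agent.Helper33.SH (PI ZC z0I b0I ζ1 ζ2 Z1_eq Z2_eq Z1 Z2 norm_ζ1 norm_ζ2 norm_z0I)

theorem parZ1 : parP 1 Z1 = true := by decide
theorem parZ2 : parP 1 Z2 = true := by decide

theorem nrm1 (A : ℝ) (B : ℂ) (t : ℝ) : ‖evP (uu A t) (vv B t) Z1 / 4‖ ≤ ‖(A : ℂ)‖ + 3 / 2 * ‖B‖ := by
  rw [zeta1_ev, norm_ζ1, Complex.norm_real, Real.norm_eq_abs]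
  exact norm_z0I A B t
theorem nrm2 (A : ℝ) (B : ℂ) (t : ℝ) : ‖evP (uu A t) (vv B t) Z2 / 4‖ ≤ ‖(A : ℂ)‖ + 3 / 2 * ‖B‖ := by
  rw [zeta2_ev, norm_ζ2, Complex.norm_real, Real.norm_eq_abs]
  exact norm_z0I A B t

theorem all_G {s : ℕ} {F : List It} (h : (F.all fun x => x.chk s) = true) : ∀ x ∈ F, 0 ≤ x.G := by
  intro y hy
  have : (y.chk s) = true := (List.all_eq_true.1 h) y hy
  unfold It.chk at this
  simp only [Bool.and_eq_true, decide_eq_true_eq, beq_iff_eq] at this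
  exact this.1.1.1.1.1.1.1.1.2

/-- two families -/
theorem two_fam (A : ℝ) (B : ℂ) (r : ℚ) (hr0 : 0 ≤ r) (hr4 : r ≤ 1 / 4) (h : ‖(A : ℂ)‖ + 3 / 2 * ‖B‖ ≤ r) (l : ℤ) (s : ℕ)
    (hs : l.natAbs % 2 = s) (D : ℤ) (hD0 : D ≠ 0) (F1 F2 : List It) (E : Po)
    (h1 : (F1.all fun x => x.chk s) = true) (h2 : (F2.all fun x => x.chk s) = true)
    (hD : (chkD D F1 && chkD D F2) = true)
    (hE : eqP (totI zp2 zc2 l s D F2 (totI zp1 zc1 l s D F1 [])) E = true) :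
    ‖mean (fun t => ee ((l : ℝ) * t) * lfV A B Z1 F1 t) + mean (fun t => ee ((l : ℝ) * t) * lfV A B Z2 F2 t)
      - evP A B E / D‖ ≤ evE ‖(A : ℂ)‖ ‖B‖ 0 (addE (totE r F1) (totE r F2)) := by
  rw [Bool.and_eq_true] at hD
  have m1 := lf_meanI A B Z1 zp1 zc1 pw1 pc1 parZ1 (nrm1 A B) r hr0 hr4 h l s hs D hD0 F1 [] hD.1 h1
  have m2 := lf_meanI A B Z2 zp2 zc2 pw2 pc2 parZ2 (nrm2 A B) r hr0 hr4 h l s hs D hD0 F2
    (totI zp1 zc1 l s D F1 []) hD.2 h2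
  rw [eqP_ok hE] at m2
  rw [evP_nil, sub_zero] at m1
  rw [evE_add (norm_nonneg _) (norm_nonneg _) 0 _ _ (totE_nonneg hr0 _ (all_G h1)) (totE_nonneg hr0 _ (all_G h2))]
  refine le_trans (le_of_eq ?_) ((norm_add_le _ _).trans (add_le_add m1 m2))
  congr 1
  have hD' : (D : ℂ) ≠ 0 := by exact_mod_cast hD0
  field_simp
  ring

/-- the error list of `e_l` -/
def XE (l : ℤ) (G : ℕ → ℚ) : List ℚ :=
  addE (totE 0 (Fl l (om2 l) be1 G)) (totE 0 (Fl l (om2 (2 * l)) be2 G))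

theorem totE_Fl (r : ℚ) (l : ℤ) (o : Co) (be : Po) (G : ℕ → ℚ) : totE r (Fl l o be G) = totE 0 (Fl l o be G) := by
  have e : ∀ (x : It), x.K = x.M → x.er r = x.er 0 := by
    intro x hx
    unfold It.er
    rw [hx, Nat.sub_self, pow_zero, pow_zero]
  unfold Fl
  rw [totE, totE, totE, totE, totE, totE, totE, e _ rfl, e _ rfl, e _ rfl, e _ rfl, e _ rfl, e _ rfl,
    totE, totE, totE, totE, totE, totE, totE]

theorem DC_ne : DC ≠ 0 := by decide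

/-- one row of the base -/
theorem el_main (c : ZC) (A : ℝ) (B : ℂ) (h : ‖(A : ℂ)‖ + 3 / 2 * ‖B‖ ≤ 1 / 4) (l : ℤ) (hs : l.natAbs % 2 = 0)
    (G : ℕ → ℚ) (E : Po)
    (h1 : ((Fl l (om2 l) be1 G).all fun x => x.chk 0) = true)
    (h2 : ((Fl l (om2 (2 * l)) be2 G).all fun x => x.chk 0) = true)
    (hD : (chkD DC (Fl l (om2 l) be1 G) && chkD DC (Fl l (om2 (2 * l)) be2 G)) = true)
    (hE : eqP (totI zp2 zc2 l 0 DC (Fl l (om2 (2 * l)) be2 G) (totI zp1 zc1 l 0 DC (Fl l (om2 l) be1 G) [])) E = true) :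
    ‖(starRingEnd ℂ) (eM ((PI c A B).F1 (b0I A B) (z0I A B)) ((PI c A B).F2 (b0I A B) (z0I A B)) (PI c A B).ph1
      (PI c A B).ph2 l) - evP A B E / DC‖ ≤ evE ‖(A : ℂ)‖ ‖B‖ 0 (XE l G) := by
  have hr : ‖(A : ℂ)‖ + 3 / 2 * ‖B‖ ≤ ((1 / 4 : ℚ) : ℝ) := by push_cast; exact h
  have h' := two_fam A B (1 / 4) (by norm_num) le_rfl hr l 0 hs DC DC_ne (Fl l (om2 l) be1 G)
    (Fl l (om2 (2 * l)) be2 G) E h1 h2 hD hE
  rw [totE_Fl, totE_Fl (1 / 4) l (om2 (2 * l))] at h'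
  rw [eM_eq c A B (h.trans_lt (by norm_num)) l G G]
  unfold XE
  exact h'

section

variable (c : ZC) (A : ℝ) (B : ℂ) (h : ‖(A : ℂ)‖ + 3 / 2 * ‖B‖ ≤ 1 / 4)

include h

theorem e0_ev : ‖(starRingEnd ℂ) (eM ((PI c A B).F1 (b0I A B) (z0I A B)) ((PI c A B).F2 (b0I A B) (z0I A B))
    (PI c A B).ph1 (PI c A B).ph2 0) - evP A B E0 / DC‖ ≤ evE ‖(A : ℂ)‖ ‖B‖ 0 (XE 0 G0) := by
  have := el_main c A B h 0 rfl G0 E0 c0F c0G c0D c0E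
  push_cast at this
  exact this

theorem eA_ev (k : ℕ) (G : ℕ → ℚ) (E : Po)
    (h1 : ((Fl (2 * k + 2) (om2 (2 * k + 2)) be1 G).all fun x => x.chk 0) = true)
    (h2 : ((Fl (2 * k + 2) (om2 (2 * (2 * k + 2))) be2 G).all fun x => x.chk 0) = true)
    (hD : (chkD DC (Fl (2 * k + 2) (om2 (2 * k + 2)) be1 G) && chkD DC (Fl (2 * k + 2) (om2 (2 * (2 * k + 2))) be2 G))
      = true)
    (hE : eqP (totI zp2 zc2 (2 * k + 2) 0 DC (Fl (2 * k + 2) (om2 (2 * (2 * k + 2))) be2 G)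
      (totI zp1 zc1 (2 * k + 2) 0 DC (Fl (2 * k + 2) (om2 (2 * k + 2)) be1 G) [])) E = true) :
    ‖(starRingEnd ℂ) ((PI c A B).eA (b0I A B) (z0I A B) k) - evP A B E / DC‖
      ≤ evE ‖(A : ℂ)‖ ‖B‖ 0 (XE (2 * k + 2) G) := by
  have h9 := el_main c A B h (2 * k + 2) (by omega) G E h1 h2 hD hE
  have : (((2 * (k : ℤ) + 2 : ℤ) : ℝ)) = lk k := by unfold lk; push_cast; ring
  rw [this] at h9
  exact h9

theorem e2_ev : ‖(starRingEnd ℂ) ((PI c A B).eA (b0I A B) (z0I A B) 0) - evP A B E2 / DC‖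
    ≤ evE ‖(A : ℂ)‖ ‖B‖ 0 (XE 2 G2) := eA_ev c A B h 0 G2 E2 c2F c2G c2D c2E
theorem e4_ev : ‖(starRingEnd ℂ) ((PI c A B).eA (b0I A B) (z0I A B) 1) - evP A B E4 / DC‖
    ≤ evE ‖(A : ℂ)‖ ‖B‖ 0 (XE 4 G4) := eA_ev c A B h 1 G4 E4 c4F c4G c4D c4E
theorem e6_ev : ‖(starRingEnd ℂ) ((PI c A B).eA (b0I A B) (z0I A B) 2) - evP A B E6 / DC‖
    ≤ evE ‖(A : ℂ)‖ ‖B‖ 0 (XE 6 G6) := eA_ev c A B h 2 G6 E6 c6F c6G c6D c6E
theorem e8_ev : ‖(starRingEnd ℂ) ((PI c A B).eA (b0I A B) (z0I A B) 3) - evP A B E8 / DC‖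
    ≤ evE ‖(A : ℂ)‖ ‖B‖ 0 (XE 8 G8) := eA_ev c A B h 3 G8 E8 c8F c8G c8D c8E
theorem e10_ev : ‖(starRingEnd ℂ) ((PI c A B).eA (b0I A B) (z0I A B) 4) - evP A B E10 / DC‖
    ≤ evE ‖(A : ℂ)‖ ‖B‖ 0 (XE 10 G10) := eA_ev c A B h 4 G10 E10 c10F c10G c10D c10E

end

end Pool.Agent.Helper35.Cas
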