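import Pool.Agent.Helper35.SH.R12
import Pool.Agent.Helper43.SH.GoodI

/-!
# Project RC, SHARP, zone I: the aligned moments of the harmonic `2` of `β`, one row
-/

set_option autoImplicit false

open MeasureTheory Set Filter Metric

namespace Pool.Agent.Helper35.H2R

open Helper49.LT hiding sg s3 ee_per
open Helper49.RC (om)
open Helper44.GQ
open Helper49.Sharp hiding mean ee_arg
open Pool.Agent.Helper35.RC
open Pool.Agent.Helper35.Cas
open Pool.Agent.Helper20.RC (eM eD lk)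
open Helper27.SH (P2 evR)
open Pool.Agent.Helper33.GM (evR_nil evR_cons evR_append mul1 evR_mul1 mulR evR_mulR powX evR_powX leR leR_ok)
open Pool.Agent.Helper33.SH (PI ZC z0I b0I Z1 Z2 ζ1 ζ2 norm_ζ1 norm_ζ2 norm_z0I om_val om_conj om_mul om_norm om_sq
  om_cube e1_eq e2_eq ee_arg)
open Pool.Agent.Helper33.ET (abN norm_evP_N)
open Pool.Agent.Helper43.SH (g1L g2L f1R f2R eR)
open Pool.Agent.Helper35.R12

/-- the field of the harmonics `± 2` -/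
noncomputable def H2 (p r : ℂ) (t : ℝ) : ℂ :=
  ((2 * (p * ee (2 * t)).re : ℝ) : ℂ) + Complex.I * ((2 * (r * ee (2 * t)).re : ℝ) : ℂ)

/-- the density of the rest -/
noncomputable def denR (l : ℤ) (o ζ β : ℂ) : ℂ :=
  o * ((1 + l) / 2 * β * Ph ((l - 1) / 2) ((1 - l) / 2) ζ
    + (1 - l) / 2 * (starRingEnd ℂ) β * Ph ((l + 1) / 2) ((-l - 1) / 2) ζ)

theorem den_ptR (l : ℤ) (o ζ β : ℂ) (ho : ‖o‖ = 1) (hζ : ‖ζ‖ < 1) (t a : ℝ)
    (ha : ee a = o * ((1 + ζ) / (‖1 + ζ‖ : ℂ))) :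
    (starRingEnd ℂ) (((((ee t * (o * β))) * ee (-(t + a))).re
      - Complex.I * ((l : ℝ) : ℂ) * ((((ee t * (o * β))) * ee (-(t + a))).im : ℂ))
        * ee (-((l : ℝ) * (t + a)))) =
      ee ((l : ℝ) * t) * denR l (o ^ l) ζ β := by
  have h1 := den_pt l 1 o ζ β ho hζ t a ha
  have h0 := den_pt l 1 o ζ 0 ho hζ t a ha
  have e : (ee t * (o * β)) * ee (-(t + a)) =
      (((1 : ℝ) : ℂ) * (ee t * (o * (1 + ζ + β)))) * ee (-(t + a))
        - (((1 : ℝ) : ℂ) * (ee t * (o * (1 + ζ + 0)))) * ee (-(t + a)) := by push_cast; ring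
  have e2 : ee ((l : ℝ) * t) * denR l (o ^ l) ζ β =
      ee ((l : ℝ) * t) * den l (((1 : ℝ) : ℂ)) (o ^ l) ζ β - ee ((l : ℝ) * t) * den l (((1 : ℝ) : ℂ)) (o ^ l) ζ 0 := by
    unfold denR den
    rw [map_zero]
    push_cast
    ring
  rw [e2, ← h1, ← h0, ← map_sub, e, Complex.sub_re, Complex.sub_im]
  congr 1
  push_cast
  ring

/-- the terms of one family -/
def HL (l : ℤ) (a b : Co) (D K : ℕ) (G : ℕ → ℚ) : List It :=
  [⟨[((0, 0, 0, 0), a)], D, l - 1, 1 - l, K, 0, G 0⟩, ⟨[((0, 0, 0, 0), b)], D, l + 1, -l - 1, K, 0, G 1⟩]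

theorem lfV_HL (A B : ℂ) (Z : Po) (l : ℤ) (a b : Co) (D K : ℕ) (G : ℕ → ℚ) (t : ℝ) :
    lfV A B Z (HL l a b D K G) t = evC a / D * Ph ((l - 1) / 2) ((1 - l) / 2) (evP (uu A t) (vv B t) Z / 4)
      + evC b / D * Ph ((l + 1) / 2) ((-l - 1) / 2) (evP (uu A t) (vv B t) Z / 4) := by
  unfold lfV HL It.v
  simp only [List.map_cons, List.map_nil, List.sum_cons, List.sum_nil, evP_cons, evP_nil, evM, pow_zero, mul_one,
    add_zero]
  push_cast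
  ring

def HP (j l : ℤ) (K : ℕ) (G : ℕ → ℚ) : List It :=
  HL l (mulC (1 + l, 0) (om2 (j * (l - 2)))) (mulC (1 - l, 0) (om2 (j * (l + 2)))) 4 K G
def HR1 (l : ℤ) (K : ℕ) (G : ℕ → ℚ) : List It :=
  HL l (mulC (mulC (1 + l, 0) (om2 (l - 1))) (-1, 4)) (mulC (mulC (1 - l, 0) (om2 (l + 1))) (1, 4)) 16 K G
def HR2 (l : ℤ) (K : ℕ) (G : ℕ → ℚ) : List It :=
  HL l (mulC (mulC (1 + l, 0) (om2 (2 * (l - 1)))) (1, 4)) (mulC (mulC (1 - l, 0) (om2 (2 * (l + 1)))) (-1, 4)) 16 K G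

theorem H2_re (p r : ℂ) (t : ℝ) : ((H2 p r t).re : ℂ) = p * ee (2 * t) + (starRingEnd ℂ) p * ee (-2 * t) := by
  have h : (H2 p r t).re = 2 * (p * ee (2 * t)).re := by
    unfold H2
    rw [Complex.add_re, Complex.ofReal_re, Complex.I_mul_re, Complex.ofReal_im]
    ring
  rw [h, ← Complex.add_conj, map_mul, conj_ee]
  congr 3
  ring

theorem H2_im (p r : ℂ) (t : ℝ) : ((H2 p r t).im : ℂ) = r * ee (2 * t) + (starRingEnd ℂ) r * ee (-2 * t) := by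
  have h : (H2 p r t).im = 2 * (r * ee (2 * t)).re := by
    unfold H2
    rw [Complex.add_im, Complex.ofReal_im, Complex.I_mul_im, Complex.ofReal_re]
    ring
  rw [h, ← Complex.add_conj, map_mul, conj_ee]
  congr 3
  ring

theorem s3_val : s3 = Complex.I * (Real.sqrt 3 : ℂ) := by
  unfold s3
  rfl

/-- both factors of the family `j` -/
theorem om_pow_conj (n : ℕ) : (starRingEnd ℂ) (om ^ n) = om ^ (-(n : ℤ)) := by
  have h : (starRingEnd ℂ) (om ^ n) * om ^ n = 1 := by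
    rw [mul_comm, Complex.mul_conj, Complex.normSq_eq_norm_sq, norm_pow, om_norm]; norm_num
  rw [zpow_neg, zpow_natCast]
  exact eq_inv_of_mul_eq_one_left h

theorem om_ne : om ≠ 0 := fun h => by have := om_norm; rw [h] at this; simp at this

/-- the density of the family, expanded -/
theorem dens_exp (l : ℤ) (O cp cr ζ p r : ℂ) (t : ℝ) (VP VR β : ℂ)
    (hVP : VP = O * ((1 + l) / 2 * cp * Ph ((l - 1) / 2) ((1 - l) / 2) ζ
      + (1 - l) / 2 * (starRingEnd ℂ) cp * Ph ((l + 1) / 2) ((-l - 1) / 2) ζ))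
    (hVR : VR = O * ((1 + l) / 2 * cr * Ph ((l - 1) / 2) ((1 - l) / 2) ζ
      + (1 - l) / 2 * (starRingEnd ℂ) cr * Ph ((l + 1) / 2) ((-l - 1) / 2) ζ))
    (hβ : β = cp * (p * ee (2 * t) + (starRingEnd ℂ) p * ee (-2 * t))
      + cr * (r * ee (2 * t) + (starRingEnd ℂ) r * ee (-2 * t))) :
    ee ((l : ℝ) * t) * denR l O ζ β = p * (ee (((l + 2 : ℤ) : ℝ) * t) * VP)
      + (starRingEnd ℂ) p * (ee (((l - 2 : ℤ) : ℝ) * t) * VP)
      + r * (ee (((l + 2 : ℤ) : ℝ) * t) * VR) + (starRingEnd ℂ) r * (ee (((l - 2 : ℤ) : ℝ) * t) * VR) := by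
  have e1 : ee (((l + 2 : ℤ) : ℝ) * t) = ee ((l : ℝ) * t) * ee (2 * t) := by
    rw [← ee_add]; congr 1; push_cast; ring
  have e2 : ee (((l - 2 : ℤ) : ℝ) * t) = ee ((l : ℝ) * t) * ee (-2 * t) := by
    rw [← ee_add]; congr 1; push_cast; ring
  have c1 : (starRingEnd ℂ) (ee (2 * t)) = ee (-2 * t) := by rw [conj_ee]; congr 1; ring
  have c2 : (starRingEnd ℂ) (ee (-2 * t)) = ee (2 * t) := by rw [conj_ee]; congr 1; ring
  unfold denR
  rw [e1, e2, hVP, hVR, hβ]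
  simp only [map_add, map_mul, c1, c2, Complex.conj_conj]
  ring

theorem wr1 : (starRingEnd ℂ) om * ((Real.sqrt 3 : ℂ) + Complex.I / 4) =
    -Complex.I * (om ^ (-1 : ℤ) * (evC (-1, 4) / 4)) := by
  have := om_pow_conj 1
  rw [pow_one] at this
  rw [this]
  simp only [evC, s3_val]
  push_cast
  linear_combination (om ^ (-1 : ℤ) * (Real.sqrt 3 : ℂ)) * Complex.I_mul_I

theorem wr2 : (starRingEnd ℂ) (om ^ 2) * ((Real.sqrt 3 : ℂ) - Complex.I / 4) =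
    -Complex.I * (om ^ (-2 : ℤ) * (evC (1, 4) / 4)) := by
  rw [om_pow_conj 2]
  simp only [evC, s3_val]
  push_cast
  linear_combination (om ^ (-2 : ℤ) * (Real.sqrt 3 : ℂ)) * Complex.I_mul_I

theorem conj_zp (n : ℤ) : (starRingEnd ℂ) (om ^ n) = om ^ (-n) := by
  rw [map_zpow₀, zpow_neg, ← inv_zpow]
  congr 1
  have := om_pow_conj 1
  rw [pow_one] at this
  rw [this]
  simp

theorem lfP (A B : ℂ) (Z : Po) (j l : ℤ) (K : ℕ) (G : ℕ → ℚ) (t : ℝ) :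
    lfV A B Z (HP j l K G) t = om ^ (j * l) * ((1 + l) / 2 * om ^ (-(2 * j)) *
        Ph ((l - 1) / 2) ((1 - l) / 2) (evP (uu A t) (vv B t) Z / 4)
      + (1 - l) / 2 * (starRingEnd ℂ) (om ^ (-(2 * j))) *
        Ph ((l + 1) / 2) ((-l - 1) / 2) (evP (uu A t) (vv B t) Z / 4)) := by
  unfold HP
  rw [lfV_HL, evC_mul, evC_mul, evC_int, evC_int, conj_zp]
  have e1 : evC (om2 (j * (l - 2))) = 2 * (om ^ (j * l) * om ^ (-(2 * j))) := by
    rw [← zpow_add₀ om_ne, show j * l + -(2 * j) = j * (l - 2) by ring, ← om2_eq]; ring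
  have e2 : evC (om2 (j * (l + 2))) = 2 * (om ^ (j * l) * om ^ (-(-(2 * j)))) := by
    rw [← zpow_add₀ om_ne, show j * l + -(-(2 * j)) = j * (l + 2) by ring, ← om2_eq]; ring
  rw [e1, e2]
  push_cast
  ring

theorem lfR1 (A B : ℂ) (Z : Po) (l : ℤ) (K : ℕ) (G : ℕ → ℚ) (t : ℝ) :
    -Complex.I * lfV A B Z (HR1 l K G) t = om ^ l * ((1 + l) / 2 *
        ((starRingEnd ℂ) om * ((Real.sqrt 3 : ℂ) + Complex.I / 4)) *
        Ph ((l - 1) / 2) ((1 - l) / 2) (evP (uu A t) (vv B t) Z / 4)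
      + (1 - l) / 2 * (starRingEnd ℂ) ((starRingEnd ℂ) om * ((Real.sqrt 3 : ℂ) + Complex.I / 4)) *
        Ph ((l + 1) / 2) ((-l - 1) / 2) (evP (uu A t) (vv B t) Z / 4)) := by
  unfold HR1
  have hI : (starRingEnd ℂ) (-Complex.I * (om ^ (-1 : ℤ) * (evC (-1, 4) / 4))) =
      -Complex.I * (om ^ (1 : ℤ) * (evC (1, 4) / 4)) := by
    have h4 : (starRingEnd ℂ) (4 : ℂ) = 4 := Complex.conj_ofReal 4
    have h3 : (starRingEnd ℂ) (evC (-1, 4)) = -evC (1, 4) := by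
      simp only [evC, s3_val, map_add, map_mul, Complex.conj_I, Complex.conj_ofReal]
      push_cast
      rw [map_neg, map_one, h4]
      ring
    rw [map_mul, map_neg, Complex.conj_I, map_mul, conj_zp, map_div₀, h3, h4]
    ring_nf
  rw [lfV_HL, evC_mul, evC_mul, evC_mul, evC_mul, evC_int, evC_int, wr1, hI]
  have e1 : evC (om2 (l - 1)) = 2 * (om ^ l * om ^ (-1 : ℤ)) := by
    rw [← zpow_add₀ om_ne, show l + -1 = l - 1 by ring, ← om2_eq]; ring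
  have e2 : evC (om2 (l + 1)) = 2 * (om ^ l * om ^ (1 : ℤ)) := by
    rw [← zpow_add₀ om_ne, ← om2_eq]; ring
  rw [e1, e2]
  push_cast
  ring

theorem lfR2 (A B : ℂ) (Z : Po) (l : ℤ) (K : ℕ) (G : ℕ → ℚ) (t : ℝ) :
    -Complex.I * lfV A B Z (HR2 l K G) t = om ^ (2 * l) * ((1 + l) / 2 *
        ((starRingEnd ℂ) (om ^ 2) * ((Real.sqrt 3 : ℂ) - Complex.I / 4)) *
        Ph ((l - 1) / 2) ((1 - l) / 2) (evP (uu A t) (vv B t) Z / 4)
      + (1 - l) / 2 * (starRingEnd ℂ) ((starRingEnd ℂ) (om ^ 2) * ((Real.sqrt 3 : ℂ) - Complex.I / 4)) *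
        Ph ((l + 1) / 2) ((-l - 1) / 2) (evP (uu A t) (vv B t) Z / 4)) := by
  unfold HR2
  have hI : (starRingEnd ℂ) (-Complex.I * (om ^ (-2 : ℤ) * (evC (1, 4) / 4))) =
      -Complex.I * (om ^ (2 : ℤ) * (evC (-1, 4) / 4)) := by
    have h4 : (starRingEnd ℂ) (4 : ℂ) = 4 := Complex.conj_ofReal 4
    have h3 : (starRingEnd ℂ) (evC (1, 4)) = -evC (-1, 4) := by
      simp only [evC, s3_val, map_add, map_mul, Complex.conj_I, Complex.conj_ofReal]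
      push_cast
      rw [map_one, h4]
      ring
    rw [map_mul, map_neg, Complex.conj_I, map_mul, conj_zp, map_div₀, h3, h4]
    ring_nf
  rw [lfV_HL, evC_mul, evC_mul, evC_mul, evC_mul, evC_int, evC_int, wr2, hI]
  have e1 : evC (om2 (2 * (l - 1))) = 2 * (om ^ (2 * l) * om ^ (-2 : ℤ)) := by
    rw [← zpow_add₀ om_ne, show 2 * l + -2 = 2 * (l - 1) by ring, ← om2_eq]; ring
  have e2 : evC (om2 (2 * (l + 1))) = 2 * (om ^ (2 * l) * om ^ (2 : ℤ)) := by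
    rw [← zpow_add₀ om_ne, show 2 * l + 2 = 2 * (l + 1) by ring, ← om2_eq]; ring
  rw [e1, e2]
  push_cast
  ring

/-! ### the two families -/

section

variable (c : ZC) (A : ℝ) (B : ℂ)

theorem Z1_per (t : ℝ) : ζ1 A B (t + 2 * Real.pi) = ζ1 A B t := by
  rw [← zeta1_ev, ← zeta1_ev, uu_per, vv_per]
theorem Z2_per (t : ℝ) : ζ2 A B (t + 2 * Real.pi) = ζ2 A B t := by
  rw [← zeta2_ev, ← zeta2_ev, uu_per, vv_per]

theorem eD1R (h : ‖(A : ℂ)‖ + 3 / 2 * ‖B‖ < 1) (l : ℤ) (b : ℝ → ℂ) (θ : ℝ) :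
    (starRingEnd ℂ) (eD (f1R b (fun _ => 0)) (PI c A B).ph1 l θ) =
      ee ((l : ℝ) * (θ - Real.pi / 3)) * denR l (om ^ l) (ζ1 A B (θ - Real.pi / 3))
        ((starRingEnd ℂ) om * g1L (b (θ - Real.pi / 3)) 0) := by
  have hoc : om * (starRingEnd ℂ) om = 1 := by
    rw [Complex.mul_conj, Complex.normSq_eq_norm_sq, om_norm]; norm_num
  have hF : f1R b (fun _ => 0) θ = ee (θ - Real.pi / 3) *
      (om * ((starRingEnd ℂ) om * g1L (b (θ - Real.pi / 3)) 0)) := by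
    unfold f1R
    rw [← mul_assoc om, hoc, one_mul]
  have hz := nz1 A B h (θ - Real.pi / 3)
  rw [← den_ptR l om (ζ1 A B (θ - Real.pi / 3)) _ om_norm hz
    (θ - Real.pi / 3) (om + z0I A B (θ - Real.pi / 3)).arg ?_]
  · unfold eD
    rw [hF]
    rfl
  · rw [e1_eq, ee_arg (mul_ne_zero ?_ (one_add_ne hz)), norm_mul, om_norm, one_mul, mul_div_assoc]
    exact om_ne

theorem eD2R (h : ‖(A : ℂ)‖ + 3 / 2 * ‖B‖ < 1) (l : ℤ) (b : ℝ → ℂ) (θ : ℝ) :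
    (starRingEnd ℂ) (eD (f2R b (fun _ => 0)) (PI c A B).ph2 l θ) =
      ee ((l : ℝ) * (θ - 2 * Real.pi / 3)) * denR l ((om ^ 2) ^ l) (ζ2 A B (θ - 2 * Real.pi / 3))
        ((starRingEnd ℂ) (om ^ 2) * g2L (b (θ - 2 * Real.pi / 3)) 0) := by
  have ho : ‖om ^ 2‖ = 1 := by rw [norm_pow, om_norm, one_pow]
  have hoc : om ^ 2 * (starRingEnd ℂ) (om ^ 2) = 1 := by
    rw [Complex.mul_conj, Complex.normSq_eq_norm_sq, ho]; norm_num
  have hF : f2R b (fun _ => 0) θ = ee (θ - 2 * Real.pi / 3) *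
      (om ^ 2 * ((starRingEnd ℂ) (om ^ 2) * g2L (b (θ - 2 * Real.pi / 3)) 0)) := by
    unfold f2R
    rw [← mul_assoc (om ^ 2), hoc, one_mul]
  have hz := nz2 A B h (θ - 2 * Real.pi / 3)
  rw [← den_ptR l (om ^ 2) (ζ2 A B (θ - 2 * Real.pi / 3)) _ ho hz
    (θ - 2 * Real.pi / 3) (om ^ 2 - z0I A B (θ - 2 * Real.pi / 3)).arg ?_]
  · unfold eD
    rw [hF]
    rfl
  · rw [e2_eq, ee_arg (mul_ne_zero ?_ (one_add_ne hz)), norm_mul, ho, one_mul, mul_div_assoc]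
    exact pow_ne_zero 2 om_ne

/-- the four means of one family -/
noncomputable def m4 (Z : Po) (FP FR : List It) (l : ℤ) (p r : ℂ) : ℂ :=
  p * mean (fun t => ee (((l + 2 : ℤ) : ℝ) * t) * lfV A B Z FP t)
  + (starRingEnd ℂ) p * mean (fun t => ee (((l - 2 : ℤ) : ℝ) * t) * lfV A B Z FP t)
  + (-Complex.I * r) * mean (fun t => ee (((l + 2 : ℤ) : ℝ) * t) * lfV A B Z FR t)
  + (-Complex.I * (starRingEnd ℂ) r) * mean (fun t => ee (((l - 2 : ℤ) : ℝ) * t) * lfV A B Z FR t)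

theorem m4_eq (Z : Po) (FP FR : List It) (l : ℤ) (p r : ℂ) (z1 : ∀ t, ‖evP (uu A t) (vv B t) Z / 4‖ < 1) :
    mean (fun t => p * (ee (((l + 2 : ℤ) : ℝ) * t) * lfV A B Z FP t)
      + (starRingEnd ℂ) p * (ee (((l - 2 : ℤ) : ℝ) * t) * lfV A B Z FP t)
      + r * (ee (((l + 2 : ℤ) : ℝ) * t) * (-Complex.I * lfV A B Z FR t))
      + (starRingEnd ℂ) r * (ee (((l - 2 : ℤ) : ℝ) * t) * (-Complex.I * lfV A B Z FR t))) =
    m4 A B Z FP FR l p r := by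
  have c0 : ∀ n : ℤ, Continuous fun t : ℝ => ee ((n : ℝ) * t) := fun n => continuous_ee.comp (by fun_prop)
  have kP := cont_lf (A : ℂ) B Z z1 FP
  have kR := cont_lf (A : ℂ) B Z z1 FR
  have k1 : Continuous fun t => ee (((l + 2 : ℤ) : ℝ) * t) * lfV A B Z FP t := (c0 _).mul kP
  have k2 : Continuous fun t => ee (((l - 2 : ℤ) : ℝ) * t) * lfV A B Z FP t := (c0 _).mul kP
  have k3 : Continuous fun t => ee (((l + 2 : ℤ) : ℝ) * t) * lfV A B Z FR t := (c0 _).mul kR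
  have k4 : Continuous fun t => ee (((l - 2 : ℤ) : ℝ) * t) * lfV A B Z FR t := (c0 _).mul kR
  have e : (fun t => p * (ee (((l + 2 : ℤ) : ℝ) * t) * lfV A B Z FP t)
      + (starRingEnd ℂ) p * (ee (((l - 2 : ℤ) : ℝ) * t) * lfV A B Z FP t)
      + r * (ee (((l + 2 : ℤ) : ℝ) * t) * (-Complex.I * lfV A B Z FR t))
      + (starRingEnd ℂ) r * (ee (((l - 2 : ℤ) : ℝ) * t) * (-Complex.I * lfV A B Z FR t))) =
      fun t => ((p * (ee (((l + 2 : ℤ) : ℝ) * t) * lfV A B Z FP t)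
      + (starRingEnd ℂ) p * (ee (((l - 2 : ℤ) : ℝ) * t) * lfV A B Z FP t))
      + (-Complex.I * r) * (ee (((l + 2 : ℤ) : ℝ) * t) * lfV A B Z FR t))
      + (-Complex.I * (starRingEnd ℂ) r) * (ee (((l - 2 : ℤ) : ℝ) * t) * lfV A B Z FR t) := by
    funext t; ring
  rw [e]
  have q1 : Continuous fun t => p * (ee (((l + 2 : ℤ) : ℝ) * t) * lfV A B Z FP t) := continuous_const.mul k1
  have q2 : Continuous fun t => (starRingEnd ℂ) p * (ee (((l - 2 : ℤ) : ℝ) * t) * lfV A B Z FP t) :=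
    continuous_const.mul k2
  have q3 : Continuous fun t => (-Complex.I * r) * (ee (((l + 2 : ℤ) : ℝ) * t) * lfV A B Z FR t) :=
    continuous_const.mul k3
  have q4 : Continuous fun t => (-Complex.I * (starRingEnd ℂ) r) * (ee (((l - 2 : ℤ) : ℝ) * t) * lfV A B Z FR t) :=
    continuous_const.mul k4
  have q12 : Continuous fun t => p * (ee (((l + 2 : ℤ) : ℝ) * t) * lfV A B Z FP t)
      + (starRingEnd ℂ) p * (ee (((l - 2 : ℤ) : ℝ) * t) * lfV A B Z FP t) := q1.add q2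
  have q123 : Continuous fun t => (p * (ee (((l + 2 : ℤ) : ℝ) * t) * lfV A B Z FP t)
      + (starRingEnd ℂ) p * (ee (((l - 2 : ℤ) : ℝ) * t) * lfV A B Z FP t))
      + (-Complex.I * r) * (ee (((l + 2 : ℤ) : ℝ) * t) * lfV A B Z FR t) := q12.add q3
  rw [mean_add q123 q4, mean_add q12 q3, mean_add q1 q2, mean_const_mul, mean_const_mul,
    mean_const_mul, mean_const_mul]
  rfl

/-- **the aligned moments of the harmonic `2`** -/
theorem eR_eq (h : ‖(A : ℂ)‖ + 3 / 2 * ‖B‖ < 1) (k K : ℕ) (G : ℕ → ℚ) (p r : ℂ) :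
    (starRingEnd ℂ) (eR (PI c A B) (H2 p r) (fun _ => 0) k) =
      m4 A B Z1 (HP 1 (2 * k + 2) K G) (HR1 (2 * k + 2) K G) (2 * k + 2) p r
      + m4 A B Z2 (HP 2 (2 * k + 2) K G) (HR2 (2 * k + 2) K G) (2 * k + 2) p r := by
  obtain ⟨l, hl⟩ : ∃ l : ℤ, l = 2 * (k : ℤ) + 2 := ⟨_, rfl⟩
  rw [← hl]
  have hlk : ((l : ℤ) : ℝ) = lk k := by rw [hl]; unfold lk; push_cast; ring
  have z1 : ∀ t, ‖evP (uu A t) (vv B t) Z1 / 4‖ < 1 := fun t => by rw [zeta1_ev]; exact nz1 A B h t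
  have z2 : ∀ t, ‖evP (uu A t) (vv B t) Z2 / 4‖ < 1 := fun t => by rw [zeta2_ev]; exact nz2 A B h t
  have c0 : ∀ n : ℤ, Continuous fun t : ℝ => ee ((n : ℝ) * t) := fun n => continuous_ee.comp (by fun_prop)
  set D1 : ℝ → ℂ := fun t => p * (ee (((l + 2 : ℤ) : ℝ) * t) * lfV A B Z1 (HP 1 l K G) t)
      + (starRingEnd ℂ) p * (ee (((l - 2 : ℤ) : ℝ) * t) * lfV A B Z1 (HP 1 l K G) t)
      + r * (ee (((l + 2 : ℤ) : ℝ) * t) * (-Complex.I * lfV A B Z1 (HR1 l K G) t))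
      + (starRingEnd ℂ) r * (ee (((l - 2 : ℤ) : ℝ) * t) * (-Complex.I * lfV A B Z1 (HR1 l K G) t)) with hD1
  set D2 : ℝ → ℂ := fun t => p * (ee (((l + 2 : ℤ) : ℝ) * t) * lfV A B Z2 (HP 2 l K G) t)
      + (starRingEnd ℂ) p * (ee (((l - 2 : ℤ) : ℝ) * t) * lfV A B Z2 (HP 2 l K G) t)
      + r * (ee (((l + 2 : ℤ) : ℝ) * t) * (-Complex.I * lfV A B Z2 (HR2 l K G) t))
      + (starRingEnd ℂ) r * (ee (((l - 2 : ℤ) : ℝ) * t) * (-Complex.I * lfV A B Z2 (HR2 l K G) t)) with hD2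
  have k1 : Continuous D1 := by
    have kP := cont_lf (A : ℂ) B Z1 z1 (HP 1 l K G)
    have kR := cont_lf (A : ℂ) B Z1 z1 (HR1 l K G)
    exact (((continuous_const.mul ((c0 _).mul kP)).add (continuous_const.mul ((c0 _).mul kP))).add
      (continuous_const.mul ((c0 _).mul (continuous_const.mul kR)))).add
      (continuous_const.mul ((c0 _).mul (continuous_const.mul kR)))
  have k2 : Continuous D2 := by
    have kP := cont_lf (A : ℂ) B Z2 z2 (HP 2 l K G)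
    have kR := cont_lf (A : ℂ) B Z2 z2 (HR2 l K G)
    exact (((continuous_const.mul ((c0 _).mul kP)).add (continuous_const.mul ((c0 _).mul kP))).add
      (continuous_const.mul ((c0 _).mul (continuous_const.mul kR)))).add
      (continuous_const.mul ((c0 _).mul (continuous_const.mul kR)))
  have p1 : ∀ t, D1 (t + 2 * Real.pi) = D1 t := fun t => by simp only [hD1]; rw [ee_per, ee_per, lfV_per, lfV_per]
  have p2 : ∀ t, D2 (t + 2 * Real.pi) = D2 t := fun t => by simp only [hD2]; rw [ee_per, ee_per, lfV_per, lfV_per]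
  have e1 : ∀ θ, (starRingEnd ℂ) (eD (f1R (H2 p r) (fun _ => 0)) (PI c A B).ph1 l θ) = D1 (θ - Real.pi / 3) := by
    intro θ
    rw [eD1R c A B h l (H2 p r) θ]
    simp only [hD1]
    obtain ⟨t, ht⟩ : ∃ t : ℝ, t = θ - Real.pi / 3 := ⟨_, rfl⟩
    rw [← ht]
    refine dens_exp l (om ^ l) ((starRingEnd ℂ) om * (starRingEnd ℂ) om)
      ((starRingEnd ℂ) om * ((Real.sqrt 3 : ℂ) + Complex.I / 4)) (ζ1 A B t) p r t _ _ _ ?_ ?_ ?_
    · rw [lfP, zeta1_ev, one_mul]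
      have : (starRingEnd ℂ) om * (starRingEnd ℂ) om = om ^ (-(2 * 1) : ℤ) := by
        rw [← pow_two, ← map_pow, om_pow_conj]; rfl
      rw [this]
    · rw [lfR1, zeta1_ev]
    · unfold g1L
      rw [H2_re, H2_im]
      ring
  have e2 : ∀ θ, (starRingEnd ℂ) (eD (f2R (H2 p r) (fun _ => 0)) (PI c A B).ph2 l θ) = D2 (θ - 2 * Real.pi / 3) := by
    intro θ
    rw [eD2R c A B h l (H2 p r) θ]
    simp only [hD2]
    obtain ⟨t, ht⟩ : ∃ t : ℝ, t = θ - 2 * Real.pi / 3 := ⟨_, rfl⟩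
    rw [← ht]
    have hO : (om ^ 2) ^ l = om ^ (2 * l) := by rw [← zpow_natCast, ← zpow_mul]; rfl
    rw [hO]
    refine dens_exp l (om ^ (2 * l)) ((starRingEnd ℂ) (om ^ 2) * (starRingEnd ℂ) om ^ 2)
      ((starRingEnd ℂ) (om ^ 2) * ((Real.sqrt 3 : ℂ) - Complex.I / 4)) (ζ2 A B t) p r t _ _ _ ?_ ?_ ?_
    · rw [lfP, zeta2_ev]
      have : (starRingEnd ℂ) (om ^ 2) * (starRingEnd ℂ) om ^ 2 = om ^ (-(2 * 2) : ℤ) := by
        rw [map_pow, ← pow_add, ← map_pow, om_pow_conj]; rfl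
      rw [this]
    · rw [lfR2, zeta2_ev]
    · unfold g2L
      rw [H2_re, H2_im]
      ring
  have e3 : (starRingEnd ℂ) (eR (PI c A B) (H2 p r) (fun _ => 0) k) =
      mean (fun θ => D1 (θ - Real.pi / 3) + D2 (θ - 2 * Real.pi / 3)) := by
    have : eR (PI c A B) (H2 p r) (fun _ => 0) k =
        mean (fun θ => eD (f1R (H2 p r) (fun _ => 0)) (PI c A B).ph1 l θ
          + eD (f2R (H2 p r) (fun _ => 0)) (PI c A B).ph2 l θ) := by
      rw [hlk]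
      rfl
    rw [this, mean_conj]
    congr 1
    funext θ
    rw [map_add, e1, e2]
  have k1' : Continuous fun θ => D1 (θ - Real.pi / 3) := k1.comp (by fun_prop)
  have k2' : Continuous fun θ => D2 (θ - 2 * Real.pi / 3) := k2.comp (by fun_prop)
  rw [e3, mean_add k1' k2', mean_sub p1, mean_sub p2, hD1, hD2, m4_eq A B Z1 _ _ l p r z1, m4_eq A B Z2 _ _ l p r z2]

end

/-! ### the bound of a row -/

/-- the bound of a mean of two families -/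
def bndH (n : ℤ) (Dc : ℕ) (F1 F2 : List It) : P2 :=
  mul1 0 0 (1 / Dc) (abN (totI zp2 zc2 n 0 Dc F2 (totI zp1 zc1 n 0 Dc F1 []))) ++ (tot12 F1 ++ tot12 F2)

theorem bnd2 {A : ℝ} {B : ℂ} (hA : 0 ≤ A) (h : A + 3 / 2 * ‖B‖ ≤ 1 / 12) (n : ℤ) (hn : n.natAbs % 2 = 0)
    (Dc : ℕ) (F1 F2 : List It) (hD : 0 < Dc) (h1 : F1.all chk12 = true) (h2 : F2.all chk12 = true)
    (h3 : chkD Dc F1 = true) (h4 : chkD Dc F2 = true) :
    ‖mean (fun t => ee ((n : ℝ) * t) * lfV A B Z1 F1 t) + mean (fun t => ee ((n : ℝ) * t) * lfV A B Z2 F2 t)‖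
      ≤ evR A ‖B‖ (bndH n Dc F1 F2) := by
  have hnA : ‖(A : ℂ)‖ = A := by rw [Complex.norm_real, Real.norm_of_nonneg hA]
  have hA' : ‖(A : ℂ)‖ + 3 / 2 * ‖B‖ ≤ 1 / 12 := by rw [hnA]; exact h
  have n1 : ∀ t, ‖evP (uu A t) (vv B t) Z1 / 4‖ ≤ ‖(A : ℂ)‖ + 3 / 2 * ‖B‖ := fun t => by
    rw [zeta1_ev, norm_ζ1, Complex.norm_real, Real.norm_eq_abs]
    exact norm_z0I A B t
  have n2 : ∀ t, ‖evP (uu A t) (vv B t) Z2 / 4‖ ≤ ‖(A : ℂ)‖ + 3 / 2 * ‖B‖ := fun t => by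
    rw [zeta2_ev, norm_ζ2, Complex.norm_real, Real.norm_eq_abs]
    exact norm_z0I A B t
  have hDc : ((Dc : ℕ) : ℤ) ≠ 0 := by exact_mod_cast hD.ne'
  have m1 := lf12 A B Z1 zp1 zc1 pw1 pc1 (by decide) n1 hA' n hn Dc hDc F1 [] h3 h1
  have m2 := lf12 A B Z2 zp2 zc2 pw2 pc2 (by decide) n2 hA' n hn Dc hDc F2 (totI zp1 zc1 n 0 Dc F1 []) h4 h2
  unfold bndH
  rw [evR_append, evR_append, evR_mul1]
  rw [evP_nil, sub_zero] at m1
  rw [hnA] at m1 m2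
  set W := totI zp2 zc2 n 0 Dc F2 (totI zp1 zc1 n 0 Dc F1 []) with hW
  set M1 := mean (fun t => ee ((n : ℝ) * t) * lfV A B Z1 F1 t)
  set M2 := mean (fun t => ee ((n : ℝ) * t) * lfV A B Z2 F2 t)
  set W1 := totI zp1 zc1 n 0 Dc F1 [] with hW1
  have hWn := norm_evP_N (A : ℂ) B W
  rw [hnA] at hWn
  have hDr : (0 : ℝ) < (Dc : ℝ) := by exact_mod_cast hD
  have e3 : M1 + M2 = evP A B W / ((Dc : ℕ) : ℤ) + ((M1 - evP A B W1 / ((Dc : ℕ) : ℤ))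
      + (M2 - (evP A B W - evP A B W1) / ((Dc : ℕ) : ℤ))) := by ring
  rw [e3]
  refine (norm_add_le _ _).trans (add_le_add ?_ ((norm_add_le _ _).trans (add_le_add m1 m2)))
  rw [norm_div]
  have hd : ‖((((Dc : ℕ) : ℤ)) : ℂ)‖ = (Dc : ℝ) := by
    rw [Int.cast_natCast, Complex.norm_natCast]
  rw [hd]
  push_cast
  rw [pow_zero, pow_zero, mul_one, mul_one, div_mul_eq_mul_div, one_mul]
  exact div_le_div_of_nonneg_right hWn hDr.le

/-- all checks of one row -/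
def chkH2 (l : ℤ) (K : ℕ) (Dc : ℕ) (G : ℕ → ℚ) (Ep Er : P2) : Bool :=
  (HP 1 l K G).all chk12 && (HP 2 l K G).all chk12 && (HR1 l K G).all chk12 && (HR2 l K G).all chk12
  && chkD Dc (HP 1 l K G) && chkD Dc (HP 2 l K G) && chkD Dc (HR1 l K G) && chkD Dc (HR2 l K G)
  && decide (0 < Dc) && decide ((l + 2).natAbs % 2 = 0) && decide ((l - 2).natAbs % 2 = 0)
  && leR Ep (bndH (l + 2) Dc (HP 1 l K G) (HP 2 l K G) ++ bndH (l - 2) Dc (HP 1 l K G) (HP 2 l K G))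
  && leR Er (bndH (l + 2) Dc (HR1 l K G) (HR2 l K G) ++ bndH (l - 2) Dc (HR1 l K G) (HR2 l K G))

/-- **one row of the harmonic `2`** -/
theorem h2row (c : ZC) {A : ℝ} {B : ℂ} (hA : 0 ≤ A) (h : A + 3 / 2 * ‖B‖ ≤ 1 / 12) (k K Dc : ℕ) (G : ℕ → ℚ)
    (Ep Er : P2) (hc : chkH2 (2 * k + 2) K Dc G Ep Er = true) (p r : ℂ) :
    ‖eR (PI c A B) (H2 p r) (fun _ => 0) k‖ ≤ evR A ‖B‖ Ep * ‖p‖ + evR A ‖B‖ Er * ‖r‖ := by
  unfold chkH2 at hc
  simp only [Bool.and_eq_true, decide_eq_true_eq] at hc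
  obtain ⟨⟨⟨⟨⟨⟨⟨⟨⟨⟨⟨⟨a1, a2⟩, a3⟩, a4⟩, d1⟩, d2⟩, d3⟩, d4⟩, hD⟩, hp⟩, hm⟩, l1⟩, l2⟩ := hc
  have hnA : ‖(A : ℂ)‖ = A := by rw [Complex.norm_real, Real.norm_of_nonneg hA]
  have hA1 : ‖(A : ℂ)‖ + 3 / 2 * ‖B‖ < 1 := by rw [hnA]; linarith
  have hB := norm_nonneg B
  rw [← Complex.norm_conj, eR_eq c A B hA1 k K G p r]
  obtain ⟨l, hl⟩ : ∃ l : ℤ, l = 2 * (k : ℤ) + 2 := ⟨_, rfl⟩
  rw [← hl] at a1 a2 a3 a4 d1 d2 d3 d4 hp hm l1 l2 ⊢
  have b1 := bnd2 hA h (l + 2) hp Dc _ _ hD a1 a2 d1 d2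
  have b2 := bnd2 hA h (l - 2) hm Dc _ _ hD a1 a2 d1 d2
  have b3 := bnd2 hA h (l + 2) hp Dc _ _ hD a3 a4 d3 d4
  have b4 := bnd2 hA h (l - 2) hm Dc _ _ hD a3 a4 d3 d4
  have hEp := leR_ok hA hB Ep _ l1
  have hEr := leR_ok hA hB Er _ l2
  rw [evR_append] at hEp hEr
  unfold m4
  set P1 := mean (fun t => ee (((l + 2 : ℤ) : ℝ) * t) * lfV A B Z1 (HP 1 l K G) t)
  set P1' := mean (fun t => ee (((l - 2 : ℤ) : ℝ) * t) * lfV A B Z1 (HP 1 l K G) t)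
  set P2' := mean (fun t => ee (((l + 2 : ℤ) : ℝ) * t) * lfV A B Z2 (HP 2 l K G) t)
  set P2'' := mean (fun t => ee (((l - 2 : ℤ) : ℝ) * t) * lfV A B Z2 (HP 2 l K G) t)
  set R1 := mean (fun t => ee (((l + 2 : ℤ) : ℝ) * t) * lfV A B Z1 (HR1 l K G) t)
  set R1' := mean (fun t => ee (((l - 2 : ℤ) : ℝ) * t) * lfV A B Z1 (HR1 l K G) t)
  set R2 := mean (fun t => ee (((l + 2 : ℤ) : ℝ) * t) * lfV A B Z2 (HR2 l K G) t)
  set R2' := mean (fun t => ee (((l - 2 : ℤ) : ℝ) * t) * lfV A B Z2 (HR2 l K G) t)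
  have e : p * P1 + (starRingEnd ℂ) p * P1' + (-Complex.I * r) * R1 + (-Complex.I * (starRingEnd ℂ) r) * R1'
      + (p * P2' + (starRingEnd ℂ) p * P2'' + (-Complex.I * r) * R2 + (-Complex.I * (starRingEnd ℂ) r) * R2') =
      (p * (P1 + P2') + (starRingEnd ℂ) p * (P1' + P2''))
        + ((-Complex.I * r) * (R1 + R2) + (-Complex.I * (starRingEnd ℂ) r) * (R1' + R2')) := by ring
  rw [e]
  refine (norm_add_le _ _).trans (add_le_add ?_ ?_)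
  · refine (norm_add_le _ _).trans ?_
    rw [norm_mul, norm_mul, Complex.norm_conj]
    have hq := norm_nonneg p
    nlinarith [mul_le_mul_of_nonneg_left b1 hq, mul_le_mul_of_nonneg_left b2 hq, mul_le_mul_of_nonneg_left hEp hq]
  · refine (norm_add_le _ _).trans ?_
    rw [norm_mul, norm_mul, norm_mul, norm_mul, norm_neg, Complex.norm_I, one_mul, Complex.norm_conj]
    have hq := norm_nonneg r
    nlinarith [mul_le_mul_of_nonneg_left b3 hq, mul_le_mul_of_nonneg_left b4 hq, mul_le_mul_of_nonneg_left hEr hq]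

end Pool.Agent.Helper35.H2R
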