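import Pool.Agent.Helper35.SH.Res2
import Pool.Agent.Helper35.SH.Pws
import Pool.Agent.Helper33.SH.Inst

/-!
# Project RC, SHARP, zone I: the functions of the base as polynomials, the densities of the aligned moments
-/

set_option autoImplicit false

open MeasureTheory Set Filter Metric

namespace Pool.Agent.Helper35.Cas

open Helper49.LT hiding sg
open Helper49.RC (om)
open Helper44.GQ
open Helper49.Sharp hiding mean
open Pool.Agent.Helper35.RC
open Pool.Agent.Helper20.RC (wR eM eD)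
open Pool.Agent.Helper43.SH
open Pool.Agent.Helper33.SH (PI ZC cI z0I b0I dI ζ1 ζ2 om_val om_conj om_mul om_norm om_sq om_cube e1_eq e2_eq Z1_eq Z2_eq)

/-! ### the lists -/

def one1 : Po := [((0, 0, 0, 0), (1, 0))]
def W2 : Po := [((1, 0, 0, 1), (-2, 0)), ((0, 1, 1, 0), (-2, 0))]
def WL : Po := ((0, 0, 0, 0), (1, 0)) :: W2
/-- `1000 b₂` -/
def B2L : Po := [((1, 1, 0, 0), (165, 0)), ((0, 0, 1, 1), (-225, 0)), ((1, 0, 0, 1), (-310, 0)),
  ((0, 1, 1, 0), (-310, 0)), ((0, 2, 0, 0), (-55, 0)), ((2, 0, 0, 0), (-55, 0)), ((0, 1, 0, 1), (285, 0)),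
  ((1, 0, 1, 0), (285, 0)), ((0, 0, 0, 2), (50, 0)), ((0, 0, 2, 0), (50, 0))]
/-- `1000 b₃ / i` -/
def YL : Po := [((1, 0, 0, 1), (-380, 0)), ((0, 1, 1, 0), (380, 0)), ((0, 2, 0, 0), (-280, 0)),
  ((2, 0, 0, 0), (280, 0)), ((0, 1, 0, 1), (510, 0)), ((1, 0, 1, 0), (-510, 0)), ((0, 0, 0, 2), (-45, 0)),
  ((0, 0, 2, 0), (45, 0))]
/-- `8000 β₁` -/
def be1 : Po := [((1, 0, 0, 1), (-2940, -660)), ((0, 1, 1, 0), (5420, 3140)), ((0, 2, 0, 0), (-2860, -1180)),
  ((2, 0, 0, 0), (3300, 1620)), ((0, 1, 0, 1), (4470, 1410)), ((1, 0, 1, 0), (-6750, -3690)),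
  ((0, 0, 0, 2), (-695, -425)), ((0, 0, 2, 0), (295, 25)), ((1, 1, 0, 0), (-660, -660)), ((0, 0, 1, 1), (900, 900))]
/-- `8000 β₂` -/
def be2 : Po := twP be1

theorem two_re (z : ℂ) : ((2 * z.re : ℝ) : ℂ) = z + (starRingEnd ℂ) z := by
  rw [Complex.add_conj]

theorem sq_norm_c (a : ℂ) : ((‖a‖ ^ 2 : ℝ) : ℂ) = a * (starRingEnd ℂ) a := by
  rw [Complex.mul_conj, Complex.normSq_eq_norm_sq]

variable (c : ZC) (A : ℝ) (B : ℂ)

theorem w_ev (t : ℝ) : ((PI c A B).w t : ℂ) = evP (uu A t) (vv B t) WL := by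
  show (wR (-2 * A * (starRingEnd ℂ) B) 0 0 t : ℂ) = _
  unfold wR
  rw [zero_mul, zero_mul, add_zero, add_zero, Complex.ofReal_add, two_re, map_mul, conj_ee]
  have e1 : ee (2 * t) = ee (-3 * t) * ee (-(-5 * t)) := by rw [← ee_add]; congr 1; ring
  have e2 : ee (-(2 * t)) = ee (-(-3 * t)) * ee (-5 * t) := by rw [← ee_add]; congr 1; ring
  have e3 : (starRingEnd ℂ) (2 : ℂ) = 2 := Complex.conj_ofReal 2
  rw [e1, e2]
  unfold WL W2 uu vv
  simp only [evP_cons, evP_nil, evC, evM, map_mul, map_neg, Complex.conj_ofReal, Complex.conj_conj, conj_ee, pow_zero,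
    pow_one, e3]
  push_cast
  ring

theorem b2_ev (t : ℝ) : ((b0I A B t).re : ℂ) = evP (uu A t) (vv B t) B2L / 1000 := by
  show ((bB cI A B t).re : ℂ) = _
  rw [bB_re]
  show (b2p cI ((A : ℂ) * ee (-3 * t)) (B * ee (-5 * t)) : ℂ) = _
  unfold b2p
  rw [Complex.ofReal_add, two_re, Complex.ofReal_add, Complex.ofReal_mul, Complex.ofReal_mul, sq_norm_c, sq_norm_c]
  unfold cI B2L uu vv
  simp only [map_add, map_mul, Complex.conj_ofReal, Complex.conj_conj, evP_cons, evP_nil, evC, evM, pow_zero, pow_one]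
  push_cast
  ring

theorem b3_ev (t : ℝ) : ((b0I A B t).im : ℂ) = Complex.I * (evP (uu A t) (vv B t) YL / 1000) := by
  show ((bB cI A B t).im : ℂ) = _
  rw [bB_im]
  show (b3p cI ((A : ℂ) * ee (-3 * t)) (B * ee (-5 * t)) : ℂ) = _
  unfold b3p
  rw [two_re]
  unfold cI YL uu vv
  simp only [map_add, map_mul, Complex.conj_ofReal, Complex.conj_conj, Complex.conj_I, evP_cons, evP_nil, evC, evM,
    pow_zero, pow_one]
  push_cast
  ring

/-- relative positions `1 + ζ_j + β_j` -/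
noncomputable def β1 (t : ℝ) : ℂ := evP (uu A t) (vv B t) be1 / 8000
noncomputable def β2 (t : ℝ) : ℂ := evP (uu A t) (vv B t) be2 / 8000

theorem be1_eq (u v : ℂ) : evP u v be1 = (-4 - 4 * s3) * evP u v B2L + (11 + 5 * s3) * evP u v YL := by
  unfold be1 B2L YL
  simp only [evP_cons, evP_nil, evC, evM]
  push_cast
  ring

theorem be2_eq (u v : ℂ) : evP u v be2 = (-4 + 4 * s3) * evP u v B2L + (11 - 5 * s3) * evP u v YL := by
  unfold be2 be1 twP B2L YL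
  simp only [twP, evP_cons, evP_nil, evC, evM]
  push_cast
  ring

theorem s3_I : s3 = Complex.I * ((Real.sqrt 3 : ℝ) : ℂ) := rfl

theorem g1_eq (t : ℝ) : g1 (b0I A B t) (z0I A B t) = om * (1 + ζ1 A B t + β1 A B t) := by
  have h : g1 (b0I A B t) (z0I A B t) = om + z0I A B t + ((b0I A B t).re : ℂ) * (1 / 2 - s3 / 2)
      + ((b0I A B t).im : ℂ) * (((Real.sqrt 3 : ℝ) : ℂ) + Complex.I / 4) := by
    apply Complex.ext
    · rw [Pool.Agent.Helper33.SH.g1_re, om_val, s3_I]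
      simp
      ring
    · rw [Pool.Agent.Helper33.SH.g1_im, om_val, s3_I]
      simp
      ring
  have hI : ((Real.sqrt 3 : ℝ) : ℂ) = -Complex.I * s3 := by
    rw [s3_I]; linear_combination ((Real.sqrt 3 : ℝ) : ℂ) * Complex.I_mul_I
  rw [h, b2_ev, b3_ev, hI]
  unfold β1 ζ1
  rw [be1_eq]
  have e1 := om_mul
  have e2 := om_val
  have e3 := s3_sq
  set P := evP (uu A t) (vv B t) B2L
  set Q := evP (uu A t) (vv B t) YL
  rw [show om * (1 + (starRingEnd ℂ) om * z0I A B t + ((-4 - 4 * s3) * P + (11 + 5 * s3) * Q) / 8000) =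
    om + (om * (starRingEnd ℂ) om) * z0I A B t + om * ((-4 - 4 * s3) * P + (11 + 5 * s3) * Q) / 8000 by ring, e1, e2]
  linear_combination (P / 4000 - Q * 5 / 16000) * e3 + (Q / 1000 * (-s3 + 1 / 4)) * Complex.I_mul_I

theorem g2_eq (t : ℝ) : g2 (b0I A B t) (z0I A B t) = om ^ 2 * (1 + ζ2 A B t + β2 A B t) := by
  have h : g2 (b0I A B t) (z0I A B t) = om ^ 2 - z0I A B t + ((b0I A B t).re : ℂ) * (-1 / 2 - s3 / 2)
      + ((b0I A B t).im : ℂ) * (((Real.sqrt 3 : ℝ) : ℂ) - Complex.I / 4) := by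
    apply Complex.ext
    · rw [Pool.Agent.Helper33.SH.g2_re, om_sq, om_val, s3_I]
      simp
      ring
    · rw [Pool.Agent.Helper33.SH.g2_im, om_sq, om_val, s3_I]
      simp
      ring
  have hI : ((Real.sqrt 3 : ℝ) : ℂ) = -Complex.I * s3 := by
    rw [s3_I]; linear_combination ((Real.sqrt 3 : ℝ) : ℂ) * Complex.I_mul_I
  rw [h, b2_ev, b3_ev, hI]
  unfold β2 ζ2
  rw [be2_eq]
  have e1 := om_cube
  have e2 := om_val
  have e3 := s3_sq
  have e4 := om_sq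
  set P := evP (uu A t) (vv B t) B2L
  set Q := evP (uu A t) (vv B t) YL
  rw [show om ^ 2 * (1 + om * z0I A B t + ((-4 + 4 * s3) * P + (11 - 5 * s3) * Q) / 8000) =
    om ^ 2 + om ^ 3 * z0I A B t + om ^ 2 * ((-4 + 4 * s3) * P + (11 - 5 * s3) * Q) / 8000 by ring, e1, e4, e2]
  linear_combination (-P / 4000 + Q * 5 / 16000) * e3 + (Q / 1000 * (-s3 - 1 / 4)) * Complex.I_mul_I

end Pool.Agent.Helper35.Cas
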