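import Pool.Agent.Helper35.RC.Cas
import Pool.Agent.Helper35.RC.Ph

/-!
# Project RC, SHARP: the moment theorem

`mean (ee (l t) P(t) Ph (p/2) (q/2) (ζ t))`, `4 ζ = Z(t)`, `P`, `Z` polynomials in `u, conj u, v, conj v`, is the value of
an explicit polynomial in `A, conj A, B, conj B` up to `G M X^K`, `‖P‖ ≤ M`, `‖ζ‖ ≤ X ≤ 2/5`. All lists are
computed by `decide +kernel`.
-/

set_option autoImplicit false

open MeasureTheory Set Filter Metric

namespace Pool.Agent.Helper35.Cas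

open Helper49.LT hiding sg
open Helper87.RC (BM pars pars2 fc_eq fc_add fc_cmul fc_conj)
open Helper56.RC (fc)
open Pool.Agent.Helper35.RC

/-- `4^m binom(p/2, m)` -/
def bi (p : ℤ) : ℕ → ℤ
  | 0 => 1
  | m + 1 => bi p m * (2 * p - 4 * m) / (m + 1)

/-- check of the first `K` values -/
def chkB (p : ℤ) (K : ℕ) : Bool :=
  (List.range K).all fun m => decide (((bi p m : ℤ) : ℚ) = 4 ^ m * cbQ ((p : ℚ) / 2) m)

theorem bi_ok {p : ℤ} {K : ℕ} (h : chkB p K = true) {m : ℕ} (hm : m < K) :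
    ((bi p m : ℤ) : ℂ) = 4 ^ m * ((cb ((p : ℝ) / 2) m : ℝ) : ℂ) := by
  unfold chkB at h
  rw [List.all_eq_true] at h
  have h1 := of_decide_eq_true (h m (List.mem_range.2 hm))
  have h2 : cb ((p : ℝ) / 2) m = ((cbQ ((p : ℚ) / 2) m : ℚ) : ℝ) := by
    rw [← cb_cast]; push_cast; rfl
  rw [h2]
  have h3 : ((bi p m : ℤ) : ℝ) = 4 ^ m * ((cbQ ((p : ℚ) / 2) m : ℚ) : ℝ) := by exact_mod_cast h1
  exact_mod_cast h3

/-- term of `TT` -/
def TkT (Z : Po) (p q : ℤ) (k i : ℕ) : Po :=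
  smP (bi p i * bi q (k - i), 0) (mulP (powP Z i) (powP (cjP Z) (k - i)))

/-- sum of the terms `i < n` -/
def TkS (Z : Po) (p q : ℤ) (k : ℕ) : ℕ → Po
  | 0 => []
  | n + 1 => addP (TkT Z p q k n) (TkS Z p q k n)

/-- `16^k TT_k` -/
def TkP (Z : Po) (p q : ℤ) (k : ℕ) : Po := TkS Z p q k (k + 1)

theorem evC_int (n : ℤ) : evC (n, 0) = (n : ℂ) := by simp [evC]

theorem evP_TkT (u v ζ : ℂ) (Z : Po) (hZ : evP u v Z = 4 * ζ) (p q : ℤ) (k i : ℕ) (hi : i ≤ k)
    (hp : chkB p (k + 1) = true) (hq : chkB q (k + 1) = true) :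
    evP u v (TkT Z p q k i) = 16 ^ k * (((cb ((p : ℝ) / 2) i * cb ((q : ℝ) / 2) (k - i) : ℝ) : ℂ)
      * (ζ ^ i * (starRingEnd ℂ) ζ ^ (k - i))) := by
  unfold TkT
  rw [evP_sm, evP_mul, evP_pow, evP_pow, evP_cj, hZ, evC_int]
  push_cast
  rw [bi_ok hp (by omega), bi_ok hq (by omega), map_mul]
  have e4 : (starRingEnd ℂ) 4 = 4 := by
    have := Complex.conj_ofReal 4
    push_cast at this
    exact this
  rw [e4, mul_pow, mul_pow]
  have e : (16 : ℂ) ^ k = 4 ^ i * 4 ^ (k - i) * (4 ^ i * 4 ^ (k - i)) := by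
    rw [← pow_add, Nat.add_sub_cancel' hi, ← mul_pow]
    norm_num
  rw [e]
  ring

theorem evP_TkS (u v ζ : ℂ) (Z : Po) (hZ : evP u v Z = 4 * ζ) (p q : ℤ) (k : ℕ)
    (hp : chkB p (k + 1) = true) (hq : chkB q (k + 1) = true) : ∀ n : ℕ, n ≤ k + 1 →
    evP u v (TkS Z p q k n) = 16 ^ k * ∑ i ∈ Finset.range n,
      (((cb ((p : ℝ) / 2) i * cb ((q : ℝ) / 2) (k - i) : ℝ) : ℂ) * (ζ ^ i * (starRingEnd ℂ) ζ ^ (k - i)))
  | 0, _ => by simp [TkS]
  | n + 1, h => by
    rw [TkS, evP_add, evP_TkT u v ζ Z hZ p q k n (by omega) hp hq,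
      evP_TkS u v ζ Z hZ p q k hp hq n (by omega), Finset.sum_range_succ]
    ring

theorem evP_TkP (u v ζ : ℂ) (Z : Po) (hZ : evP u v Z = 4 * ζ) (p q : ℤ) (k : ℕ)
    (hp : chkB p (k + 1) = true) (hq : chkB q (k + 1) = true) :
    evP u v (TkP Z p q k) = 16 ^ k * TT ((p : ℝ) / 2) ((q : ℝ) / 2) k ζ := by
  unfold TkP TT
  rw [evP_TkS u v ζ Z hZ p q k hp hq (k + 1) le_rfl, Finset.Nat.sum_antidiagonal_eq_sum_range_succ_mk]

theorem chkB_mono {p : ℤ} {K L : ℕ} (h : chkB p K = true) (hL : L ≤ K) : chkB p L = true := by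
  unfold chkB at h ⊢
  rw [List.all_eq_true] at h ⊢
  intro m hm
  exact h m (List.mem_range.2 ((List.mem_range.1 hm).trans_le hL))

/-- `16^K ∑_{k < n, k ≡ s} TT_k` -/
def sumS (Z : Po) (p q : ℤ) (s K : ℕ) : ℕ → Po
  | 0 => []
  | n + 1 => if n % 2 = s then addP (smP (16 ^ (K - n), 0) (TkP Z p q n)) (sumS Z p q s K n) else sumS Z p q s K n

theorem evP_sumS (u v ζ : ℂ) (Z : Po) (hZ : evP u v Z = 4 * ζ) (p q : ℤ) (s K : ℕ)
    (hp : chkB p K = true) (hq : chkB q K = true) : ∀ n : ℕ, n ≤ K →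
    evP u v (sumS Z p q s K n) = 16 ^ K * ∑ k ∈ (Finset.range n).filter (fun k => k % 2 = s),
      TT ((p : ℝ) / 2) ((q : ℝ) / 2) k ζ
  | 0, _ => by simp [sumS]
  | n + 1, h => by
    rw [sumS, Finset.range_add_one, Finset.filter_insert]
    split_ifs with hs
    · rw [evP_add, evP_sm, evP_TkP u v ζ Z hZ p q n (chkB_mono hp h) (chkB_mono hq h),
        evP_sumS u v ζ Z hZ p q s K hp hq n (by omega), Finset.sum_insert (by simp), evC_int]
      push_cast
      have e : (16 : ℂ) ^ K = 16 ^ (K - n) * 16 ^ n := by rw [← pow_add]; congr 1; omega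
      rw [mul_add, ← mul_assoc, ← e]
    · exact evP_sumS u v ζ Z hZ p q s K hp hq n (by omega)

/-- frequency of a monomial -/
def frq (m : Mo) : ℤ := 3 * (m.2.1 : ℤ) + 5 * (m.2.2.2 : ℤ) - 3 * (m.1 : ℤ) - 5 * (m.2.2.1 : ℤ)

/-- the part of the frequency `l` -/
def fl (l : ℤ) : Po → Po
  | [] => []
  | x :: p => if frq x.1 = l then x :: fl l p else fl l p

theorem mean_ee_evP (A B : ℂ) (l : ℤ) : ∀ p : Po,
    mean (fun t => ee ((l : ℝ) * t) * evP (uu A t) (vv B t) p) = evP A B (fl (-l) p)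
  | [] => by simp [fl, mean]
  | x :: p => by
    simp only [evP_cons, mul_add]
    have c0 : Continuous fun t : ℝ => ee ((l : ℝ) * t) := continuous_ee.comp (by fun_prop)
    have h1 := mean_add (F := fun t => ee ((l : ℝ) * t) * (evC x.2 * evM (uu A t) (vv B t) x.1))
      (G := fun t => ee ((l : ℝ) * t) * evP (uu A t) (vv B t) p)
      (c0.mul (continuous_const.mul (cont_evM A B x.1))) (c0.mul (cont_evP A B p))
    rw [h1, mean_ee_evP A B l p, fl]
    have h2 : mean (fun t => ee ((l : ℝ) * t) * (evC x.2 * evM (uu A t) (vv B t) x.1)) =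
        if frq x.1 = -l then evC x.2 * evM A B x.1 else 0 := by
      have e : (fun t => ee ((l : ℝ) * t) * (evC x.2 * evM (uu A t) (vv B t) x.1)) = fun t =>
          (evC x.2 * evM A B x.1) * ee (((l + frq x.1 : ℤ) : ℝ) * t) := by
        funext t
        rw [evM_uv]
        have e2 : ee (((l + frq x.1 : ℤ) : ℝ) * t) = ee ((l : ℝ) * t) * ee (((frq x.1 : ℤ) : ℝ) * t) := by
          rw [← ee_add]; congr 1; push_cast; ring
        rw [e2]
        unfold frq
        ring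
      rw [e, mean_const_mul]
      unfold mean
      rw [int_ee_z]
      by_cases h : frq x.1 = -l
      · rw [if_pos h, if_pos (by omega), mul_one]
      · rw [if_neg h, if_neg (by omega), mul_zero]
    rw [h2]
    split_ifs with h
    · rw [evP_cons]
    · ring

/-- all monomials have a degree of the parity `s` -/
def parP (s : ℕ) (p : Po) : Bool := p.all fun x => (dg x.1) % 2 == s

theorem evM_neg (u v : ℂ) (m : Mo) : evM (-u) (-v) m = (-1) ^ (dg m) * evM u v m := by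
  unfold evM dg
  rw [map_neg, map_neg, neg_pow u, neg_pow v, neg_pow ((starRingEnd ℂ) u), neg_pow ((starRingEnd ℂ) v)]
  rw [pow_add, pow_add, pow_add]
  ring

theorem evP_neg (u v : ℂ) (s : ℕ) : ∀ p : Po, parP s p = true → evP (-u) (-v) p = (-1) ^ s * evP u v p
  | [], _ => by simp
  | x :: p, h => by
    unfold parP at h
    rw [List.all_cons, Bool.and_eq_true, beq_iff_eq] at h
    rw [evP_cons, evP_cons, evP_neg u v s p h.2, evM_neg]
    have e : (-1 : ℂ) ^ (dg x.1) = (-1) ^ s := by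
      rw [← Nat.div_add_mod (dg x.1) 2, h.1, pow_add, pow_mul]
      norm_num
    rw [e]
    ring

theorem uu_pi (A : ℂ) (t : ℝ) : uu A (t + Real.pi) = -uu A t := by
  unfold uu
  have e : ee (-3 * (t + Real.pi)) = -ee (-3 * t) := by
    have h2 : -3 * (t + Real.pi) = -3 * t + Real.pi + ((-2 : ℤ) : ℝ) * (2 * Real.pi) := by push_cast; ring
    rw [h2]
    have h3 : ∀ x : ℝ, ee (x + ((-2 : ℤ) : ℝ) * (2 * Real.pi)) = ee x := by
      intro x
      unfold ee
      have : Complex.exp (((x + ((-2 : ℤ) : ℝ) * (2 * Real.pi) : ℝ) : ℂ) * Complex.I) =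
        Complex.exp ((x : ℂ) * Complex.I + ((-2 : ℤ) : ℂ) * (2 * Real.pi * Complex.I)) := by
        congr 1; push_cast; ring
      rw [this, Complex.exp_periodic.int_mul (-2)]
    rw [h3]
    unfold ee
    have : Complex.exp (((-3 * t + Real.pi : ℝ) : ℂ) * Complex.I) =
        Complex.exp (((-3 * t : ℝ) : ℂ) * Complex.I + Real.pi * Complex.I) := by
      congr 1; push_cast; ring
    rw [this, Complex.exp_add, Complex.exp_pi_mul_I]
    ring
  rw [e]
  ring

theorem vv_pi (B : ℂ) (t : ℝ) : vv B (t + Real.pi) = -vv B t := by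
  unfold vv
  have e : ee (-5 * (t + Real.pi)) = -ee (-5 * t) := by
    have h2 : -5 * (t + Real.pi) = -5 * t + Real.pi + ((-3 : ℤ) : ℝ) * (2 * Real.pi) := by push_cast; ring
    rw [h2]
    have h3 : ∀ x : ℝ, ee (x + ((-3 : ℤ) : ℝ) * (2 * Real.pi)) = ee x := by
      intro x
      unfold ee
      have : Complex.exp (((x + ((-3 : ℤ) : ℝ) * (2 * Real.pi) : ℝ) : ℂ) * Complex.I) =
        Complex.exp ((x : ℂ) * Complex.I + ((-3 : ℤ) : ℂ) * (2 * Real.pi * Complex.I)) := by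
        congr 1; push_cast; ring
      rw [this, Complex.exp_periodic.int_mul (-3)]
    rw [h3]
    unfold ee
    have : Complex.exp (((-5 * t + Real.pi : ℝ) : ℂ) * Complex.I) =
        Complex.exp (((-5 * t : ℝ) : ℂ) * Complex.I + Real.pi * Complex.I) := by
      congr 1; push_cast; ring
    rw [this, Complex.exp_add, Complex.exp_pi_mul_I]
    ring
  rw [e]
  ring

theorem ee_pi (l : ℤ) (t : ℝ) : ee ((l : ℝ) * (t + Real.pi)) = (-1) ^ l.natAbs * ee ((l : ℝ) * t) := by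
  have h2 : (l : ℝ) * (t + Real.pi) = (l : ℝ) * t + (l : ℝ) * Real.pi := by ring
  rw [h2, ee_add, mul_comm]
  congr 1
  unfold ee
  have h3 : Complex.exp ((((l : ℝ) * Real.pi : ℝ) : ℂ) * Complex.I) = (-1 : ℂ) ^ l := by
    rw [← Complex.exp_pi_mul_I, ← Complex.exp_int_mul]
    congr 1
    push_cast
    ring
  rw [h3]
  rcases Int.natAbs_eq l with h | h
  · conv_lhs => rw [h]
    rw [zpow_natCast]
  · conv_lhs => rw [h]
    rw [zpow_neg, zpow_natCast, inv_eq_one_div, one_div, ← inv_pow]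
    norm_num

theorem cont_Ph (a b : ℝ) {ζ : ℝ → ℂ} (hc : Continuous ζ) (h : ∀ t, ‖ζ t‖ < 1) :
    Continuous fun t => Ph a b (ζ t) := by
  have hs : ∀ t, 1 + ζ t ∈ Complex.slitPlane := fun t => Complex.mem_slitPlane_of_norm_lt_one (h t)
  unfold Ph
  have h1 : ∀ c : ℝ, Continuous fun t => (1 + ζ t) ^ (c : ℂ) := by
    intro c
    rw [continuous_iff_continuousAt]
    intro t
    exact (continuous_const.add hc).continuousAt.cpow continuousAt_const (hs t)
  exact (h1 a).mul (Complex.continuous_conj.comp (h1 b))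

theorem ee_per (l : ℤ) (t : ℝ) : ee ((l : ℝ) * (t + 2 * Real.pi)) = ee ((l : ℝ) * t) := by
  have h2 : (l : ℝ) * (t + 2 * Real.pi) = (l : ℝ) * (t + Real.pi + Real.pi) := by ring
  rw [h2, ee_pi, ee_pi, ← mul_assoc, ← mul_pow]
  norm_num

theorem uu_per (A : ℂ) (t : ℝ) : uu A (t + 2 * Real.pi) = uu A t := by
  have h2 : t + 2 * Real.pi = t + Real.pi + Real.pi := by ring
  rw [h2, uu_pi, uu_pi, neg_neg]

theorem vv_per (B : ℂ) (t : ℝ) : vv B (t + 2 * Real.pi) = vv B t := by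
  have h2 : t + 2 * Real.pi = t + Real.pi + Real.pi := by ring
  rw [h2, vv_pi, vv_pi, neg_neg]

theorem mean_shift {F : ℝ → ℂ} (hp : ∀ t, F (t + 2 * Real.pi) = F t) :
    mean (fun t => F (t + Real.pi)) = mean F := by
  unfold mean
  congr 1
  rw [intervalIntegral.integral_comp_add_right (fun t => F t)]
  have hper : Function.Periodic F (2 * Real.pi) := hp
  have := hper.intervalIntegral_add_eq Real.pi 0
  rw [zero_add] at this
  rw [zero_add, show 2 * Real.pi + Real.pi = Real.pi + 2 * Real.pi by ring, this]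

theorem mean_norm {F : ℝ → ℂ} {C : ℝ} (h : ∀ t, ‖F t‖ ≤ C) : ‖mean F‖ ≤ C := by
  have hp := Real.pi_pos
  unfold mean
  rw [norm_mul]
  have h1 : ‖∫ t in (0 : ℝ)..(2 * Real.pi), F t‖ ≤ C * |2 * Real.pi - 0| :=
    intervalIntegral.norm_integral_le_of_norm_le_const fun t _ => h t
  have h2 : ‖(1 / (2 * Real.pi) : ℂ)‖ = 1 / (2 * Real.pi) := by
    rw [norm_div, norm_one, norm_mul, Complex.norm_real, Real.norm_eq_abs, abs_of_pos hp, Complex.norm_two]
  rw [h2]
  rw [sub_zero, abs_of_pos (by positivity)] at h1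
  calc 1 / (2 * Real.pi) * ‖∫ t in (0 : ℝ)..(2 * Real.pi), F t‖ ≤ 1 / (2 * Real.pi) * (C * (2 * Real.pi)) :=
        mul_le_mul_of_nonneg_left h1 (by positivity)
    _ = C := by field_simp

/-- the parts -/
noncomputable def pp (s : ℕ) (a b : ℝ) (ζ : ℂ) : ℂ := (Ph a b ζ + (-1) ^ s * Ph a b (-ζ)) / 2

theorem pp_rem (a b G : ℚ) (s K : ℕ) (hs : s < 2) (hK : K % 2 = s) (ha : |a| ≤ 11 / 2) (hb : |b| ≤ 11 / 2)
    (h : chkE a b G K = true) (ζ : ℂ) (hζ : ‖ζ‖ ≤ 2 / 5) :
    ‖pp s a b ζ - ∑ k ∈ (Finset.range K).filter (fun k => k % 2 = s), TT a b k ζ‖ ≤ (G : ℝ) * ‖ζ‖ ^ K := by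
  interval_cases s
  · have e : pp 0 (a : ℝ) b ζ = pe a b ζ := by unfold pp pe; rw [pow_zero, one_mul]
    have e2 : (Finset.range K).filter (fun k => k % 2 = 0) = (Finset.range K).filter Even := by
      ext k; simp only [Finset.mem_filter, Nat.even_iff]
    rw [e, e2]
    exact pe_rem a b G K (Nat.even_iff.2 hK) ha hb h ζ hζ
  · have e : pp 1 (a : ℝ) b ζ = po a b ζ := by unfold pp po; rw [pow_one]; ring
    have e2 : (Finset.range K).filter (fun k => k % 2 = 1) = (Finset.range K).filter Odd := by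
      ext k; simp only [Finset.mem_filter, Nat.odd_iff]
    rw [e, e2]
    exact po_rem a b G K (Nat.odd_iff.2 hK) ha hb h ζ hζ

/-- all finite checks of the moment theorem -/
def chkM (P Z : Po) (p q l : ℤ) (sP s K : ℕ) (G : ℚ) (ms : List Mo) (Q : Po) : Bool :=
  decide (s < 2) && (K % 2 == s) && ((sP + l.natAbs) % 2 == s) && parP sP P && parP 1 Z
  && decide (|(p : ℚ) / 2| ≤ 11 / 2) && decide (|(q : ℚ) / 2| ≤ 11 / 2)
  && chkE ((p : ℚ) / 2) ((q : ℚ) / 2) G K && chkB p K && chkB q K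
  && (dels ms (fl (-l) (mulP P (sumS Z p q s K K))) == [])
  && (tb ms (fl (-l) (mulP P (sumS Z p q s K K))) == Q)

/-- **THE MOMENT THEOREM** -/
theorem mom (A B : ℂ) (P Z : Po) (p q l : ℤ) (sP s K : ℕ) (G : ℚ) (ms : List Mo) (Q : Po) (M X : ℝ)
    (hc : chkM P Z p q l sP s K G ms Q = true)
    (hM : ∀ t, ‖evP (uu A t) (vv B t) P‖ ≤ M) (hX : ∀ t, ‖evP (uu A t) (vv B t) Z / 4‖ ≤ X) (hX1 : X ≤ 2 / 5) :
    ‖mean (fun t => ee ((l : ℝ) * t) * evP (uu A t) (vv B t) P
        * Ph ((p : ℝ) / 2) ((q : ℝ) / 2) (evP (uu A t) (vv B t) Z / 4)) - evP A B Q / 16 ^ K‖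
      ≤ G * M * X ^ K := by
  unfold chkM at hc
  simp only [Bool.and_eq_true, decide_eq_true_eq, beq_iff_eq] at hc
  obtain ⟨⟨⟨⟨⟨⟨⟨⟨⟨⟨⟨hs, hK⟩, hsl⟩, hP⟩, hZ⟩, hp⟩, hq⟩, hE⟩, hbp⟩, hbq⟩, hd⟩, ht⟩ := hc
  set ζ : ℝ → ℂ := fun t => evP (uu A t) (vv B t) Z / 4 with hζ
  have hζc : Continuous ζ := (cont_evP A B Z).div_const 4
  have hζ1 : ∀ t, ‖ζ t‖ < 1 := fun t => (hX t).trans_lt (by linarith)
  have hζp : ∀ t, ζ (t + Real.pi) = -ζ t := by
    intro t
    simp only [hζ]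
    rw [uu_pi, vv_pi, evP_neg _ _ 1 Z hZ]
    ring
  have c0 : Continuous fun t : ℝ => ee ((l : ℝ) * t) := continuous_ee.comp (by fun_prop)
  set a : ℝ := (p : ℝ) / 2 with ha
  set b : ℝ := (q : ℝ) / 2 with hb
  have ha' : (((p : ℚ) / 2 : ℚ) : ℝ) = a := by push_cast; rfl
  have hb' : (((q : ℚ) / 2 : ℚ) : ℝ) = b := by push_cast; rfl
  set F : ℝ → ℂ := fun t => ee ((l : ℝ) * t) * evP (uu A t) (vv B t) P * Ph a b (ζ t) with hF
  have hFc : Continuous F := (c0.mul (cont_evP A B P)).mul (cont_Ph a b hζc hζ1)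
  have hFp : ∀ t, F (t + 2 * Real.pi) = F t := by
    intro t
    simp only [hF, hζ]
    rw [ee_per, uu_per, vv_per]
  have hF2 : ∀ t, F (t + Real.pi) = (-1) ^ s * (ee ((l : ℝ) * t) * evP (uu A t) (vv B t) P * Ph a b (-ζ t)) := by
    intro t
    simp only [hF]
    rw [ee_pi, uu_pi, vv_pi, evP_neg _ _ sP P hP, hζp]
    have e : (-1 : ℂ) ^ s = (-1) ^ sP * (-1) ^ l.natAbs := by
      rw [← pow_add, ← Nat.div_add_mod (sP + l.natAbs) 2, hsl, pow_add, pow_mul]
      norm_num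
    rw [e]
    ring
  have hFc2 : Continuous fun t => F (t + Real.pi) := hFc.comp (by fun_prop)
  have hmean : mean F = mean (fun t => ee ((l : ℝ) * t) * evP (uu A t) (vv B t) P * pp s a b (ζ t)) := by
    have h1 : mean (fun t => F t + F (t + Real.pi)) = 2 * mean F := by
      rw [mean_add hFc hFc2, mean_shift hFp]; ring
    have h2 : (fun t => F t + F (t + Real.pi)) =
        fun t => 2 * (ee ((l : ℝ) * t) * evP (uu A t) (vv B t) P * pp s a b (ζ t)) := by
      funext t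
      rw [hF2]
      simp only [hF, pp]
      ring
    rw [h2, mean_const_mul] at h1
    exact (mul_left_cancel₀ two_ne_zero h1).symm
  -- the exact part
  have hex : mean (fun t => ee ((l : ℝ) * t) * evP (uu A t) (vv B t) P
      * ∑ k ∈ (Finset.range K).filter (fun k => k % 2 = s), TT a b k (ζ t)) = evP A B Q / 16 ^ K := by
    have h1 : (fun t => ee ((l : ℝ) * t) * evP (uu A t) (vv B t) P
        * ∑ k ∈ (Finset.range K).filter (fun k => k % 2 = s), TT a b k (ζ t)) =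
        fun t => (1 / 16 ^ K : ℂ) * (ee ((l : ℝ) * t) * evP (uu A t) (vv B t) (mulP P (sumS Z p q s K K))) := by
      funext t
      rw [evP_mul, evP_sumS (uu A t) (vv B t) (ζ t) Z (by simp only [hζ]; ring) p q s K hbp hbq K le_rfl]
      have h16 : (16 : ℂ) ^ K ≠ 0 := pow_ne_zero _ (by norm_num)
      rw [← ha, ← hb]
      field_simp
    rw [h1, mean_const_mul, mean_ee_evP, evP_tb A B ms _ hd, ht]
    ring
  have hTc : Continuous fun t => ∑ k ∈ (Finset.range K).filter (fun k => k % 2 = s), TT a b k (ζ t) := by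
    refine continuous_finsetSum _ fun k _ => ?_
    unfold TT
    refine continuous_finsetSum _ fun ij _ => ?_
    exact continuous_const.mul ((hζc.pow _).mul ((Complex.continuous_conj.comp hζc).pow _))
  have hpc : Continuous fun t => pp s a b (ζ t) := by
    unfold pp
    have hn : ∀ t, ‖(fun t => -ζ t) t‖ < 1 := fun t => by rw [norm_neg]; exact hζ1 t
    exact ((cont_Ph a b hζc hζ1).add (continuous_const.mul (cont_Ph a b hζc.neg hn))).div_const 2
  have hdiff : mean F - evP A B Q / 16 ^ K = mean (fun t => ee ((l : ℝ) * t) * evP (uu A t) (vv B t) P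
      * (pp s a b (ζ t) - ∑ k ∈ (Finset.range K).filter (fun k => k % 2 = s), TT a b k (ζ t))) := by
    rw [hmean, ← hex]
    have h1 := mean_add (F := fun t => ee ((l : ℝ) * t) * evP (uu A t) (vv B t) P
      * (pp s a b (ζ t) - ∑ k ∈ (Finset.range K).filter (fun k => k % 2 = s), TT a b k (ζ t)))
      (G := fun t => ee ((l : ℝ) * t) * evP (uu A t) (vv B t) P
      * ∑ k ∈ (Finset.range K).filter (fun k => k % 2 = s), TT a b k (ζ t))
      ((c0.mul (cont_evP A B P)).mul (hpc.sub hTc)) ((c0.mul (cont_evP A B P)).mul hTc)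
    have h2 : (fun t => ee ((l : ℝ) * t) * evP (uu A t) (vv B t) P
      * (pp s a b (ζ t) - ∑ k ∈ (Finset.range K).filter (fun k => k % 2 = s), TT a b k (ζ t))
      + ee ((l : ℝ) * t) * evP (uu A t) (vv B t) P
      * ∑ k ∈ (Finset.range K).filter (fun k => k % 2 = s), TT a b k (ζ t)) =
      fun t => ee ((l : ℝ) * t) * evP (uu A t) (vv B t) P * pp s a b (ζ t) := by
      funext t; ring
    rw [h2] at h1
    rw [h1]
    ring
  rw [hdiff]
  refine mean_norm fun t => ?_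
  rw [norm_mul, norm_mul, norm_ee, one_mul]
  have hr := pp_rem ((p : ℚ) / 2) ((q : ℚ) / 2) G s K hs hK hp hq hE (ζ t) ((hX t).trans hX1)
  rw [ha', hb'] at hr
  have hG : 0 ≤ (G : ℝ) * ‖ζ t‖ ^ K := (norm_nonneg _).trans hr
  have hM0 : 0 ≤ M := (norm_nonneg _).trans (hM t)
  have hX0 : 0 ≤ X := (norm_nonneg _).trans (hX t)
  calc ‖evP (uu A t) (vv B t) P‖ * ‖pp s a b (ζ t)
        - ∑ k ∈ (Finset.range K).filter (fun k => k % 2 = s), TT a b k (ζ t)‖
      ≤ M * ((G : ℝ) * ‖ζ t‖ ^ K) := mul_le_mul (hM t) hr (norm_nonneg _) hM0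
    _ ≤ G * M * X ^ K := by
        by_cases hζ0 : ‖ζ t‖ ^ K = 0
        · rw [hζ0, mul_zero, mul_zero]
          have hG0 : 0 ≤ (G : ℝ) := by
            -- the constant is nonnegative: evaluate the remainder at a nonzero point
            have hr2 := pp_rem ((p : ℚ) / 2) ((q : ℚ) / 2) G s K hs hK hp hq hE (2 / 5 : ℂ) (by
              rw [norm_div]; norm_num)
            have h3 : 0 ≤ (G : ℝ) * ‖(2 / 5 : ℂ)‖ ^ K := (norm_nonneg _).trans hr2
            have h4 : 0 < ‖(2 / 5 : ℂ)‖ ^ K := by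
              have : (0 : ℝ) < ‖(2 / 5 : ℂ)‖ := by rw [norm_div]; norm_num
              positivity
            exact nonneg_of_mul_nonneg_left h3 h4
          positivity
        · have hpos : 0 < ‖ζ t‖ ^ K := lt_of_le_of_ne (by positivity) (Ne.symm hζ0)
          have hG0 : 0 ≤ (G : ℝ) := nonneg_of_mul_nonneg_left hG hpos
          have hle : ‖ζ t‖ ^ K ≤ X ^ K := pow_le_pow_left₀ (norm_nonneg _) (hX t) K
          have := mul_le_mul_of_nonneg_left hle (mul_nonneg hM0 hG0)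
          calc M * ((G : ℝ) * ‖ζ t‖ ^ K) = M * G * ‖ζ t‖ ^ K := by ring
            _ ≤ M * G * X ^ K := this
            _ = G * M * X ^ K := by ring

end Pool.Agent.Helper35.Cas
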