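import Pool.Agent.Helper35.SH.TM

/-!
# Project RC, SHARP: mean values of sums of `P(t) (1+ζ)^(p/2) conj((1+ζ)^(q/2))`, fast version

Only the resonant monomials are computed. For a list of terms `(P, D, p, q, K, G)`, `P` homogeneous of degree `8 - K`,
the mean value of `ee (l t) ∑ P/D Ph (p/2) (q/2) ζ` is the value of a rational table up to an error polynomial of degree
`8` in `|A|`, `|B|`. Zone: `|ζ| ≤ |A| + (3/2)|B| ≤ 1/4`.
-/

set_option autoImplicit false

open MeasureTheory Set Filter Metric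

namespace Pool.Agent.Helper35.Cas

open Helper49.LT hiding sg
open Helper56.RC (fc)
open Pool.Agent.Helper35.RC

/-! ### constants on `‖ζ‖ ≤ 1/4` -/

/-- check of the constant -/
def chkE4 (a b G : ℚ) (K : ℕ) : Bool :=
  decide (0 ≤ serQ b (1 / 4) (1 / 3) 24) && decide (0 ≤ serQ a (1 / 4) (1 / 3) 24) && decide (
  (serQ a (1 / 4) (1 / 3) 24 * serQ b (1 / 4) (1 / 3) 24
    - ∑ k ∈ Qs K, ggQ a b k * (1 / 4) ^ k) ≤ G * (1 / 4) ^ K)

theorem ser_ok4 (a : ℚ) (ha : |a| ≤ 8) :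
    ∑' m : ℕ, |cb (a : ℝ) m| * (1 / 4 : ℝ) ^ m ≤ ((serQ a (1 / 4) (1 / 3) 24 : ℚ) : ℝ) := by
  have e25 : ((1 / 4 : ℚ) : ℝ) = 1 / 4 := by norm_num
  have ha1 : (a : ℝ) ≤ 8 := by
    have : a ≤ 8 := (abs_le.1 ha).2
    have h := (Rat.cast_le (K := ℝ)).2 this
    push_cast at h; exact h
  have ha2 : -(8) ≤ (a : ℝ) := by
    have : -(8) ≤ a := (abs_le.1 ha).1
    have h := (Rat.cast_le (K := ℝ)).2 this
    push_cast at h; linarith
  have sa := ser_le a (1 / 4) (1 / 3) 24 (by norm_num) (by norm_num) (by norm_num) (by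
    intro m hm
    have hm' : (24 : ℝ) ≤ m := by exact_mod_cast hm
    rw [abs_of_nonpos (by linarith)]
    push_cast
    linarith)
  rw [e25] at sa
  exact sa

theorem const_ok4 (a b G : ℚ) (K : ℕ) (ha : |a| ≤ 8) (hb : |b| ≤ 8) (h : chkE4 a b G K = true) :
    ∃ S : ℝ, (∑' m : ℕ, |cb (a : ℝ) m| * (1 / 4 : ℝ) ^ m) * (∑' m : ℕ, |cb (b : ℝ) m| * (1 / 4 : ℝ) ^ m) ≤ S ∧
      (S - ∑ k ∈ Qs K, gg a b k * (1 / 4 : ℝ) ^ k) / (1 / 4 : ℝ) ^ K ≤ G := by
  unfold chkE4 at h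
  rw [Bool.and_eq_true, Bool.and_eq_true, decide_eq_true_eq, decide_eq_true_eq, decide_eq_true_eq] at h
  obtain ⟨⟨h0, h00⟩, h⟩ := h
  have sa := ser_ok4 a ha
  have sb := ser_ok4 b hb
  refine ⟨((serQ a (1 / 4) (1 / 3) 24 * serQ b (1 / 4) (1 / 3) 24 : ℚ) : ℝ), ?_, ?_⟩
  · push_cast at sa sb ⊢
    have hx : 0 ≤ ∑' m : ℕ, |cb (b : ℝ) m| * (1 / 4 : ℝ) ^ m := tsum_nonneg fun m => by positivity
    have hy : 0 ≤ ∑' m : ℕ, |cb (a : ℝ) m| * (1 / 4 : ℝ) ^ m := tsum_nonneg fun m => by positivity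
    exact mul_le_mul sa sb hx (hy.trans sa)
  · rw [div_le_iff₀ (by positivity)]
    have h' : ((serQ a (1 / 4) (1 / 3) 24 * serQ b (1 / 4) (1 / 3) 24
      - ∑ k ∈ Qs K, ggQ a b k * (1 / 4) ^ k : ℚ) : ℝ) ≤ ((G * (1 / 4) ^ K : ℚ) : ℝ) := by exact_mod_cast h
    refine le_trans (le_of_eq ?_) (h'.trans (le_of_eq ?_))
    · rw [Rat.cast_sub]
      congr 1
      rw [Rat.cast_sum]
      refine Finset.sum_congr rfl fun k _ => ?_
      rw [gg_cast]
      push_cast
      ring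
    · push_cast
      ring

theorem pp_hasSum (a b : ℝ) (s : ℕ) (hs : s < 2) (ζ : ℂ) (h : ‖ζ‖ < 1) :
    HasSum (fun k => if k % 2 = s then TT a b k ζ else 0) (pp s a b ζ) := by
  interval_cases s
  · have e : pp 0 a b ζ = pe a b ζ := by unfold pp pe; rw [pow_zero, one_mul]
    rw [e]
    have h9 := pe_hasSum a b ζ h
    simp only [Nat.even_iff] at h9
    exact h9
  · have e : pp 1 a b ζ = po a b ζ := by unfold pp po; rw [pow_one]; ring
    rw [e]
    have h9 := po_hasSum a b ζ h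
    simp only [Nat.odd_iff] at h9
    exact h9

/-- the remainder on `‖ζ‖ ≤ 1/4` -/
theorem pp_rem4 (a b G : ℚ) (s K : ℕ) (hs : s < 2) (hK : K % 2 = s) (ha : |a| ≤ 8) (hb : |b| ≤ 8)
    (h : chkE4 a b G K = true) (ζ : ℂ) (hζ : ‖ζ‖ ≤ 1 / 4) :
    ‖pp s a b ζ - ∑ k ∈ (Finset.range K).filter (fun k => k % 2 = s), TT a b k ζ‖ ≤ (G : ℝ) * ‖ζ‖ ^ K := by
  obtain ⟨S, hS, hG⟩ := const_ok4 a b G K ha hb h
  refine (sel_rem a b (1 / 4) S (by norm_num) (by norm_num) hS (fun k => k % 2 = s) K (Qs K) ?_ ζ hζ _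
    (pp_hasSum a b s hs ζ (by linarith))).trans (mul_le_mul_of_nonneg_right hG (by positivity))
  intro k hk hk8
  unfold Qs
  simp only [Finset.mem_union, Finset.mem_range, Finset.mem_insert, Finset.mem_singleton]
  omega

/-! ### resonant products -/

theorem frq_mul (a b : Mo) : frq (mulM a b) = frq a + frq b := by
  unfold frq mulM
  push_cast
  ring

theorem fl_cons (t : ℤ) (x : Mo × Co) (p : Po) : fl t (x :: p) = if frq x.1 = t then x :: fl t p else fl t p := rfl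

/-- innermost loop -/
def prY (t : ℤ) (mx : Mo) (cx : Co) : Po → Po → Po
  | [], acc => acc
  | y :: Y, acc => prY t mx cx Y (if frq y.1 = t then ins (mulM mx y.1) (mulC cx y.2) acc else acc)

theorem evP_prY (A B : ℂ) (t : ℤ) (mx : Mo) (cx : Co) : ∀ Y acc : Po,
    evP A B (prY t mx cx Y acc) = evP A B acc + evC cx * evM A B mx * evP A B (fl t Y)
  | [], acc => by simp [prY, fl]
  | y :: Y, acc => by
    rw [prY, evP_prY A B t mx cx Y, fl_cons]
    split_ifs with h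
    · rw [evP_ins, evC_mul, evM_mul, evP_cons]; ring
    · ring

/-- loop over `X` -/
def prX (l : ℤ) (m : Mo) (c : Co) : Po → Po → Po → Po
  | [], _, acc => acc
  | x :: X, Y, acc => prX l m c X Y (prY (-l - frq m - frq x.1) (mulM m x.1) (mulC c x.2) Y acc)

/-- loop over `P` -/
def prP (l : ℤ) : Po → Po → Po → Po → Po
  | [], _, _, acc => acc
  | p :: P, X, Y, acc => prP l P X Y (prX l p.1 p.2 X Y acc)

theorem mean_m (A B : ℂ) (l : ℤ) (c : ℂ) (m : Mo) (Y : Po) :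
    mean (fun t => ee ((l : ℝ) * t) * (c * evM (uu A t) (vv B t) m * evP (uu A t) (vv B t) Y)) =
      c * evM A B m * evP A B (fl (-l - frq m) Y) := by
  have e : (fun t => ee ((l : ℝ) * t) * (c * evM (uu A t) (vv B t) m * evP (uu A t) (vv B t) Y)) = fun t =>
      c * evM A B m * (ee (((l + frq m : ℤ) : ℝ) * t) * evP (uu A t) (vv B t) Y) := by
    funext t
    rw [evM_uv]
    have e2 : ee (((l + frq m : ℤ) : ℝ) * t) = ee ((l : ℝ) * t) * ee (((frq m : ℤ) : ℝ) * t) := by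
      rw [← ee_add]; congr 1; push_cast; ring
    rw [e2]
    unfold frq
    ring
  rw [e, mean_const_mul, mean_ee_evP, show -(l + frq m) = -l - frq m by ring]

theorem mean_prX (A B : ℂ) (l : ℤ) (m : Mo) (c : Co) : ∀ X Y acc : Po,
    evP A B (prX l m c X Y acc) = evP A B acc + mean (fun t => ee ((l : ℝ) * t) * (evC c * evM (uu A t) (vv B t) m
      * evP (uu A t) (vv B t) X * evP (uu A t) (vv B t) Y))
  | [], Y, acc => by simp [prX, mean]
  | x :: X, Y, acc => by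
    have c0 : Continuous fun t : ℝ => ee ((l : ℝ) * t) := continuous_ee.comp (by fun_prop)
    rw [prX, mean_prX A B l m c X Y, evP_prY]
    have h1 := mean_add (F := fun t => ee ((l : ℝ) * t) * (evC (mulC c x.2) * evM (uu A t) (vv B t) (mulM m x.1)
        * evP (uu A t) (vv B t) Y))
      (G := fun t => ee ((l : ℝ) * t) * (evC c * evM (uu A t) (vv B t) m
        * evP (uu A t) (vv B t) X * evP (uu A t) (vv B t) Y))
      (c0.mul ((continuous_const.mul (cont_evM A B _)).mul (cont_evP A B Y)))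
      (c0.mul (((continuous_const.mul (cont_evM A B m)).mul (cont_evP A B X)).mul (cont_evP A B Y)))
    rw [mean_m, frq_mul, show -l - (frq m + frq x.1) = -l - frq m - frq x.1 by ring] at h1
    have e : (fun t => ee ((l : ℝ) * t) * (evC c * evM (uu A t) (vv B t) m
        * evP (uu A t) (vv B t) (x :: X) * evP (uu A t) (vv B t) Y)) = fun t =>
        ee ((l : ℝ) * t) * (evC (mulC c x.2) * evM (uu A t) (vv B t) (mulM m x.1) * evP (uu A t) (vv B t) Y)
        + ee ((l : ℝ) * t) * (evC c * evM (uu A t) (vv B t) m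
        * evP (uu A t) (vv B t) X * evP (uu A t) (vv B t) Y) := by
      funext t
      rw [evP_cons, evC_mul, evM_mul]
      ring
    rw [e, h1]
    ring

theorem mean_prP (A B : ℂ) (l : ℤ) : ∀ P X Y acc : Po,
    evP A B (prP l P X Y acc) = evP A B acc + mean (fun t => ee ((l : ℝ) * t) * (evP (uu A t) (vv B t) P
      * evP (uu A t) (vv B t) X * evP (uu A t) (vv B t) Y))
  | [], X, Y, acc => by simp [prP, mean]
  | p :: P, X, Y, acc => by
    have c0 : Continuous fun t : ℝ => ee ((l : ℝ) * t) := continuous_ee.comp (by fun_prop)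
    rw [prP, mean_prP A B l P X Y, mean_prX]
    have h1 := mean_add (F := fun t => ee ((l : ℝ) * t) * (evC p.2 * evM (uu A t) (vv B t) p.1
        * evP (uu A t) (vv B t) X * evP (uu A t) (vv B t) Y))
      (G := fun t => ee ((l : ℝ) * t) * (evP (uu A t) (vv B t) P
        * evP (uu A t) (vv B t) X * evP (uu A t) (vv B t) Y))
      (c0.mul (((continuous_const.mul (cont_evM A B _)).mul (cont_evP A B X)).mul (cont_evP A B Y)))
      (c0.mul (((cont_evP A B P).mul (cont_evP A B X)).mul (cont_evP A B Y)))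
    have e : (fun t => ee ((l : ℝ) * t) * (evP (uu A t) (vv B t) (p :: P)
        * evP (uu A t) (vv B t) X * evP (uu A t) (vv B t) Y)) = fun t =>
        ee ((l : ℝ) * t) * (evC p.2 * evM (uu A t) (vv B t) p.1
        * evP (uu A t) (vv B t) X * evP (uu A t) (vv B t) Y)
        + ee ((l : ℝ) * t) * (evP (uu A t) (vv B t) P
        * evP (uu A t) (vv B t) X * evP (uu A t) (vv B t) Y) := by
      funext t
      rw [evP_cons]
      ring
    rw [e, h1]
    ring

/-! ### resonant part of `P ∑ TT_k` -/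

/-- powers of `Z` -/
def Pw (Z : Po) (zp : List Po) : Prop := ∀ i < 12, zp.getD i [] = powP Z i

/-- check -/
def chkPw (Z : Po) (zp : List Po) : Bool := (List.range 12).all fun i => decide (zp.getD i [] = powP Z i)

theorem pw_of {Z : Po} {zp : List Po} (h : chkPw Z zp = true) : Pw Z zp := by
  unfold chkPw at h
  rw [List.all_eq_true] at h
  intro i hi
  exact of_decide_eq_true (h i (List.mem_range.2 hi))

/-- sum over `i < n` -/
def resI (zp zc : List Po) (P : Po) (p q l : ℤ) (K k : ℕ) : ℕ → Po → Po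
  | 0, acc => acc
  | i + 1, acc => resI zp zc P p q l K k i
      (prP l (smP (16 ^ (K - k) * (bi p i * bi q (k - i)), 0) P) (zp.getD i []) (zc.getD (k - i) []) acc)

/-- sum over `k < n` -/
def resK (zp zc : List Po) (P : Po) (p q l : ℤ) (s K : ℕ) : ℕ → Po → Po
  | 0, acc => acc
  | n + 1, acc => resK zp zc P p q l s K n (if n % 2 = s then resI zp zc P p q l K n (n + 1) acc else acc)

theorem cont_zeta (A B : ℂ) (Z : Po) : Continuous fun t => evP (uu A t) (vv B t) Z / 4 := (cont_evP A B Z).div_const 4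

theorem evP_resI (A B : ℂ) (Z : Po) (zp zc : List Po) (hz : Pw Z zp) (hzc : Pw (cjP Z) zc) (P : Po) (p q l : ℤ)
    (K k : ℕ) (hkK : k ≤ K) (hk : k < 12) (hp : chkB p (k + 1) = true) (hq : chkB q (k + 1) = true) :
    ∀ (n : ℕ) (acc : Po), n ≤ k + 1 →
    evP A B (resI zp zc P p q l K k n acc) = evP A B acc + 16 ^ K * mean (fun t => ee ((l : ℝ) * t)
      * (evP (uu A t) (vv B t) P * ∑ i ∈ Finset.range n, (((cb ((p : ℝ) / 2) i * cb ((q : ℝ) / 2) (k - i) : ℝ) : ℂ)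
        * ((evP (uu A t) (vv B t) Z / 4) ^ i * (starRingEnd ℂ) (evP (uu A t) (vv B t) Z / 4) ^ (k - i)))))
  | 0, acc, _ => by simp [resI, mean]
  | i + 1, acc, h => by
    have c0 : Continuous fun t : ℝ => ee ((l : ℝ) * t) := continuous_ee.comp (by fun_prop)
    have cz := cont_zeta A B Z
    have czc : Continuous fun t => (starRingEnd ℂ) (evP (uu A t) (vv B t) Z / 4) := Complex.continuous_conj.comp cz
    rw [resI, evP_resI A B Z zp zc hz hzc P p q l K k hkK hk hp hq i _ (by omega), mean_prP]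
    have h1 := mean_add (F := fun t => ee ((l : ℝ) * t) * (evP (uu A t) (vv B t) P *
        (((cb ((p : ℝ) / 2) i * cb ((q : ℝ) / 2) (k - i) : ℝ) : ℂ)
        * ((evP (uu A t) (vv B t) Z / 4) ^ i * (starRingEnd ℂ) (evP (uu A t) (vv B t) Z / 4) ^ (k - i)))))
      (G := fun t => ee ((l : ℝ) * t) * (evP (uu A t) (vv B t) P *
        ∑ i ∈ Finset.range i, (((cb ((p : ℝ) / 2) i * cb ((q : ℝ) / 2) (k - i) : ℝ) : ℂ)
        * ((evP (uu A t) (vv B t) Z / 4) ^ i * (starRingEnd ℂ) (evP (uu A t) (vv B t) Z / 4) ^ (k - i)))))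
      (c0.mul ((cont_evP A B P).mul (continuous_const.mul ((cz.pow i).mul (czc.pow (k - i))))))
      (c0.mul ((cont_evP A B P).mul (continuous_finsetSum _ fun j _ =>
        continuous_const.mul ((cz.pow j).mul (czc.pow (k - j))))))
    have e : (fun t => ee ((l : ℝ) * t) * (evP (uu A t) (vv B t) P * ∑ i ∈ Finset.range (i + 1),
        (((cb ((p : ℝ) / 2) i * cb ((q : ℝ) / 2) (k - i) : ℝ) : ℂ)
        * ((evP (uu A t) (vv B t) Z / 4) ^ i * (starRingEnd ℂ) (evP (uu A t) (vv B t) Z / 4) ^ (k - i))))) = fun t =>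
        ee ((l : ℝ) * t) * (evP (uu A t) (vv B t) P *
        (((cb ((p : ℝ) / 2) i * cb ((q : ℝ) / 2) (k - i) : ℝ) : ℂ)
        * ((evP (uu A t) (vv B t) Z / 4) ^ i * (starRingEnd ℂ) (evP (uu A t) (vv B t) Z / 4) ^ (k - i)))) +
        ee ((l : ℝ) * t) * (evP (uu A t) (vv B t) P *
        ∑ i ∈ Finset.range i, (((cb ((p : ℝ) / 2) i * cb ((q : ℝ) / 2) (k - i) : ℝ) : ℂ)
        * ((evP (uu A t) (vv B t) Z / 4) ^ i * (starRingEnd ℂ) (evP (uu A t) (vv B t) Z / 4) ^ (k - i)))) := by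
      funext t
      rw [Finset.sum_range_succ]
      ring
    rw [e, h1]
    have e4 : (starRingEnd ℂ) 4 = 4 := by
      have := Complex.conj_ofReal 4
      push_cast at this
      exact this
    have h2 : mean (fun t => ee ((l : ℝ) * t) * (evP (uu A t) (vv B t) (smP (16 ^ (K - k) * (bi p i * bi q (k - i)), 0) P)
        * evP (uu A t) (vv B t) (zp.getD i []) * evP (uu A t) (vv B t) (zc.getD (k - i) []))) =
        16 ^ K * mean (fun t => ee ((l : ℝ) * t) * (evP (uu A t) (vv B t) P *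
        (((cb ((p : ℝ) / 2) i * cb ((q : ℝ) / 2) (k - i) : ℝ) : ℂ)
        * ((evP (uu A t) (vv B t) Z / 4) ^ i * (starRingEnd ℂ) (evP (uu A t) (vv B t) Z / 4) ^ (k - i))))) := by
      rw [← mean_const_mul]
      congr 1
      funext t
      rw [evP_sm, hz i (by omega), hzc (k - i) (by omega), evP_pow, evP_pow, evP_cj, evC_int]
      push_cast
      rw [bi_ok hp (by omega), bi_ok hq (by omega), map_div₀, e4, div_pow, div_pow]
      have e16 : (16 : ℂ) ^ K = 16 ^ (K - k) * (4 ^ i * 4 ^ (k - i) * (4 ^ i * 4 ^ (k - i))) := by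
        rw [← pow_add, Nat.add_sub_cancel' (by omega : i ≤ k), ← mul_pow, show (4 : ℂ) * 4 = 16 by norm_num, ← pow_add]
        congr 1
        omega
      rw [e16]
      have n1 : (4 : ℂ) ^ i ≠ 0 := pow_ne_zero _ (by norm_num)
      have n2 : (4 : ℂ) ^ (k - i) ≠ 0 := pow_ne_zero _ (by norm_num)
      field_simp
    rw [h2]
    ring

theorem evP_resK (A B : ℂ) (Z : Po) (zp zc : List Po) (hz : Pw Z zp) (hzc : Pw (cjP Z) zc) (P : Po) (p q l : ℤ)
    (s K : ℕ) (hK8 : K ≤ 12) (hp : chkB p K = true) (hq : chkB q K = true) : ∀ (n : ℕ) (acc : Po), n ≤ K →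
    evP A B (resK zp zc P p q l s K n acc) = evP A B acc + 16 ^ K * mean (fun t => ee ((l : ℝ) * t)
      * (evP (uu A t) (vv B t) P * ∑ k ∈ (Finset.range n).filter (fun k => k % 2 = s),
        TT ((p : ℝ) / 2) ((q : ℝ) / 2) k (evP (uu A t) (vv B t) Z / 4)))
  | 0, acc, _ => by simp [resK, mean]
  | n + 1, acc, h => by
    have c0 : Continuous fun t : ℝ => ee ((l : ℝ) * t) := continuous_ee.comp (by fun_prop)
    have cz := cont_zeta A B Z
    have cT : ∀ k, Continuous fun t => TT ((p : ℝ) / 2) ((q : ℝ) / 2) k (evP (uu A t) (vv B t) Z / 4) := by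
      intro k
      unfold TT
      exact continuous_finsetSum _ fun ij _ =>
        continuous_const.mul ((cz.pow _).mul ((Complex.continuous_conj.comp cz).pow _))
    rw [resK, evP_resK A B Z zp zc hz hzc P p q l s K hK8 hp hq n _ (by omega), Finset.range_add_one,
      Finset.filter_insert]
    split_ifs with hs
    · rw [evP_resI A B Z zp zc hz hzc P p q l K n (by omega) (by omega) (chkB_mono hp h) (chkB_mono hq h) (n + 1) acc
        le_rfl]
      have h1 := mean_add (F := fun t => ee ((l : ℝ) * t) * (evP (uu A t) (vv B t) P *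
          TT ((p : ℝ) / 2) ((q : ℝ) / 2) n (evP (uu A t) (vv B t) Z / 4)))
        (G := fun t => ee ((l : ℝ) * t) * (evP (uu A t) (vv B t) P * ∑ k ∈ (Finset.range n).filter (fun k => k % 2 = s),
          TT ((p : ℝ) / 2) ((q : ℝ) / 2) k (evP (uu A t) (vv B t) Z / 4)))
        (c0.mul ((cont_evP A B P).mul (cT n)))
        (c0.mul ((cont_evP A B P).mul (continuous_finsetSum _ fun k _ => cT k)))
      have e : (fun t => ee ((l : ℝ) * t) * (evP (uu A t) (vv B t) P *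
          ∑ k ∈ insert n ((Finset.range n).filter (fun k => k % 2 = s)),
          TT ((p : ℝ) / 2) ((q : ℝ) / 2) k (evP (uu A t) (vv B t) Z / 4))) = fun t =>
          ee ((l : ℝ) * t) * (evP (uu A t) (vv B t) P *
          TT ((p : ℝ) / 2) ((q : ℝ) / 2) n (evP (uu A t) (vv B t) Z / 4)) +
          ee ((l : ℝ) * t) * (evP (uu A t) (vv B t) P * ∑ k ∈ (Finset.range n).filter (fun k => k % 2 = s),
          TT ((p : ℝ) / 2) ((q : ℝ) / 2) k (evP (uu A t) (vv B t) Z / 4)) := by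
        funext t
        rw [Finset.sum_insert (by simp)]
        ring
      rw [e, h1]
      have e3 : (fun t => ee ((l : ℝ) * t) * (evP (uu A t) (vv B t) P *
          TT ((p : ℝ) / 2) ((q : ℝ) / 2) n (evP (uu A t) (vv B t) Z / 4))) = fun t => ee ((l : ℝ) * t)
          * (evP (uu A t) (vv B t) P * ∑ i ∈ Finset.range (n + 1),
          (((cb ((p : ℝ) / 2) i * cb ((q : ℝ) / 2) (n - i) : ℝ) : ℂ)
          * ((evP (uu A t) (vv B t) Z / 4) ^ i * (starRingEnd ℂ) (evP (uu A t) (vv B t) Z / 4) ^ (n - i)))) := by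
        funext t
        unfold TT
        rw [Finset.Nat.sum_antidiagonal_eq_sum_range_succ_mk]
      rw [e3]
      ring
    · rfl

/-! ### the error -/

/-- the coefficients of `(a + 3/2 b)^K`, `K ≤ 8` -/
def binE (K : ℕ) : List ℚ := (List.range (K + 1)).map fun j => (Nat.choose K j : ℚ) * (3 / 2) ^ j

theorem binE_nonneg (K : ℕ) : ∀ x ∈ binE K, 0 ≤ x := by
  intro x hx
  unfold binE at hx
  obtain ⟨j, _, rfl⟩ := List.mem_map.1 hx
  positivity

theorem evE_append {a b : ℝ} : ∀ (j : ℕ) (E F : List ℚ), evE a b j (E ++ F) = evE a b j E + evE a b (j + E.length) F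
  | j, [], F => by simp [evE]
  | j, q :: E, F => by
    rw [List.cons_append, evE, evE, evE_append (j + 1) E F, List.length_cons]
    rw [show j + 1 + E.length = j + (E.length + 1) by ring]
    ring

theorem evE_zeros {a b : ℝ} : ∀ (n j : ℕ), evE a b j (List.replicate n 0) = 0
  | 0, j => by simp [evE]
  | n + 1, j => by
    rw [List.replicate_succ, evE, evE_zeros n (j + 1)]
    simp

theorem evE_map {a b : ℝ} (f : ℕ → ℚ) (d : ℕ) : ∀ n : ℕ, evE a b d ((List.range n).map f) =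
    ∑ j ∈ Finset.range n, |(f j : ℝ)| * (a ^ (8 - (d + j)) * b ^ (d + j))
  | 0 => by simp [evE]
  | n + 1 => by
    rw [List.range_succ, List.map_append, evE_append, evE_map f d n, Finset.sum_range_succ]
    simp [evE]

/-- error of one monomial -/
def erM (G : ℚ) (K : ℕ) (m : Mo) (c : Co) : List ℚ :=
  List.replicate (dv m) 0 ++ smE ((nC c : ℚ) / 60 * G) (binE K)

theorem erM_nonneg (G : ℚ) (hG : 0 ≤ G) (K : ℕ) (m : Mo) (c : Co) : ∀ x ∈ erM G K m c, 0 ≤ x := by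
  intro x hx
  unfold erM at hx
  rw [List.mem_append] at hx
  rcases hx with h | h
  · rw [List.mem_replicate] at h
    rw [h.2]
  · exact smE_nonneg _ (by positivity) _ (binE_nonneg K) x h

theorem erM_eq {a b : ℝ} (G : ℚ) (hG : 0 ≤ G) (K : ℕ) (m : Mo) (c : Co) (hd : dg m + K = 8) :
    evE a b 0 (erM G K m c) = (nC c : ℝ) / 60 * G * (a ^ (du m) * b ^ (dv m) * (a + 3 / 2 * b) ^ K) := by
  unfold erM
  rw [evE_append, evE_zeros, List.length_replicate, zero_add, zero_add, evE_sm _ (by positivity)]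
  unfold binE
  rw [evE_map, add_comm a, add_pow, Finset.mul_sum]
  push_cast
  rw [Finset.mul_sum, Finset.mul_sum]
  refine Finset.sum_congr rfl fun j hj => ?_
  rw [Finset.mem_range] at hj
  have e : 8 - (dv m + j) = du m + (K - j) := by
    rw [dg_eq] at hd; omega
  rw [e, pow_add, pow_add, abs_of_nonneg (by positivity), mul_pow]
  ring

/-- error of a polynomial -/
def erP (G : ℚ) (K : ℕ) : Po → List ℚ
  | [] => []
  | x :: P => addE (erM G K x.1 x.2) (erP G K P)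

theorem erP_nonneg (G : ℚ) (hG : 0 ≤ G) (K : ℕ) : ∀ P : Po, ∀ x ∈ erP G K P, 0 ≤ x
  | [] => by simp [erP]
  | y :: P => by
    rw [erP]
    exact addE_nonneg _ _ (erM_nonneg G hG K _ _) (erP_nonneg G hG K P)

theorem erP_le (A B : ℂ) (t : ℝ) (G : ℚ) (hG : 0 ≤ G) (K : ℕ) : ∀ P : Po, (P.all fun x => dg x.1 + K == 8) = true →
    ‖evP (uu A t) (vv B t) P‖ * (G * (‖A‖ + 3 / 2 * ‖B‖) ^ K) ≤ evE ‖A‖ ‖B‖ 0 (erP G K P)
  | [], _ => by simp [erP, evE]
  | x :: P, h => by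
    rw [List.all_cons, Bool.and_eq_true, beq_iff_eq] at h
    rw [erP, evE_add (norm_nonneg A) (norm_nonneg B) 0 _ _ (erM_nonneg G hG K _ _) (erP_nonneg G hG K P),
      erM_eq G hG K _ _ h.1, evP_cons]
    have h1 := erP_le A B t G hG K P h.2
    have hG' : (0 : ℝ) ≤ (G : ℝ) := by exact_mod_cast hG
    have h2 : ‖evC x.2 * evM (uu A t) (vv B t) x.1 + evP (uu A t) (vv B t) P‖ ≤
        (nC x.2 : ℝ) / 60 * (‖A‖ ^ (du x.1) * ‖B‖ ^ (dv x.1)) + ‖evP (uu A t) (vv B t) P‖ := by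
      refine (norm_add_le _ _).trans (add_le_add ?_ le_rfl)
      rw [norm_mul, norm_evM, norm_uu, norm_vv]
      exact mul_le_mul_of_nonneg_right (nC_le _) (by positivity)
    have h3 : 0 ≤ (G : ℝ) * (‖A‖ + 3 / 2 * ‖B‖) ^ K := by positivity
    calc ‖evC x.2 * evM (uu A t) (vv B t) x.1 + evP (uu A t) (vv B t) P‖ * (G * (‖A‖ + 3 / 2 * ‖B‖) ^ K)
        ≤ ((nC x.2 : ℝ) / 60 * (‖A‖ ^ (du x.1) * ‖B‖ ^ (dv x.1)) + ‖evP (uu A t) (vv B t) P‖)
            * (G * (‖A‖ + 3 / 2 * ‖B‖) ^ K) := mul_le_mul_of_nonneg_right h2 h3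
      _ = (nC x.2 : ℝ) / 60 * G * (‖A‖ ^ (du x.1) * ‖B‖ ^ (dv x.1) * (‖A‖ + 3 / 2 * ‖B‖) ^ K)
            + ‖evP (uu A t) (vv B t) P‖ * (G * (‖A‖ + 3 / 2 * ‖B‖) ^ K) := by ring
      _ ≤ _ := by linarith

/-! ### replacing `Ph` by its even or odd part -/

theorem mean_pp (A B : ℂ) (P Z : Po) (a b : ℝ) (l : ℤ) (sP s : ℕ) (hsl : (sP + l.natAbs) % 2 = s)
    (hP : parP sP P = true) (hZ : parP 1 Z = true) (hζ1 : ∀ t, ‖evP (uu A t) (vv B t) Z / 4‖ < 1) :
    mean (fun t => ee ((l : ℝ) * t) * (evP (uu A t) (vv B t) P * Ph a b (evP (uu A t) (vv B t) Z / 4))) =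
      mean (fun t => ee ((l : ℝ) * t) * (evP (uu A t) (vv B t) P * pp s a b (evP (uu A t) (vv B t) Z / 4))) := by
  set ζ : ℝ → ℂ := fun t => evP (uu A t) (vv B t) Z / 4 with hζ
  have hζc : Continuous ζ := (cont_evP A B Z).div_const 4
  have hζp : ∀ t, ζ (t + Real.pi) = -ζ t := by
    intro t
    simp only [hζ]
    rw [uu_pi, vv_pi, evP_neg _ _ 1 Z hZ]
    ring
  have c0 : Continuous fun t : ℝ => ee ((l : ℝ) * t) := continuous_ee.comp (by fun_prop)
  set F : ℝ → ℂ := fun t => ee ((l : ℝ) * t) * (evP (uu A t) (vv B t) P * Ph a b (ζ t)) with hF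
  have hFc : Continuous F := c0.mul ((cont_evP A B P).mul (cont_Ph a b hζc hζ1))
  have hFp : ∀ t, F (t + 2 * Real.pi) = F t := by
    intro t
    simp only [hF, hζ]
    rw [ee_per, uu_per, vv_per]
  have hF2 : ∀ t, F (t + Real.pi) = (-1) ^ s * (ee ((l : ℝ) * t) * (evP (uu A t) (vv B t) P * Ph a b (-ζ t))) := by
    intro t
    simp only [hF]
    rw [ee_pi, uu_pi, vv_pi, evP_neg _ _ sP P hP, hζp]
    have e : (-1 : ℂ) ^ s = (-1) ^ sP * (-1) ^ l.natAbs := by
      rw [← pow_add, ← Nat.div_add_mod (sP + l.natAbs) 2, hsl, pow_add, pow_mul]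
      norm_num
    rw [e]
    ring
  have hFc2 : Continuous fun t => F (t + Real.pi) := hFc.comp (by fun_prop)
  have h1 : mean (fun t => F t + F (t + Real.pi)) = 2 * mean F := by
    rw [mean_add hFc hFc2, mean_shift hFp]; ring
  have h2 : (fun t => F t + F (t + Real.pi)) =
      fun t => 2 * (ee ((l : ℝ) * t) * (evP (uu A t) (vv B t) P * pp s a b (ζ t))) := by
    funext t
    rw [hF2]
    simp only [hF, pp]
    ring
  rw [h2, mean_const_mul] at h1
  exact (mul_left_cancel₀ two_ne_zero h1).symm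

/-! ### lists of terms -/

/-- the term `P/D Ph (p/2) (q/2)` with `K` exact orders and the constant `G`; `M` is the exponent of the error -/
structure It where
  P : Po
  D : ℕ
  p : ℤ
  q : ℤ
  K : ℕ
  M : ℕ
  G : ℚ

/-- its value -/
noncomputable def It.v (A B : ℂ) (Z : Po) (x : It) (t : ℝ) : ℂ :=
  evP (uu A t) (vv B t) x.P / x.D * Ph ((x.p : ℝ) / 2) ((x.q : ℝ) / 2) (evP (uu A t) (vv B t) Z / 4)

/-- checks of one term (`s`: parity of `l`) -/
def It.chk (s : ℕ) (x : It) : Bool :=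
  decide (0 < x.D) && decide (x.K ≤ 12) && (x.K % 2 == s) && decide (0 ≤ x.G) && parP 0 x.P
  && (x.P.all fun y => dg y.1 + x.M == 8) && decide (|(x.p : ℚ) / 2| ≤ 8) && decide (|(x.q : ℚ) / 2| ≤ 8)
  && chkE4 ((x.p : ℚ) / 2) ((x.q : ℚ) / 2) x.G x.K && chkB x.p x.K && chkB x.q x.K && decide (x.M ≤ x.K)

/-- the error list of one term (`r`: bound of `|ζ|`) -/
def It.er (r : ℚ) (x : It) : List ℚ := smE (1 / x.D) (erP (x.G * r ^ (x.K - x.M)) x.M x.P)

/-- rational polynomials -/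
abbrev PoQ := List (Mo × ℚ × ℚ)

/-- value -/
noncomputable def evQ (u v : ℂ) (Q : PoQ) : ℂ := (Q.map fun x => ((x.2.1 : ℂ) + (x.2.2 : ℂ) * s3) * evM u v x.1).sum

@[simp] theorem evQ_nil (u v : ℂ) : evQ u v [] = 0 := rfl
@[simp] theorem evQ_cons (u v : ℂ) (x : Mo × ℚ × ℚ) (Q : PoQ) :
    evQ u v (x :: Q) = ((x.2.1 : ℂ) + (x.2.2 : ℂ) * s3) * evM u v x.1 + evQ u v Q := by simp [evQ]

/-- insertion -/
def insQ (m : Mo) (a b : ℚ) : PoQ → PoQ
  | [] => [(m, a, b)]
  | x :: Q => if x.1 = m then (m, a + x.2.1, b + x.2.2) :: Q else x :: insQ m a b Q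

theorem evQ_ins (u v : ℂ) (m : Mo) (a b : ℚ) : ∀ Q : PoQ,
    evQ u v (insQ m a b Q) = ((a : ℂ) + (b : ℂ) * s3) * evM u v m + evQ u v Q
  | [] => by simp [insQ]
  | x :: Q => by
    unfold insQ
    split_ifs with h
    · rw [evQ_cons, evQ_cons, h]
      push_cast
      ring
    · rw [evQ_cons, evQ_cons, evQ_ins u v m a b Q]; ring

/-- adds `P/d` -/
def addPQ (d : ℕ) : Po → PoQ → PoQ
  | [], Q => Q
  | x :: P, Q => addPQ d P (insQ x.1 (x.2.1 / d) (x.2.2 / d) Q)

theorem evQ_addPQ (u v : ℂ) (d : ℕ) : ∀ (P : Po) (Q : PoQ), evQ u v (addPQ d P Q) = evP u v P / d + evQ u v Q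
  | [], Q => by simp [addPQ]
  | x :: P, Q => by
    rw [addPQ, evQ_addPQ u v d P, evQ_ins, evP_cons]
    unfold evC
    push_cast
    ring

/-- the table of a list of terms -/
def totQ (zp zc : List Po) (l : ℤ) (s : ℕ) : List It → PoQ → PoQ
  | [], Q => Q
  | x :: F, Q => totQ zp zc l s F (addPQ (x.D * 16 ^ x.K) (resK zp zc x.P x.p x.q l s x.K x.K []) Q)

/-- the error of a list of terms -/
def totE (r : ℚ) : List It → List ℚ
  | [] => []
  | x :: F => addE (x.er r) (totE r F)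

/-- value of a list of terms -/
noncomputable def lfV (A B : ℂ) (Z : Po) (F : List It) (t : ℝ) : ℂ := (F.map fun x => x.v A B Z t).sum

theorem cont_It (A B : ℂ) (Z : Po) (hζ1 : ∀ t, ‖evP (uu A t) (vv B t) Z / 4‖ < 1) (x : It) :
    Continuous (x.v A B Z) :=
  ((cont_evP A B x.P).div_const _).mul (cont_Ph _ _ (cont_zeta A B Z) hζ1)

theorem cont_lf (A B : ℂ) (Z : Po) (hζ1 : ∀ t, ‖evP (uu A t) (vv B t) Z / 4‖ < 1) : ∀ F : List It,
    Continuous (lfV A B Z F)
  | [] => by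
    have : lfV A B Z [] = fun _ => 0 := by funext t; simp [lfV]
    rw [this]; exact continuous_const
  | x :: F => by
    have : lfV A B Z (x :: F) = fun t => x.v A B Z t + lfV A B Z F t := by funext t; simp [lfV]
    rw [this]; exact (cont_It A B Z hζ1 x).add (cont_lf A B Z hζ1 F)

/-- one term -/
theorem it_mean (A B : ℂ) (Z : Po) (zp zc : List Po) (hz : Pw Z zp) (hzc : Pw (cjP Z) zc) (hZ : parP 1 Z = true)
    (hζ : ∀ t, ‖evP (uu A t) (vv B t) Z / 4‖ ≤ ‖A‖ + 3 / 2 * ‖B‖) (r : ℚ) (hr0 : 0 ≤ r) (hr4 : r ≤ 1 / 4)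
    (hζr : ‖A‖ + 3 / 2 * ‖B‖ ≤ r)
    (l : ℤ) (s : ℕ) (hs : l.natAbs % 2 = s) (x : It) (hx : x.chk s = true) :
    ‖mean (fun t => ee ((l : ℝ) * t) * x.v A B Z t)
      - evP A B (resK zp zc x.P x.p x.q l s x.K x.K []) / ((x.D * 16 ^ x.K : ℕ) : ℂ)‖
      ≤ evE ‖A‖ ‖B‖ 0 (x.er r) := by
  unfold It.chk at hx
  simp only [Bool.and_eq_true, decide_eq_true_eq, beq_iff_eq] at hx
  obtain ⟨⟨⟨⟨⟨⟨⟨⟨⟨⟨⟨hD, hK8⟩, hKs⟩, hG⟩, hP⟩, hd⟩, hp⟩, hq⟩, hE⟩, hbp⟩, hbq⟩, hMK⟩ := hx
  have hζ4 : ‖A‖ + 3 / 2 * ‖B‖ ≤ 1 / 4 := hζr.trans (by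
    have h := (Rat.cast_le (K := ℝ)).2 hr4
    push_cast at h; linarith)
  have hs2 : s < 2 := by omega
  have hζ1 : ∀ t, ‖evP (uu A t) (vv B t) Z / 4‖ < 1 := fun t => (hζ t).trans_lt (by linarith)
  have hD0 : ((x.D : ℕ) : ℂ) ≠ 0 := by exact_mod_cast hD.ne'
  have c0 : Continuous fun t : ℝ => ee ((l : ℝ) * t) := continuous_ee.comp (by fun_prop)
  have cz := cont_zeta A B Z
  set ζ : ℝ → ℂ := fun t => evP (uu A t) (vv B t) Z / 4 with hζd
  set a : ℝ := (x.p : ℝ) / 2 with ha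
  set b : ℝ := (x.q : ℝ) / 2 with hb
  have cT : Continuous fun t => ∑ k ∈ (Finset.range x.K).filter (fun k => k % 2 = s), TT a b k (ζ t) := by
    refine continuous_finsetSum _ fun k _ => ?_
    unfold TT
    exact continuous_finsetSum _ fun ij _ =>
      continuous_const.mul ((cz.pow _).mul ((Complex.continuous_conj.comp cz).pow _))
  have cpp : Continuous fun t => pp s a b (ζ t) := by
    unfold pp
    have hn : ∀ t, ‖(fun t => -ζ t) t‖ < 1 := fun t => by rw [norm_neg]; exact hζ1 t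
    exact ((cont_Ph a b cz hζ1).add (continuous_const.mul (cont_Ph a b cz.neg hn))).div_const 2
  -- first step: the factor 1/D
  have e1 : mean (fun t => ee ((l : ℝ) * t) * x.v A B Z t) =
      1 / x.D * mean (fun t => ee ((l : ℝ) * t) * (evP (uu A t) (vv B t) x.P * Ph a b (ζ t))) := by
    rw [← mean_const_mul]
    congr 1
    funext t
    unfold It.v
    simp only [hζd, ha, hb]
    ring
  have e2 := mean_pp A B x.P Z a b l 0 s (by rw [zero_add]; exact hs) hP hZ hζ1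
  have e3 := evP_resK A B Z zp zc hz hzc x.P x.p x.q l s x.K hK8 hbp hbq x.K [] le_rfl
  rw [evP_nil, zero_add, ← ha, ← hb] at e3
  have h16 : (16 : ℂ) ^ x.K ≠ 0 := pow_ne_zero _ (by norm_num)
  have e4 : evP A B (resK zp zc x.P x.p x.q l s x.K x.K []) / ((x.D * 16 ^ x.K : ℕ) : ℂ) =
      1 / x.D * mean (fun t => ee ((l : ℝ) * t) * (evP (uu A t) (vv B t) x.P *
        ∑ k ∈ (Finset.range x.K).filter (fun k => k % 2 = s), TT a b k (ζ t))) := by
    rw [e3]
    push_cast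
    field_simp
    try simp only [hζd]
  rw [e1, e2, e4, ← mul_sub]
  have h1 := mean_add (F := fun t => ee ((l : ℝ) * t) * (evP (uu A t) (vv B t) x.P * (pp s a b (ζ t)
      - ∑ k ∈ (Finset.range x.K).filter (fun k => k % 2 = s), TT a b k (ζ t))))
    (G := fun t => ee ((l : ℝ) * t) * (evP (uu A t) (vv B t) x.P *
      ∑ k ∈ (Finset.range x.K).filter (fun k => k % 2 = s), TT a b k (ζ t)))
    (c0.mul ((cont_evP A B x.P).mul (cpp.sub cT))) (c0.mul ((cont_evP A B x.P).mul cT))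
  have e5 : (fun t => ee ((l : ℝ) * t) * (evP (uu A t) (vv B t) x.P * (pp s a b (ζ t)
      - ∑ k ∈ (Finset.range x.K).filter (fun k => k % 2 = s), TT a b k (ζ t))) +
      ee ((l : ℝ) * t) * (evP (uu A t) (vv B t) x.P *
      ∑ k ∈ (Finset.range x.K).filter (fun k => k % 2 = s), TT a b k (ζ t))) = fun t =>
      ee ((l : ℝ) * t) * (evP (uu A t) (vv B t) x.P * pp s a b (ζ t)) := by
    funext t; ring
  rw [e5] at h1
  rw [h1, add_sub_cancel_right, norm_mul, It.er, evE_sm _ (by positivity)]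
  have hDr : ‖(1 / x.D : ℂ)‖ = ((1 / x.D : ℚ) : ℝ) := by
    rw [norm_div, norm_one, Complex.norm_natCast]; push_cast; rfl
  rw [hDr]
  refine mul_le_mul_of_nonneg_left ?_ (by positivity)
  refine mean_norm fun t => ?_
  rw [norm_mul, norm_ee, one_mul, norm_mul]
  have hr := pp_rem4 ((x.p : ℚ) / 2) ((x.q : ℚ) / 2) x.G s x.K hs2 hKs hp hq hE (ζ t) ((hζ t).trans hζ4)
  have ha' : ((((x.p : ℚ) / 2 : ℚ)) : ℝ) = a := by push_cast; rfl
  have hb' : ((((x.q : ℚ) / 2 : ℚ)) : ℝ) = b := by push_cast; rfl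
  rw [ha', hb'] at hr
  have hG' : (0 : ℝ) ≤ (x.G : ℝ) := by exact_mod_cast hG
  have hsum : 0 ≤ ‖A‖ + 3 / 2 * ‖B‖ := by positivity
  have h6 : ‖pp s a b (ζ t) - ∑ k ∈ (Finset.range x.K).filter (fun k => k % 2 = s), TT a b k (ζ t)‖ ≤
      ((x.G * r ^ (x.K - x.M) : ℚ) : ℝ) * (‖A‖ + 3 / 2 * ‖B‖) ^ x.M := by
    refine hr.trans ((mul_le_mul_of_nonneg_left (pow_le_pow_left₀ (norm_nonneg _) (hζ t) _) hG').trans ?_)
    have e7 : (‖A‖ + 3 / 2 * ‖B‖) ^ x.K = (‖A‖ + 3 / 2 * ‖B‖) ^ (x.K - x.M) * (‖A‖ + 3 / 2 * ‖B‖) ^ x.M := by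
      rw [← pow_add]; congr 1; omega
    rw [e7]
    push_cast
    rw [mul_assoc]
    exact mul_le_mul_of_nonneg_left (mul_le_mul_of_nonneg_right (pow_le_pow_left₀ hsum hζr _) (by positivity)) hG'
  exact (mul_le_mul_of_nonneg_left h6 (norm_nonneg _)).trans
    (erP_le A B t (x.G * r ^ (x.K - x.M)) (mul_nonneg hG (pow_nonneg hr0 _)) x.M x.P hd)

theorem er_nonneg {r : ℚ} (hr : 0 ≤ r) (x : It) (h : 0 ≤ x.G) : ∀ y ∈ x.er r, 0 ≤ y :=
  smE_nonneg _ (by positivity) _ (erP_nonneg _ (mul_nonneg h (pow_nonneg hr _)) _ _)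

theorem totE_nonneg {r : ℚ} (hr : 0 ≤ r) : ∀ F : List It, (∀ x ∈ F, 0 ≤ x.G) → ∀ y ∈ totE r F, 0 ≤ y
  | [], _ => by simp [totE]
  | x :: F, h => by
    rw [totE]
    exact addE_nonneg _ _ (er_nonneg hr x (h x (by simp)))
      (totE_nonneg hr F fun y hy => h y (by simp [hy]))

/-- **mean value of a list of terms** -/
theorem lf_mean (A B : ℂ) (Z : Po) (zp zc : List Po) (hz : Pw Z zp) (hzc : Pw (cjP Z) zc) (hZ : parP 1 Z = true)
    (hζ : ∀ t, ‖evP (uu A t) (vv B t) Z / 4‖ ≤ ‖A‖ + 3 / 2 * ‖B‖) (r : ℚ) (hr0 : 0 ≤ r) (hr4 : r ≤ 1 / 4)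
    (hζr : ‖A‖ + 3 / 2 * ‖B‖ ≤ r)
    (l : ℤ) (s : ℕ) (hs : l.natAbs % 2 = s) : ∀ (F : List It) (Q0 : PoQ), (F.all fun x => x.chk s) = true →
    ‖mean (fun t => ee ((l : ℝ) * t) * lfV A B Z F t) - (evQ A B (totQ zp zc l s F Q0) - evQ A B Q0)‖
      ≤ evE ‖A‖ ‖B‖ 0 (totE r F)
  | [], Q0, _ => by simp [totQ, totE, evE, lfV, mean]
  | x :: F, Q0, h => by
    rw [List.all_cons, Bool.and_eq_true] at h
    have hζ1 : ∀ t, ‖evP (uu A t) (vv B t) Z / 4‖ < 1 := fun t => ((hζ t).trans hζr).trans_lt (by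
      have h := (Rat.cast_le (K := ℝ)).2 hr4
      push_cast at h; linarith)
    have c0 : Continuous fun t : ℝ => ee ((l : ℝ) * t) := continuous_ee.comp (by fun_prop)
    have h1 := it_mean A B Z zp zc hz hzc hZ hζ r hr0 hr4 hζr l s hs x h.1
    have h2 := lf_mean A B Z zp zc hz hzc hZ hζ r hr0 hr4 hζr l s hs F
      (addPQ (x.D * 16 ^ x.K) (resK zp zc x.P x.p x.q l s x.K x.K []) Q0) h.2
    have hGall : ∀ y ∈ x :: F, 0 ≤ y.G := by
      intro y hy
      have : (y.chk s) = true := by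
        rcases List.mem_cons.1 hy with e | e
        · rw [e]; exact h.1
        · exact (List.all_eq_true.1 h.2) y e
      unfold It.chk at this
      simp only [Bool.and_eq_true, decide_eq_true_eq, beq_iff_eq] at this
      exact this.1.1.1.1.1.1.1.1.2
    have e1 : (fun t => ee ((l : ℝ) * t) * lfV A B Z (x :: F) t) = fun t =>
        ee ((l : ℝ) * t) * x.v A B Z t + ee ((l : ℝ) * t) * lfV A B Z F t := by
      funext t
      simp only [lfV, List.map_cons, List.sum_cons]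
      ring
    have hadd := mean_add (F := fun t => ee ((l : ℝ) * t) * x.v A B Z t) (G := fun t => ee ((l : ℝ) * t) * lfV A B Z F t)
      (c0.mul (cont_It A B Z hζ1 x)) (c0.mul (cont_lf A B Z hζ1 F))
    rw [e1, hadd, totQ, totE,
      evE_add (norm_nonneg A) (norm_nonneg B) 0 _ _ (er_nonneg hr0 x (hGall x (by simp)))
        (totE_nonneg hr0 F fun y hy => hGall y (by simp [hy]))]
    rw [evQ_addPQ] at h2
    refine le_trans (le_of_eq ?_) ((norm_add_le _ _).trans (add_le_add h1 h2))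
    congr 1
    ring

end Pool.Agent.Helper35.Cas
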