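import Pool.Agent.Helper35.SH.Res
import Pool.Agent.Helper33.SH.Uni

/-!
# Project RC, SHARP: integer tables of mean values, algebra of `Ph`
-/

set_option autoImplicit false

open MeasureTheory Set Filter Metric

namespace Pool.Agent.Helper35.Cas

open Helper49.LT hiding sg
open Pool.Agent.Helper35.RC

/-- integer table: `Dc` is the common denominator -/
def totI (zp zc : List Po) (l : ℤ) (s : ℕ) (Dc : ℤ) : List It → Po → Po
  | [], acc => acc
  | x :: F, acc => totI zp zc l s Dc F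
      (resK zp zc (smP (Dc / (x.D * 16 ^ x.K), 0) x.P) x.p x.q l s x.K x.K acc)

/-- all denominators divide `Dc` -/
def chkD (Dc : ℤ) (F : List It) : Bool := F.all fun x => decide (Dc / (x.D * 16 ^ x.K) * (x.D * 16 ^ x.K) = Dc)

theorem resK_scale (A B : ℂ) (Z : Po) (zp zc : List Po) (hz : Pw Z zp) (hzc : Pw (cjP Z) zc) (P : Po) (p q l : ℤ)
    (s K : ℕ) (c : ℤ) (hK8 : K ≤ 12) (hp : chkB p K = true) (hq : chkB q K = true) (acc : Po) :
    evP A B (resK zp zc (smP (c, 0) P) p q l s K K acc) =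
      evP A B acc + c * evP A B (resK zp zc P p q l s K K []) := by
  rw [evP_resK A B Z zp zc hz hzc _ p q l s K hK8 hp hq K acc le_rfl,
    evP_resK A B Z zp zc hz hzc _ p q l s K hK8 hp hq K [] le_rfl, evP_nil, zero_add]
  have e : (fun t => ee ((l : ℝ) * t) * (evP (uu A t) (vv B t) (smP (c, 0) P) *
      ∑ k ∈ Finset.range K with k % 2 = s, TT ((p : ℝ) / 2) ((q : ℝ) / 2) k (evP (uu A t) (vv B t) Z / 4))) =
      fun t => (c : ℂ) * (ee ((l : ℝ) * t) * (evP (uu A t) (vv B t) P *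
      ∑ k ∈ Finset.range K with k % 2 = s, TT ((p : ℝ) / 2) ((q : ℝ) / 2) k (evP (uu A t) (vv B t) Z / 4))) := by
    funext t
    rw [evP_sm, evC_int]
    ring
  rw [e, mean_const_mul]
  ring

/-- **mean value of a list of terms**, integer version -/
theorem lf_meanI (A B : ℂ) (Z : Po) (zp zc : List Po) (hz : Pw Z zp) (hzc : Pw (cjP Z) zc) (hZ : parP 1 Z = true)
    (hζ : ∀ t, ‖evP (uu A t) (vv B t) Z / 4‖ ≤ ‖A‖ + 3 / 2 * ‖B‖) (r : ℚ) (hr0 : 0 ≤ r) (hr4 : r ≤ 1 / 4)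
    (hζr : ‖A‖ + 3 / 2 * ‖B‖ ≤ r)
    (l : ℤ) (s : ℕ) (hs : l.natAbs % 2 = s) (Dc : ℤ) (hDc : Dc ≠ 0) : ∀ (F : List It) (acc : Po),
    chkD Dc F = true → (F.all fun x => x.chk s) = true →
    ‖mean (fun t => ee ((l : ℝ) * t) * lfV A B Z F t) - (evP A B (totI zp zc l s Dc F acc) - evP A B acc) / Dc‖
      ≤ evE ‖A‖ ‖B‖ 0 (totE r F)
  | [], acc, _, _ => by simp [totI, totE, evE, lfV, mean]
  | x :: F, acc, hd, h => by
    unfold chkD at hd
    rw [List.all_cons, Bool.and_eq_true] at h hd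
    have hζ1 : ∀ t, ‖evP (uu A t) (vv B t) Z / 4‖ < 1 := fun t => ((hζ t).trans hζr).trans_lt (by
      have h := (Rat.cast_le (K := ℝ)).2 hr4
      push_cast at h; linarith)
    have c0 : Continuous fun t : ℝ => ee ((l : ℝ) * t) := continuous_ee.comp (by fun_prop)
    have h1 := it_mean A B Z zp zc hz hzc hZ hζ r hr0 hr4 hζr l s hs x h.1
    have h2 := lf_meanI A B Z zp zc hz hzc hZ hζ r hr0 hr4 hζr l s hs Dc hDc F
      (resK zp zc (smP (Dc / (x.D * 16 ^ x.K), 0) x.P) x.p x.q l s x.K x.K acc) hd.2 h.2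
    have hGall : ∀ y ∈ x :: F, 0 ≤ y.G := by
      intro y hy
      have : (y.chk s) = true := by
        rcases List.mem_cons.1 hy with e | e
        · rw [e]; exact h.1
        · exact (List.all_eq_true.1 h.2) y e
      unfold It.chk at this
      simp only [Bool.and_eq_true, decide_eq_true_eq, beq_iff_eq] at this
      exact this.1.1.1.1.1.1.1.1.2
    have hx := h.1
    unfold It.chk at hx
    simp only [Bool.and_eq_true, decide_eq_true_eq, beq_iff_eq] at hx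
    obtain ⟨⟨⟨⟨⟨⟨⟨⟨⟨⟨⟨hD, hK8⟩, hKs⟩, hG⟩, hP⟩, hdd⟩, hp⟩, hq⟩, hE⟩, hbp⟩, hbq⟩, hMK⟩ := hx
    have hdec : Dc / (x.D * 16 ^ x.K) * (x.D * 16 ^ x.K) = Dc := of_decide_eq_true hd.1
    have e1 : (fun t => ee ((l : ℝ) * t) * lfV A B Z (x :: F) t) = fun t =>
        ee ((l : ℝ) * t) * x.v A B Z t + ee ((l : ℝ) * t) * lfV A B Z F t := by
      funext t
      simp only [lfV, List.map_cons, List.sum_cons]
      ring
    have hadd := mean_add (F := fun t => ee ((l : ℝ) * t) * x.v A B Z t) (G := fun t => ee ((l : ℝ) * t) * lfV A B Z F t)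
      (c0.mul (cont_It A B Z hζ1 x)) (c0.mul (cont_lf A B Z hζ1 F))
    rw [resK_scale A B Z zp zc hz hzc x.P x.p x.q l s x.K _ hK8 hbp hbq acc] at h2
    set W := evP A B (totI zp zc l s Dc F
      (resK zp zc (smP (Dc / (x.D * 16 ^ x.K), 0) x.P) x.p x.q l s x.K x.K acc)) with hW
    set R := evP A B (resK zp zc x.P x.p x.q l s x.K x.K []) with hR
    have hDc' : (Dc : ℂ) ≠ 0 := by exact_mod_cast hDc
    have hcc : ((Dc / (x.D * 16 ^ x.K) : ℤ) : ℂ) * ((x.D * 16 ^ x.K : ℕ) : ℂ) = (Dc : ℂ) := by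
      have := congrArg (fun z : ℤ => (z : ℂ)) hdec
      push_cast at this ⊢
      exact this
    have hD0 : ((x.D * 16 ^ x.K : ℕ) : ℂ) ≠ 0 := by
      intro h0
      rw [h0, mul_zero] at hcc
      exact hDc' hcc.symm
    have e3 : R / ((x.D * 16 ^ x.K : ℕ) : ℂ) = ((Dc / (x.D * 16 ^ x.K) : ℤ) : ℂ) * R / Dc := by
      rw [div_eq_div_iff hD0 hDc', ← hcc]; ring
    rw [e3] at h1
    rw [e1, hadd, totI, totE,
      evE_add (norm_nonneg A) (norm_nonneg B) 0 _ _ (er_nonneg hr0 x (hGall x (by simp)))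
        (totE_nonneg hr0 F fun y hy => hGall y (by simp [hy]))]
    refine le_trans (le_of_eq ?_) ((norm_add_le _ _).trans (add_le_add h1 h2))
    congr 1
    rw [← hW]
    field_simp
    ring

/-! ### algebra of `Ph` -/

theorem one_add_ne {ζ : ℂ} (h : ‖ζ‖ < 1) : 1 + ζ ≠ 0 := by
  intro h0
  have : ζ = -1 := by linear_combination h0
  rw [this] at h
  simp at h

theorem Ph_mul {ζ : ℂ} (h : ‖ζ‖ < 1) (a b a' b' : ℝ) : Ph a b ζ * Ph a' b' ζ = Ph (a + a') (b + b') ζ := by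
  unfold Ph
  have hF := one_add_ne h
  push_cast
  rw [Complex.cpow_add _ _ hF, Complex.cpow_add _ _ hF, map_mul]
  ring

theorem Ph_norm {ζ : ℂ} (h : ‖ζ‖ < 1) : (‖1 + ζ‖ : ℂ) = Ph (1 / 2) (1 / 2) ζ := by
  have := phi_ph 0 ζ h
  unfold Phi at this
  rw [zpow_zero, mul_one] at this
  rw [this]
  congr 1 <;> norm_num

theorem Ph_unit {ζ : ℂ} (h : ‖ζ‖ < 1) (m : ℤ) :
    ((1 + ζ) / (‖1 + ζ‖ : ℂ)) ^ m = Ph ((m : ℝ) / 2) (-(m : ℝ) / 2) ζ := Pool.Agent.Helper33.SH.unit_pow m ζ h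

theorem Ph_conj {ζ : ℂ} (a b : ℝ) : (starRingEnd ℂ) (Ph a b ζ) = Ph b a ζ := by
  unfold Ph
  rw [map_mul, Complex.conj_conj, mul_comm]

theorem Ph_zero (ζ : ℂ) : Ph 0 0 ζ = 1 := by
  unfold Ph
  simp

end Pool.Agent.Helper35.Cas
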