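import Pool.Agent.Helper35.SH.Mom

/-!
# Project RC, SHARP: Taylor models in `u = A e^{-3it}`, `v = B e^{-5it}`

A model of a function `F` of `t` is a polynomial of degree `≤ 7` with a denominator and an error polynomial
`∑ E_j |A|^(8-j) |B|^j` (`|A| ≤ 1/4`, `|B| ≤ 1/8`). Products drop the monomials of degree `≥ 8` into the error.
-/

set_option autoImplicit false

open MeasureTheory Set Filter Metric

namespace Pool.Agent.Helper35.Cas

open Helper49.LT hiding sg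
open Helper56.RC (fc)
open Pool.Agent.Helper35.RC

/-! ### norms of coefficients -/

/-- upper bound of `60 |c|` -/
def nC (c : Co) : ℕ :=
  if 104 * c.2.natAbs ≤ 60 * c.1.natAbs then 60 * c.1.natAbs + (5 * (104 * c.2.natAbs)) / 12 + 1
  else 104 * c.2.natAbs + (5 * (60 * c.1.natAbs)) / 12 + 1

theorem norm_evC_sq (c : Co) : ‖evC c‖ ^ 2 = (c.1 : ℝ) ^ 2 + 3 * (c.2 : ℝ) ^ 2 := by
  rw [← Complex.normSq_eq_norm_sq, Complex.normSq_apply]
  have hs : Real.sqrt 3 * Real.sqrt 3 = 3 := Real.mul_self_sqrt (by norm_num)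
  have e1 : (evC c).re = (c.1 : ℝ) := by
    unfold evC s3
    simp
  have e2 : (evC c).im = (c.2 : ℝ) * Real.sqrt 3 := by
    unfold evC s3
    simp
  rw [e1, e2]
  linear_combination ((c.2 : ℝ)) ^ 2 * hs

theorem nC_le (c : Co) : ‖evC c‖ ≤ (nC c : ℝ) / 60 := by
  have h0 := norm_evC_sq c
  have ha : (c.1 : ℝ) ^ 2 = (c.1.natAbs : ℝ) ^ 2 := by
    rw [← Int.cast_natCast, ← Int.cast_pow, ← Int.cast_pow, Int.natAbs_sq]
  have hb : (c.2 : ℝ) ^ 2 = (c.2.natAbs : ℝ) ^ 2 := by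
    rw [← Int.cast_natCast, ← Int.cast_pow, ← Int.cast_pow, Int.natAbs_sq]
  rw [ha, hb] at h0
  set x : ℕ := 60 * c.1.natAbs with hx
  set y : ℕ := 104 * c.2.natAbs with hy
  have hx' : (x : ℝ) = 60 * (c.1.natAbs : ℝ) := by rw [hx]; push_cast; ring
  have hy' : (y : ℝ) = 104 * (c.2.natAbs : ℝ) := by rw [hy]; push_cast; ring
  have hsq : (60 * ‖evC c‖) ^ 2 ≤ (x : ℝ) ^ 2 + (y : ℝ) ^ 2 := by
    rw [hx', hy', mul_pow, h0]
    have := sq_nonneg ((c.2.natAbs : ℝ))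
    nlinarith
  have hx0 : (0 : ℝ) ≤ x := Nat.cast_nonneg x
  have hy0 : (0 : ℝ) ≤ y := Nat.cast_nonneg y
  have key : ∀ p q : ℕ, q ≤ p → (p : ℝ) ^ 2 + (q : ℝ) ^ 2 ≤ ((p + (5 * q) / 12 + 1 : ℕ) : ℝ) ^ 2 := by
    intro p q hpq
    have h1 : ((5 * q : ℕ) : ℝ) / 12 ≤ ((5 * q) / 12 + 1 : ℕ) := by
      have h2 : 5 * q < 12 * ((5 * q) / 12 + 1) := by omega
      have h3 : ((5 * q : ℕ) : ℝ) ≤ 12 * (((5 * q) / 12 + 1 : ℕ) : ℝ) := by exact_mod_cast h2.le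
      linarith
    have hp : (0 : ℝ) ≤ p := Nat.cast_nonneg p
    have hq : (0 : ℝ) ≤ q := Nat.cast_nonneg q
    have hpq' : (q : ℝ) ≤ p := by exact_mod_cast hpq
    have h4 : (p : ℝ) + 5 * q / 12 ≤ ((p + (5 * q) / 12 + 1 : ℕ) : ℝ) := by
      push_cast at h1 ⊢
      linarith
    have h5 : 0 ≤ (p : ℝ) + 5 * q / 12 := by positivity
    have h6 : ((p : ℝ) + 5 * q / 12) ^ 2 ≤ ((p + (5 * q) / 12 + 1 : ℕ) : ℝ) ^ 2 := pow_le_pow_left₀ h5 h4 2
    refine le_trans ?_ h6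
    nlinarith [mul_nonneg hq (sub_nonneg.2 hpq')]
  have hfin : (60 * ‖evC c‖) ^ 2 ≤ ((nC c : ℕ) : ℝ) ^ 2 := by
    refine hsq.trans ?_
    unfold nC
    rw [← hx, ← hy]
    split_ifs with h
    · exact key x y h
    · rw [add_comm]
      exact key y x (by omega)
  have h7 : 60 * ‖evC c‖ ≤ (nC c : ℝ) :=
    (pow_le_pow_iff_left₀ (by positivity) (Nat.cast_nonneg _) two_ne_zero).1 hfin
  linarith

/-- number of factors `u`, `conj u` -/
def du (m : Mo) : ℕ := m.1 + m.2.1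
/-- number of factors `v`, `conj v` -/
def dv (m : Mo) : ℕ := m.2.2.1 + m.2.2.2

theorem norm_evM (u v : ℂ) (m : Mo) : ‖evM u v m‖ = ‖u‖ ^ (du m) * ‖v‖ ^ (dv m) := by
  unfold evM du dv
  simp only [norm_mul, norm_pow, Complex.norm_conj, pow_add]
  ring

theorem norm_uu (A : ℂ) (t : ℝ) : ‖uu A t‖ = ‖A‖ := by unfold uu; rw [norm_mul, norm_ee, mul_one]
theorem norm_vv (B : ℂ) (t : ℝ) : ‖vv B t‖ = ‖B‖ := by unfold vv; rw [norm_mul, norm_ee, mul_one]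

/-! ### error polynomials -/

/-- value of an error polynomial, starting with the index `j` -/
noncomputable def evE (a b : ℝ) : ℕ → List ℚ → ℝ
  | _, [] => 0
  | j, q :: E => |(q : ℝ)| * (a ^ (8 - j) * b ^ j) + evE a b (j + 1) E

theorem evE_nonneg {a b : ℝ} (ha : 0 ≤ a) (hb : 0 ≤ b) : ∀ (j : ℕ) (E : List ℚ), 0 ≤ evE a b j E
  | _, [] => le_refl _
  | j, q :: E => by
    rw [evE]
    have := evE_nonneg ha hb (j + 1) E
    positivity

/-- sum -/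
def addE : List ℚ → List ℚ → List ℚ
  | [], F => F
  | E, [] => E
  | p :: E, q :: F => (p + q) :: addE E F

theorem evE_add {a b : ℝ} (ha : 0 ≤ a) (hb : 0 ≤ b) : ∀ (j : ℕ) (E F : List ℚ),
    (∀ x ∈ E, 0 ≤ x) → (∀ x ∈ F, 0 ≤ x) → evE a b j (addE E F) = evE a b j E + evE a b j F
  | j, [], F, _, _ => by simp [addE, evE]
  | j, p :: E, [], _, _ => by simp [addE, evE]
  | j, p :: E, q :: F, hE, hF => by
    have hp : (0 : ℝ) ≤ (p : ℝ) := by exact_mod_cast hE p (by simp)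
    have hq : (0 : ℝ) ≤ (q : ℝ) := by exact_mod_cast hF q (by simp)
    rw [addE, evE, evE, evE, evE_add ha hb (j + 1) E F (fun x hx => hE x (by simp [hx]))
      (fun x hx => hF x (by simp [hx]))]
    push_cast
    rw [abs_of_nonneg (add_nonneg hp hq), abs_of_nonneg hp, abs_of_nonneg hq]
    ring

theorem evE_le_add {a b : ℝ} (ha : 0 ≤ a) (hb : 0 ≤ b) : ∀ (j : ℕ) (E F : List ℚ),
    (∀ x ∈ E, 0 ≤ x) → (∀ x ∈ F, 0 ≤ x) → evE a b j E + evE a b j F ≤ evE a b j (addE E F) :=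
  fun j E F hE hF => (evE_add ha hb j E F hE hF).ge

theorem addE_nonneg : ∀ (E F : List ℚ), (∀ x ∈ E, 0 ≤ x) → (∀ x ∈ F, 0 ≤ x) → ∀ x ∈ addE E F, 0 ≤ x
  | [], F, _, hF => by simpa [addE] using hF
  | p :: E, [], hE, _ => by simpa [addE] using hE
  | p :: E, q :: F, hE, hF => by
    intro x hx
    rw [addE, List.mem_cons] at hx
    rcases hx with h | h
    · rw [h]
      exact add_nonneg (hE p (by simp)) (hF q (by simp))
    · exact addE_nonneg E F (fun x hx => hE x (by simp [hx])) (fun x hx => hF x (by simp [hx])) x h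

/-- multiple -/
def smE (c : ℚ) (E : List ℚ) : List ℚ := E.map fun x => c * x

theorem evE_sm {a b : ℝ} (c : ℚ) (hc : 0 ≤ c) : ∀ (j : ℕ) (E : List ℚ), evE a b j (smE c E) = c * evE a b j E
  | _, [] => by simp [smE, evE]
  | j, q :: E => by
    have h := evE_sm (a := a) (b := b) c hc (j + 1) E
    unfold smE at h ⊢
    rw [List.map_cons, evE, evE, h]
    push_cast
    have hc' : (0 : ℝ) ≤ (c : ℝ) := by exact_mod_cast hc
    rw [abs_mul, abs_of_nonneg hc']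
    ring

theorem smE_nonneg (c : ℚ) (hc : 0 ≤ c) (E : List ℚ) (h : ∀ x ∈ E, 0 ≤ x) : ∀ x ∈ smE c E, 0 ≤ x := by
  intro x hx
  unfold smE at hx
  obtain ⟨y, hy, rfl⟩ := List.mem_map.1 hx
  exact mul_nonneg hc (h y hy)

/-- one term -/
def unE (j : ℕ) (q : ℚ) : List ℚ := List.replicate j 0 ++ [q]

theorem evE_rep {a b : ℝ} (q : ℚ) : ∀ n j : ℕ, evE a b j (List.replicate n 0 ++ [q]) =
    |(q : ℝ)| * (a ^ (8 - (j + n)) * b ^ (j + n))
  | 0, j => by simp [evE]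
  | n + 1, j => by
    rw [List.replicate_succ, List.cons_append, evE, evE_rep q n (j + 1)]
    simp only [Rat.cast_zero, abs_zero, zero_mul, zero_add]
    rw [show j + 1 + n = j + (n + 1) by ring]

theorem evE_un {a b : ℝ} (j : ℕ) (q : ℚ) : evE a b 0 (unE j q) = |(q : ℝ)| * (a ^ (8 - j) * b ^ j) := by
  unfold unE
  rw [evE_rep, zero_add]

theorem unE_nonneg (j : ℕ) (q : ℚ) (hq : 0 ≤ q) : ∀ x ∈ unE j q, 0 ≤ x := by
  intro x hx
  unfold unE at hx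
  rw [List.mem_append] at hx
  rcases hx with h | h
  · rw [List.mem_replicate] at h
    rw [h.2]
  · rw [List.mem_singleton] at h
    rw [h]; exact hq

/-- a monomial `q a^i b^j` of degree `≥ 8` -/
def redE (i j : ℕ) (q : ℚ) : List ℚ :=
  if i + j - 8 ≤ i then unE j (q / 4 ^ (i + j - 8)) else unE 8 (q / 4 ^ i / 8 ^ (i + j - 8 - i))

theorem redE_nonneg (i j : ℕ) (q : ℚ) (hq : 0 ≤ q) : ∀ x ∈ redE i j q, 0 ≤ x := by
  unfold redE
  split_ifs
  · exact unE_nonneg _ _ (by positivity)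
  · exact unE_nonneg _ _ (by positivity)

theorem redE_le {a b : ℝ} (ha : 0 ≤ a) (hb : 0 ≤ b) (ha1 : a ≤ 1 / 4) (hb1 : b ≤ 1 / 8) (i j : ℕ) (q : ℚ) (hq : 0 ≤ q)
    (h8 : 8 ≤ i + j) : (q : ℝ) * (a ^ i * b ^ j) ≤ evE a b 0 (redE i j q) := by
  have hq' : (0 : ℝ) ≤ (q : ℝ) := by exact_mod_cast hq
  unfold redE
  split_ifs with h
  · rw [evE_un]
    set n := i + j - 8 with hn
    have e1 : i = (8 - j) + n := by omega
    have h1 : a ^ i ≤ a ^ (8 - j) * (1 / 4) ^ n := by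
      conv_lhs => rw [e1]
      rw [pow_add]
      exact mul_le_mul_of_nonneg_left (pow_le_pow_left₀ ha ha1 n) (by positivity)
    push_cast
    rw [abs_of_nonneg (by positivity)]
    calc (q : ℝ) * (a ^ i * b ^ j) ≤ q * (a ^ (8 - j) * (1 / 4) ^ n * b ^ j) := by gcongr
      _ = (q : ℝ) / 4 ^ n * (a ^ (8 - j) * b ^ j) := by rw [one_div, inv_pow]; ring
  · rw [evE_un]
    have e1 : j = 8 + (i + j - 8 - i) := by omega
    set n := i + j - 8 - i with hn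
    have h1 : a ^ i ≤ (1 / 4) ^ i := pow_le_pow_left₀ ha ha1 i
    have h2 : b ^ j ≤ b ^ 8 * (1 / 8) ^ n := by
      conv_lhs => rw [e1]
      rw [pow_add]
      exact mul_le_mul_of_nonneg_left (pow_le_pow_left₀ hb hb1 n) (by positivity)
    push_cast
    rw [abs_of_nonneg (by positivity)]
    calc (q : ℝ) * (a ^ i * b ^ j) ≤ q * ((1 / 4) ^ i * (b ^ 8 * (1 / 8) ^ n)) := by gcongr
      _ = (q : ℝ) / 4 ^ i / 8 ^ n * (a ^ (8 - 8) * b ^ 8) := by
        rw [one_div, inv_pow, one_div, inv_pow, Nat.sub_self, pow_zero, one_mul]; ring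

/-- bound of an error polynomial by a number -/
def supE : ℕ → List ℚ → ℚ
  | _, [] => 0
  | j, q :: E => |q| / (4 ^ (8 - j) * 8 ^ j) + supE (j + 1) E

theorem supE_nonneg : ∀ (j : ℕ) (E : List ℚ), 0 ≤ supE j E
  | _, [] => le_refl _
  | j, q :: E => by
    rw [supE]
    have := supE_nonneg (j + 1) E
    positivity

theorem evE_sup {a b : ℝ} (ha : 0 ≤ a) (hb : 0 ≤ b) (ha1 : a ≤ 1 / 4) (hb1 : b ≤ 1 / 8) : ∀ (j : ℕ) (E : List ℚ),
    evE a b j E ≤ (supE j E : ℝ)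
  | _, [] => by simp [evE, supE]
  | j, q :: E => by
    rw [evE, supE]
    have h := evE_sup ha hb ha1 hb1 (j + 1) E
    push_cast
    have h1 : a ^ (8 - j) ≤ (1 / 4) ^ (8 - j) := pow_le_pow_left₀ ha ha1 _
    have h2 : b ^ j ≤ (1 / 8) ^ j := pow_le_pow_left₀ hb hb1 _
    have h3 : |(q : ℝ)| * (a ^ (8 - j) * b ^ j) ≤ |(q : ℝ)| * ((1 / 4) ^ (8 - j) * (1 / 8) ^ j) := by gcongr
    have h4 : |(q : ℝ)| * ((1 / 4) ^ (8 - j) * (1 / 8) ^ j) = |(q : ℝ)| / (4 ^ (8 - j) * 8 ^ j) := by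
      rw [one_div, inv_pow, one_div, inv_pow, div_eq_mul_inv, mul_inv]
    linarith

/-! ### products -/

/-- bound of a polynomial on the zone -/
def nP : Po → ℚ
  | [] => 0
  | x :: p => (nC x.2 : ℚ) / 60 / (4 ^ (du x.1) * 8 ^ (dv x.1)) + nP p

theorem nP_nonneg : ∀ p : Po, 0 ≤ nP p
  | [] => le_refl _
  | x :: p => by
    rw [nP]
    have := nP_nonneg p
    positivity

theorem norm_evP {u v : ℂ} (hu : ‖u‖ ≤ 1 / 4) (hv : ‖v‖ ≤ 1 / 8) : ∀ p : Po, ‖evP u v p‖ ≤ (nP p : ℝ)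
  | [] => by simp [nP]
  | x :: p => by
    rw [evP_cons, nP]
    refine (norm_add_le _ _).trans ?_
    push_cast
    refine add_le_add ?_ (norm_evP hu hv p)
    rw [norm_mul, norm_evM]
    have h1 : ‖u‖ ^ (du x.1) ≤ (1 / 4) ^ (du x.1) := pow_le_pow_left₀ (norm_nonneg _) hu _
    have h2 : ‖v‖ ^ (dv x.1) ≤ (1 / 8) ^ (dv x.1) := pow_le_pow_left₀ (norm_nonneg _) hv _
    calc ‖evC x.2‖ * (‖u‖ ^ (du x.1) * ‖v‖ ^ (dv x.1))
        ≤ (nC x.2 : ℝ) / 60 * ((1 / 4) ^ (du x.1) * (1 / 8) ^ (dv x.1)) := by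
          gcongr
          exact nC_le _
      _ = (nC x.2 : ℝ) / 60 / (4 ^ (du x.1) * 8 ^ (dv x.1)) := by
          rw [one_div, inv_pow, one_div, inv_pow, div_eq_mul_inv _ ((4 : ℝ) ^ (du x.1) * 8 ^ (dv x.1)), mul_inv]

theorem dg_eq (m : Mo) : dg m = du m + dv m := by unfold dg du dv; ring

theorem du_mul (a b : Mo) : du (mulM a b) = du a + du b := by unfold du mulM; ring
theorem dv_mul (a b : Mo) : dv (mulM a b) = dv a + dv b := by unfold dv mulM; ring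

/-- kept part of the product with a term -/
def lo1 (m : Mo) (c : Co) : Po → Po
  | [] => []
  | y :: Q => if dg m + dg y.1 ≤ 7 then (mulM m y.1, mulC c y.2) :: lo1 m c Q else lo1 m c Q

/-- error of the dropped part -/
def hi1 (m : Mo) (c : Co) : Po → List ℚ
  | [] => []
  | y :: Q => if dg m + dg y.1 ≤ 7 then hi1 m c Q
      else addE (redE (du m + du y.1) (dv m + dv y.1) ((nC c : ℚ) * (nC y.2 : ℚ) / 3600)) (hi1 m c Q)

theorem hi1_nonneg (m : Mo) (c : Co) : ∀ Q : Po, ∀ x ∈ hi1 m c Q, 0 ≤ x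
  | [] => by simp [hi1]
  | y :: Q => by
    rw [hi1]
    split_ifs
    · exact hi1_nonneg m c Q
    · exact addE_nonneg _ _ (redE_nonneg _ _ _ (by positivity)) (hi1_nonneg m c Q)

theorem lo1_le {A B : ℂ} (hA : ‖A‖ ≤ 1 / 4) (hB : ‖B‖ ≤ 1 / 8) (t : ℝ) (m : Mo) (c : Co) : ∀ Q : Po,
    ‖evC c * evM (uu A t) (vv B t) m * evP (uu A t) (vv B t) Q - evP (uu A t) (vv B t) (lo1 m c Q)‖
      ≤ evE ‖A‖ ‖B‖ 0 (hi1 m c Q)
  | [] => by simp [lo1, hi1, evE]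
  | y :: Q => by
    have ih := lo1_le hA hB t m c Q
    rw [lo1, hi1]
    split_ifs with h
    · rw [evP_cons, evP_cons, evC_mul, evM_mul]
      refine le_trans (le_of_eq ?_) ih
      congr 1
      ring
    · rw [evP_cons]
      have e : evC c * evM (uu A t) (vv B t) m * (evC y.2 * evM (uu A t) (vv B t) y.1 + evP (uu A t) (vv B t) Q)
          - evP (uu A t) (vv B t) (lo1 m c Q) =
          evC c * evC y.2 * (evM (uu A t) (vv B t) m * evM (uu A t) (vv B t) y.1) +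
          (evC c * evM (uu A t) (vv B t) m * evP (uu A t) (vv B t) Q - evP (uu A t) (vv B t) (lo1 m c Q)) := by ring
      rw [e]
      refine (norm_add_le _ _).trans ?_
      refine le_trans (add_le_add ?_ ih) (evE_le_add (norm_nonneg A) (norm_nonneg B) 0 _ _
        (redE_nonneg _ _ _ (by positivity)) (hi1_nonneg m c Q))
      rw [norm_mul, norm_mul, norm_mul, norm_evM, norm_evM, norm_uu, norm_vv]
      have h8 : 8 ≤ (du m + du y.1) + (dv m + dv y.1) := by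
        rw [dg_eq, dg_eq] at h; omega
      refine le_trans ?_ (redE_le (norm_nonneg A) (norm_nonneg B) hA hB _ _ _ (by positivity) h8)
      have h1 := nC_le c
      have h2 := nC_le y.2
      push_cast
      calc ‖evC c‖ * ‖evC y.2‖ * (‖A‖ ^ du m * ‖B‖ ^ dv m * (‖A‖ ^ du y.1 * ‖B‖ ^ dv y.1))
          ≤ ((nC c : ℝ) / 60) * ((nC y.2 : ℝ) / 60) * (‖A‖ ^ du m * ‖B‖ ^ dv m * (‖A‖ ^ du y.1 * ‖B‖ ^ dv y.1)) := by
            gcongr
        _ = (nC c : ℝ) * (nC y.2 : ℝ) / 3600 * (‖A‖ ^ (du m + du y.1) * ‖B‖ ^ (dv m + dv y.1)) := by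
            rw [pow_add, pow_add]; ring

/-- kept part of the product -/
def mulL : Po → Po → Po
  | [], _ => []
  | x :: P, Q => addP (lo1 x.1 x.2 Q) (mulL P Q)

/-- error of the product -/
def mulH : Po → Po → List ℚ
  | [], _ => []
  | x :: P, Q => addE (hi1 x.1 x.2 Q) (mulH P Q)

theorem mulH_nonneg : ∀ P Q : Po, ∀ x ∈ mulH P Q, 0 ≤ x
  | [], _ => by simp [mulH]
  | x :: P, Q => by
    rw [mulH]
    exact addE_nonneg _ _ (hi1_nonneg _ _ _) (mulH_nonneg P Q)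

theorem mulL_le {A B : ℂ} (hA : ‖A‖ ≤ 1 / 4) (hB : ‖B‖ ≤ 1 / 8) (t : ℝ) : ∀ P Q : Po,
    ‖evP (uu A t) (vv B t) P * evP (uu A t) (vv B t) Q - evP (uu A t) (vv B t) (mulL P Q)‖
      ≤ evE ‖A‖ ‖B‖ 0 (mulH P Q)
  | [], Q => by simp [mulL, mulH, evE]
  | x :: P, Q => by
    rw [evP_cons, mulL, mulH, evP_add]
    have e : (evC x.2 * evM (uu A t) (vv B t) x.1 + evP (uu A t) (vv B t) P) * evP (uu A t) (vv B t) Q
        - (evP (uu A t) (vv B t) (lo1 x.1 x.2 Q) + evP (uu A t) (vv B t) (mulL P Q)) =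
        (evC x.2 * evM (uu A t) (vv B t) x.1 * evP (uu A t) (vv B t) Q - evP (uu A t) (vv B t) (lo1 x.1 x.2 Q)) +
        (evP (uu A t) (vv B t) P * evP (uu A t) (vv B t) Q - evP (uu A t) (vv B t) (mulL P Q)) := by ring
    rw [e]
    exact (norm_add_le _ _).trans ((add_le_add (lo1_le hA hB t x.1 x.2 Q) (mulL_le hA hB t P Q)).trans
      (evE_le_add (norm_nonneg A) (norm_nonneg B) 0 _ _ (hi1_nonneg _ _ _) (mulH_nonneg P Q)))

/-! ### Taylor models -/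

/-- polynomial, denominator, error -/
structure TM where
  L : Po
  D : ℕ
  E : List ℚ

/-- `F` is modelled by `T` -/
structure Tm (A B : ℂ) (F : ℝ → ℂ) (T : TM) : Prop where
  D : 0 < T.D
  E : ∀ x ∈ T.E, 0 ≤ x
  h : ∀ t, ‖F t - evP (uu A t) (vv B t) T.L / T.D‖ ≤ evE ‖A‖ ‖B‖ 0 T.E

variable {A B : ℂ} {F G : ℝ → ℂ} {S T : TM}

/-- exact polynomial -/
def TM.ex (L : Po) (D : ℕ) : TM := ⟨L, D, []⟩

theorem Tm.ex (A B : ℂ) (L : Po) (D : ℕ) (hD : 0 < D) : Tm A B (fun t => evP (uu A t) (vv B t) L / D) (TM.ex L D) := by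
  refine ⟨hD, by simp [TM.ex], fun t => ?_⟩
  simp [TM.ex, evE]

/-- sum of models -/
def TM.add (S T : TM) : TM :=
  if S.D = T.D then ⟨addP S.L T.L, S.D, addE S.E T.E⟩
  else ⟨addP (smP ((T.D : ℤ), 0) S.L) (smP ((S.D : ℤ), 0) T.L), S.D * T.D, addE S.E T.E⟩

theorem Tm.add (hF : Tm A B F S) (hG : Tm A B G T) : Tm A B (fun t => F t + G t) (S.add T) := by
  have hS : ((S.D : ℕ) : ℂ) ≠ 0 := by exact_mod_cast hF.D.ne'
  have hT : ((T.D : ℕ) : ℂ) ≠ 0 := by exact_mod_cast hG.D.ne'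
  have hb : ∀ t, ‖F t + G t - (evP (uu A t) (vv B t) S.L / S.D + evP (uu A t) (vv B t) T.L / T.D)‖ ≤
      evE ‖A‖ ‖B‖ 0 (addE S.E T.E) := by
    intro t
    have e : F t + G t - (evP (uu A t) (vv B t) S.L / S.D + evP (uu A t) (vv B t) T.L / T.D) =
        (F t - evP (uu A t) (vv B t) S.L / S.D) + (G t - evP (uu A t) (vv B t) T.L / T.D) := by ring
    rw [e]
    exact (norm_add_le _ _).trans ((add_le_add (hF.h t) (hG.h t)).trans
      (evE_le_add (norm_nonneg A) (norm_nonneg B) 0 _ _ hF.E hG.E))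
  unfold TM.add
  split_ifs with h
  · refine ⟨hF.D, addE_nonneg _ _ hF.E hG.E, fun t => ?_⟩
    refine le_trans (le_of_eq ?_) (hb t)
    rw [evP_add, ← h]
    congr 1
    field_simp
  · refine ⟨Nat.mul_pos hF.D hG.D, addE_nonneg _ _ hF.E hG.E, fun t => ?_⟩
    refine le_trans (le_of_eq ?_) (hb t)
    simp only
    rw [evP_add, evP_sm, evP_sm, evC_int, evC_int]
    congr 1
    push_cast
    field_simp

/-- multiple by `c / d` -/
def TM.sm (c : Co) (d : ℕ) (T : TM) : TM := ⟨smP c T.L, d * T.D, smE ((nC c : ℚ) / 60 / d) T.E⟩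

theorem Tm.sm (c : Co) (d : ℕ) (hd : 0 < d) (hF : Tm A B F T) : Tm A B (fun t => evC c / d * F t) (T.sm c d) := by
  have hT : ((T.D : ℕ) : ℂ) ≠ 0 := by exact_mod_cast hF.D.ne'
  have hd' : ((d : ℕ) : ℂ) ≠ 0 := by exact_mod_cast hd.ne'
  refine ⟨Nat.mul_pos hd hF.D, smE_nonneg _ (by positivity) _ hF.E, fun t => ?_⟩
  unfold TM.sm
  simp only
  rw [evP_sm, evE_sm _ (by positivity)]
  have e : evC c / d * F t - evC c * evP (uu A t) (vv B t) T.L / ((d * T.D : ℕ) : ℂ) =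
      evC c / d * (F t - evP (uu A t) (vv B t) T.L / T.D) := by
    push_cast
    field_simp
  rw [e, norm_mul, norm_div, Complex.norm_natCast]
  push_cast
  refine mul_le_mul ?_ (hF.h t) (norm_nonneg _) (by positivity)
  have := nC_le c
  gcongr

/-- conjugate -/
def TM.cj (T : TM) : TM := ⟨cjP T.L, T.D, T.E⟩

theorem Tm.cj (hF : Tm A B F T) : Tm A B (fun t => (starRingEnd ℂ) (F t)) T.cj := by
  refine ⟨hF.D, hF.E, fun t => ?_⟩
  unfold TM.cj
  simp only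
  rw [evP_cj]
  refine le_trans (le_of_eq ?_) (hF.h t)
  rw [← Complex.norm_conj]
  congr 1
  simp

/-- product -/
def TM.mul (S T : TM) : TM :=
  ⟨mulL S.L T.L, S.D * T.D, addE (smE (1 / (S.D * T.D : ℚ)) (mulH S.L T.L))
    (addE (smE (nP T.L / T.D + supE 0 T.E) S.E) (smE (nP S.L / S.D) T.E))⟩

theorem Tm.mul (hA : ‖A‖ ≤ 1 / 4) (hB : ‖B‖ ≤ 1 / 8) (hF : Tm A B F S) (hG : Tm A B G T) :
    Tm A B (fun t => F t * G t) (S.mul T) := by
  have hSD : (0 : ℝ) < S.D := by exact_mod_cast hF.D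
  have hTD : (0 : ℝ) < T.D := by exact_mod_cast hG.D
  have hS : ((S.D : ℕ) : ℂ) ≠ 0 := by exact_mod_cast hF.D.ne'
  have hT : ((T.D : ℕ) : ℂ) ≠ 0 := by exact_mod_cast hG.D.ne'
  have n1 : ∀ x ∈ smE (1 / (S.D * T.D : ℚ)) (mulH S.L T.L), 0 ≤ x :=
    smE_nonneg _ (by positivity) _ (mulH_nonneg _ _)
  have n2 : ∀ x ∈ smE (nP T.L / T.D + supE 0 T.E) S.E, 0 ≤ x :=
    smE_nonneg _ (by have := nP_nonneg T.L; have := supE_nonneg 0 T.E; positivity) _ hF.E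
  have n3 : ∀ x ∈ smE (nP S.L / S.D) T.E, 0 ≤ x :=
    smE_nonneg _ (by have := nP_nonneg S.L; positivity) _ hG.E
  refine ⟨Nat.mul_pos hF.D hG.D, addE_nonneg _ _ n1 (addE_nonneg _ _ n2 n3), fun t => ?_⟩
  unfold TM.mul
  simp only
  rw [evE_add (norm_nonneg A) (norm_nonneg B) 0 _ _ n1 (addE_nonneg _ _ n2 n3),
    evE_add (norm_nonneg A) (norm_nonneg B) 0 _ _ n2 n3, evE_sm _ (by positivity),
    evE_sm _ (by have := nP_nonneg T.L; have := supE_nonneg 0 T.E; positivity),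
    evE_sm _ (by have := nP_nonneg S.L; positivity)]
  set p := evP (uu A t) (vv B t) S.L with hp
  set q := evP (uu A t) (vv B t) T.L with hq
  have e : F t * G t - evP (uu A t) (vv B t) (mulL S.L T.L) / ((S.D * T.D : ℕ) : ℂ) =
      (p * q - evP (uu A t) (vv B t) (mulL S.L T.L)) / ((S.D : ℂ) * (T.D : ℂ)) + (F t - p / S.D) * G t
        + p / S.D * (G t - q / T.D) := by
    push_cast
    field_simp
    ring
  have hu : ‖uu A t‖ ≤ 1 / 4 := by rw [norm_uu]; exact hA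
  have hv : ‖vv B t‖ ≤ 1 / 8 := by rw [norm_vv]; exact hB
  have hpn : ‖p / S.D‖ ≤ (nP S.L : ℝ) / S.D := by
    rw [norm_div, Complex.norm_natCast]
    exact div_le_div_of_nonneg_right (norm_evP hu hv _) hSD.le
  have hGn : ‖G t‖ ≤ (nP T.L : ℝ) / T.D + supE 0 T.E := by
    have h1 : G t = q / T.D + (G t - q / T.D) := by ring
    rw [h1]
    refine (norm_add_le _ _).trans (add_le_add ?_ ((hG.h t).trans (evE_sup (norm_nonneg A) (norm_nonneg B) hA hB 0 _)))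
    rw [norm_div, Complex.norm_natCast]
    exact div_le_div_of_nonneg_right (norm_evP hu hv _) hTD.le
  rw [e]
  refine (norm_add₃_le).trans ?_
  have k1 : ‖(p * q - evP (uu A t) (vv B t) (mulL S.L T.L)) / ((S.D : ℂ) * (T.D : ℂ))‖ ≤
      ((1 / (S.D * T.D : ℚ) : ℚ) : ℝ) * evE ‖A‖ ‖B‖ 0 (mulH S.L T.L) := by
    rw [norm_div, norm_mul, Complex.norm_natCast, Complex.norm_natCast]
    push_cast
    rw [div_eq_inv_mul, one_div]
    exact mul_le_mul_of_nonneg_left (mulL_le hA hB t S.L T.L) (by positivity)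
  have k2 : ‖(F t - p / S.D) * G t‖ ≤ ((nP T.L / T.D + supE 0 T.E : ℚ) : ℝ) * evE ‖A‖ ‖B‖ 0 S.E := by
    rw [norm_mul, mul_comm]
    push_cast
    exact mul_le_mul hGn (hF.h t) (norm_nonneg _) ((norm_nonneg _).trans hGn)
  have k3 : ‖p / S.D * (G t - q / T.D)‖ ≤ ((nP S.L / S.D : ℚ) : ℝ) * evE ‖A‖ ‖B‖ 0 T.E := by
    rw [norm_mul]
    push_cast
    exact mul_le_mul hpn (hG.h t) (norm_nonneg _) ((norm_nonneg _).trans hpn)
  linarith

/-- the model of the even part of `Ph (p/2) (q/2)` -/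
def TM.ph (Z : Po) (p q : ℤ) (G : ℚ) : TM :=
  ⟨sumS Z p q 0 8 8, 16 ^ 8, [G, 12 * G, 63 * G, 189 * G, 2835 / 8 * G, 1701 / 4 * G, 5103 / 16 * G, 2187 / 16 * G,
    6561 / 256 * G]⟩

/-- the checks -/
def chkP (p q : ℤ) (G : ℚ) : Bool :=
  decide (0 ≤ G) && decide (|(p : ℚ) / 2| ≤ 11 / 2) && decide (|(q : ℚ) / 2| ≤ 11 / 2)
  && chkE ((p : ℚ) / 2) ((q : ℚ) / 2) G 8 && chkB p 8 && chkB q 8

theorem Tm.ph (A B : ℂ) (Z : Po) (p q : ℤ) (G : ℚ) (hc : chkP p q G = true)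
    (hZ : ∀ t, ‖evP (uu A t) (vv B t) Z / 4‖ ≤ ‖A‖ + 3 / 2 * ‖B‖) (hZ1 : ‖A‖ + 3 / 2 * ‖B‖ ≤ 2 / 5) :
    Tm A B (fun t => pp 0 ((p : ℝ) / 2) ((q : ℝ) / 2) (evP (uu A t) (vv B t) Z / 4)) (TM.ph Z p q G) := by
  unfold chkP at hc
  simp only [Bool.and_eq_true, decide_eq_true_eq] at hc
  obtain ⟨⟨⟨⟨⟨hG, hp⟩, hq⟩, hE⟩, hbp⟩, hbq⟩ := hc
  refine ⟨by unfold TM.ph; positivity, ?_, fun t => ?_⟩
  · unfold TM.ph
    intro x hx
    simp only [List.mem_cons, List.not_mem_nil, or_false] at hx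
    rcases hx with h | h | h | h | h | h | h | h | h <;> rw [h] <;> positivity
  · set ζ := evP (uu A t) (vv B t) Z / 4 with hζ
    have hr := pp_rem ((p : ℚ) / 2) ((q : ℚ) / 2) G 0 8 (by norm_num) (by norm_num) hp hq hE ζ ((hZ t).trans hZ1)
    have ha' : (((p : ℚ) / 2 : ℚ) : ℝ) = (p : ℝ) / 2 := by push_cast; rfl
    have hb' : (((q : ℚ) / 2 : ℚ) : ℝ) = (q : ℝ) / 2 := by push_cast; rfl
    rw [ha', hb'] at hr
    unfold TM.ph
    simp only
    rw [evP_sumS (uu A t) (vv B t) ζ Z (by rw [hζ]; ring) p q 0 8 hbp hbq 8 le_rfl]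
    have e : (16 : ℂ) ^ 8 * (∑ k ∈ (Finset.range 8).filter (fun k => k % 2 = 0), TT ((p : ℝ) / 2) ((q : ℝ) / 2) k ζ)
        / ((16 ^ 8 : ℕ) : ℂ) = ∑ k ∈ (Finset.range 8).filter (fun k => k % 2 = 0), TT ((p : ℝ) / 2) ((q : ℝ) / 2) k ζ := by
      have e9 : ((16 ^ 8 : ℕ) : ℂ) = 16 ^ 8 := by norm_num
      rw [mul_comm, mul_div_assoc, e9, div_self (pow_ne_zero _ (by norm_num)), mul_one]
    rw [e]
    refine hr.trans ?_
    have hG' : (0 : ℝ) ≤ (G : ℝ) := by exact_mod_cast hG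
    have h1 : ‖ζ‖ ^ 8 ≤ (‖A‖ + 3 / 2 * ‖B‖) ^ 8 := pow_le_pow_left₀ (norm_nonneg _) (hZ t) 8
    refine (mul_le_mul_of_nonneg_left h1 hG').trans (le_of_eq ?_)
    simp only [evE]
    push_cast
    simp only [abs_mul, abs_of_nonneg hG', abs_div]
    norm_num
    ring

/-- **mean value of a model** -/
theorem Tm.mean (hF : Tm A B F T) (hc : Continuous F) (l : ℤ) (ms : List Mo) (Q : Po)
    (hd : dels ms (fl (-l) T.L) = []) (hq : tb ms (fl (-l) T.L) = Q) :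
    ‖Cas.mean (fun t => ee ((l : ℝ) * t) * F t) - evP A B Q / T.D‖ ≤ evE ‖A‖ ‖B‖ 0 T.E := by
  have c0 : Continuous fun t : ℝ => ee ((l : ℝ) * t) := continuous_ee.comp (by fun_prop)
  have h1 : Cas.mean (fun t => ee ((l : ℝ) * t) * (evP (uu A t) (vv B t) T.L / T.D)) = evP A B Q / T.D := by
    have e : (fun t => ee ((l : ℝ) * t) * (evP (uu A t) (vv B t) T.L / T.D)) =
        fun t => (1 / T.D : ℂ) * (ee ((l : ℝ) * t) * evP (uu A t) (vv B t) T.L) := by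
      funext t; ring
    rw [e, mean_const_mul, mean_ee_evP, evP_tb A B ms _ hd, hq]
    ring
  have h2 := mean_add (F := fun t => ee ((l : ℝ) * t) * (F t - evP (uu A t) (vv B t) T.L / T.D))
    (G := fun t => ee ((l : ℝ) * t) * (evP (uu A t) (vv B t) T.L / T.D))
    (c0.mul (hc.sub ((cont_evP A B T.L).div_const _))) (c0.mul ((cont_evP A B T.L).div_const _))
  have e2 : (fun t => ee ((l : ℝ) * t) * (F t - evP (uu A t) (vv B t) T.L / T.D)
      + ee ((l : ℝ) * t) * (evP (uu A t) (vv B t) T.L / T.D)) = fun t => ee ((l : ℝ) * t) * F t := by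
    funext t; ring
  rw [e2] at h2
  rw [h2, h1, add_sub_cancel_right]
  refine mean_norm fun t => ?_
  rw [norm_mul, norm_ee, one_mul]
  exact hF.h t

end Pool.Agent.Helper35.Cas
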