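import Pool.Agent.Helper26.SH.TailG

/-!
# Project RC, SHARP, zone I: the tail `l ≥ 12` of the linear part, with finitely many exact rows of `hK`
-/

set_option autoImplicit false

open MeasureTheory Set Filter Topology

namespace Pool.Agent.Helper35.TL

open Helper49.LT hiding sg
open Helper49.RC (om)
open Helper49.Sharp
open Helper56.RC (fc)
open Helper87.RC (BM fc_conj pars fc_add fc_sub fc_cmul)
open Pool.Agent.Helper20.RC (lk lk_ge lk_sq eM DensI)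
open Pool.Agent.Helper43.SH
open Pool.Agent.Helper17.RC (WOK eM_tail mY mX mY_add_mX)
open Pool.Agent.Helper33.GL (TailL RB)
open Pool.Agent.Helper26.SH

/-- the part of `hK` in the row `k` -/
noncomputable def XK (β : ℝ → ℂ) (k : ℕ) : ℂ := ((lk k ^ 2 - 1 : ℝ) : ℂ) * hK β k

/-- the part of `eR` in the row `k` -/
noncomputable def YK (P : Par) (β ρ : ℝ → ℂ) (k : ℕ) : ℂ := ((P.nu / 2 : ℝ) : ℂ) * eR P β ρ k

theorem split_fin {x y q δ : ℕ → ℂ} {d : ℕ → ℝ} {T T' R R' : ℝ} (S : Finset ℕ) (hd : ∀ k, 0 < d k) (hT : 0 ≤ T)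
    (hT' : 0 ≤ T') (hR : 0 ≤ R) (hR' : 0 ≤ R')
    (h1 : ∑ k ∈ S, (‖q k‖ / Real.sqrt (d k)) ^ 2 ≤ T ^ 2) (h2 : ∑ k ∈ S, (‖δ k‖ / Real.sqrt (d k)) ^ 2 ≤ T' ^ 2)
    (h3 : ∑ k ∈ S, (‖y k‖ / Real.sqrt (d k)) ^ 2 ≤ R ^ 2) (h4 : ∑ k ∈ S, (‖x k‖ / Real.sqrt (d k)) ^ 2 ≤ R' ^ 2) :
    ∑ k ∈ S, |((starRingEnd ℂ) (δ k) * x k).re / d k - ((starRingEnd ℂ) (q k) * y k).re / d k| ≤ T' * R' + T * R := by
  have h5 := fcs S _ _ hT' hR' h2 h4
  have h6 := fcs S _ _ hT hR h1 h3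
  have key : ∀ (a b : ℂ) (k : ℕ), |((starRingEnd ℂ) a * b).re / d k| ≤
      ‖a‖ / Real.sqrt (d k) * (‖b‖ / Real.sqrt (d k)) := by
    intro a b k
    have hpos := hd k
    rw [abs_div, abs_of_pos hpos, div_mul_div_comm, Real.mul_self_sqrt hpos.le]
    refine div_le_div_of_nonneg_right ?_ hpos.le
    refine (Complex.abs_re_le_norm _).trans (le_of_eq ?_)
    rw [norm_mul, RCLike.norm_conj]
  refine (Finset.sum_le_sum fun k _ => (abs_sub _ _).trans (add_le_add (key _ _ k) (key _ _ k))).trans ?_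
  rw [Finset.sum_add_distrib]
  exact add_le_add h5 h6

/-- **THE TAIL WITH EXACT ROWS** -/
theorem tail_split {P : Par} {bs zs β ρ : ℝ → ℂ} {a b x y : ℝ} {D1 D2 : ℝ → ℝ} (hR : RB β ρ)
    (w : WOK P.ph1 P.ph2 D1 D2 a b) (hν : P.nu = 1 / 12) (hg : P.ga = fun _ => 0) (hx : 0 ≤ x) (hy : 0 ≤ y)
    (hbx : b ≤ 352 * x ^ 2) (hby : b ≤ 159 * y ^ 2) {T T' : ℝ} (hT : 0 ≤ T) (hT' : 0 ≤ T')
    (hq : ∀ n : ℕ, ∑ k ∈ Finset.range n, ‖qB P bs zs (k + 5)‖ ^ 2 / (lk (k + 5) ^ 2 - 1) ≤ T ^ 2)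
    (qh : ℕ → ℂ) (N : ℕ) (h0 : ∀ k, N ≤ k → qh k = 0)
    (hq' : ∀ n : ℕ, ∑ k ∈ Finset.range n, ‖qB P bs zs (k + 5) - qh k‖ ^ 2 / (lk (k + 5) ^ 2 - 1) ≤ T' ^ 2) :
    |TailL P bs zs β ρ
      - -48 * ∑ k ∈ Finset.range N, ((starRingEnd ℂ) (qh k) * XK β (k + 5)).re / (lk (k + 5) ^ 2 - 1)| ≤
      48 * (T' * (3 / 50 * Np (fun t => (β t).re) + 71 / 200 * Np (fun t => (β t).im))
        + T * (x * N2 (fun t => (β t).re) + y * N2 (fun t => (β t).im) + x * N2 (fun t => ‖ρ t‖))) := by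
  obtain ⟨C, h⟩ := hR.bb
  obtain ⟨C', k⟩ := hR.br
  have pβ := Pool.Agent.Helper26.SH.per2 hR.pb
  have pρ := Pool.Agent.Helper26.SH.per2n hR.pr
  have n2 := N2_nonneg fun t => (β t).re
  have n3 := N2_nonneg fun t => (β t).im
  have n4 := N2_nonneg fun t => ‖ρ t‖
  have n5 : 0 ≤ Np fun t => (β t).re := N2_nonneg _
  have n6 : 0 ≤ Np fun t => (β t).im := N2_nonneg _
  set RH := 3 / 50 * Np (fun t => (β t).re) + 71 / 200 * Np (fun t => (β t).im) with hRH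
  set RE := x * N2 (fun t => (β t).re) + y * N2 (fun t => (β t).im) + x * N2 (fun t => ‖ρ t‖) with hRE
  have r1 : 0 ≤ RH := by positivity
  have r2 : 0 ≤ RE := by positivity
  -- terms
  set f : ℕ → ℝ := fun j => ((starRingEnd ℂ) (qB P bs zs (j + 5) - qh j) * XK β (j + 5)).re / (lk (j + 5) ^ 2 - 1)
    - ((starRingEnd ℂ) (qB P bs zs (j + 5)) * YK P β ρ (j + 5)).re / (lk (j + 5) ^ 2 - 1) with hf
  set g : ℕ → ℝ := fun j => ((starRingEnd ℂ) (qh j) * XK β (j + 5)).re / (lk (j + 5) ^ 2 - 1) with hgg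
  have et : ∀ j, trm P bs zs β ρ (j + 5) = -48 * f j + -48 * g j := by
    intro j
    rw [trm_eq bs zs β ρ (by rw [hν]; norm_num) hg, hν, hf, hgg]
    have e1 : qR P β ρ (j + 5) = XK β (j + 5) - YK P β ρ (j + 5) := rfl
    rw [e1]
    simp only [map_sub, mul_sub, sub_mul, Complex.sub_re]
    ring
  have sq : ∀ (u : ℕ → ℂ) (n : ℕ), ∑ j ∈ Finset.range n, (‖u j‖ / Real.sqrt (lk (j + 5) ^ 2 - 1)) ^ 2 =
      ∑ j ∈ Finset.range n, ‖u j‖ ^ 2 / (lk (j + 5) ^ 2 - 1) := fun u n =>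
    Finset.sum_congr rfl fun j _ => by rw [div_pow, Real.sq_sqrt (lk_sq _).le]
  have hfin : ∀ n : ℕ, ∑ j ∈ Finset.range n, |f j| ≤ T' * RH + T * RE := by
    intro n
    have m5 : ∀ k ∈ (Finset.range n).map (addRightEmbedding 5), 5 ≤ k := fun k hk => by
      rw [Finset.mem_map] at hk
      obtain ⟨j, _, rfl⟩ := hk
      show 5 ≤ j + 5
      omega
    have a1 := rest_H h ((Finset.range n).map (addRightEmbedding 5)) m5
    have a2 := rest_e h k pβ pρ w hν hx hy hbx hby ((Finset.range n).map (addRightEmbedding 5)) m5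
    rw [Finset.sum_map] at a1 a2
    have a3 : ∑ j ∈ Finset.range n, (‖YK P β ρ (j + 5)‖ / Real.sqrt (lk (j + 5) ^ 2 - 1)) ^ 2 ≤ RE ^ 2 := by
      refine le_trans (le_of_eq (Finset.sum_congr rfl fun j _ => ?_)) a2
      unfold YK
      rw [norm_mul, Complex.norm_real, Real.norm_eq_abs, abs_of_nonneg (by rw [hν]; norm_num)]
      rfl
    exact split_fin (Finset.range n) (fun j => lk_sq (j + 5)) hT hT' r2 r1 ((sq _ n).trans_le (hq n))
      ((sq _ n).trans_le (hq' n)) a3 a1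
  have hs : Summable fun j : ℕ => |f j| := summable_of_sum_range_le (fun j => abs_nonneg _) hfin
  have hs' : Summable f := hs.of_abs
  have sg : Summable g := summable_of_ne_finset_zero (s := Finset.range N) (fun j hj => by
    rw [Finset.mem_range, not_lt] at hj
    simp only [hgg]
    rw [h0 j hj, map_zero, zero_mul, Complex.zero_re, zero_div])
  have e2 : ∑' j : ℕ, g j = ∑ j ∈ Finset.range N, g j := tsum_eq_sum (fun j hj => by
    rw [Finset.mem_range, not_lt] at hj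
    simp only [hgg]
    rw [h0 j hj, map_zero, zero_mul, Complex.zero_re, zero_div])
  have e3 : TailL P bs zs β ρ = -48 * ∑' j, f j + -48 * ∑ j ∈ Finset.range N, g j := by
    rw [tailL_eq bs zs β ρ hg, ← e2, ← tsum_mul_left, ← tsum_mul_left,
      ← (hs'.mul_left (-48)).tsum_add (sg.mul_left (-48))]
    exact tsum_congr et
  rw [e3, add_sub_cancel_right, abs_mul]
  have e4 : |(-48 : ℝ)| = 48 := by norm_num
  rw [e4]
  refine mul_le_mul_of_nonneg_left ?_ (by norm_num)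
  have h5 : |∑' j : ℕ, f j| ≤ ∑' j : ℕ, |f j| := by
    have := norm_tsum_le_tsum_norm (f := f) (by simpa only [Real.norm_eq_abs] using hs)
    simpa only [Real.norm_eq_abs] using this
  exact h5.trans (Real.tsum_le_of_sum_range_le (fun j => abs_nonneg _) hfin)

end Pool.Agent.Helper35.TL
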