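import Pool.Agent.Helper35.SH.VM
import Pool.Agent.Helper27.SH.Fin

/-!
# Project RC, SHARP, zone I: the value of the certificate at the base, without the shift form
-/

set_option autoImplicit false

open MeasureTheory Set Filter Metric

namespace Pool.Agent.Helper35.Cas

open Helper49.LT hiding sg
open Helper49.RC (om)
open Helper44.GQ
open Helper49.Sharp hiding mean
open Helper56.RC (fc)
open Helper87.RC (BM)
open Pool.Agent.Helper35.RC
open Pool.Agent.Helper20.RC (eM lk L1)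
open Pool.Agent.Helper17.RC (qr)
open Pool.Agent.Helper33.SH (PI ZC z0I b0I)
open Pool.Agent.Helper33.GM (mul1 mulR abP evR_mul1 evR_mulR evR_append evR_nil evR_cons norm_evP_le leR leR_ok)
open Helper27.SH (P2 evR)

/-- the terms of the value, denominator `1081080 DC²` -/
def VC : List (ℤ × Po) :=
  [(13614015886135242793659924480, sqP SG), (27228031772270485587319848960000, mulP (cjP SG) EL),
   (113336795588871485128704, cmb L1c), (148582503819509760, mulP (fl 0 AL) E0),
   (-188396197438693943875783498924032000, [((2, 2, 2, 2), (1, 0))]),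
   (-15015, sqP (smP (-1, 0) E2)), (-3003, sqP (QC 1 E4)), (-1287, sqP (QC 2 E6)), (-715, sqP (QC 3 E8)),
   (-455, sqP (QC 4 E10)), (99055002546339840000, TTL), (178173432909794990062024261632, fl 0 WB),
   (-183789214462825777714408980480000000, one1)]

/-- the value, denominator `11608008110899200000` -/
def TOT : Po :=
  [((0, 0, 0, 0), (-46432032443596800000, 0)), ((0, 0, 1, 1), (-1741201216634880000, 0)), ((1, 1, 0, 0),
  (19269293464092672000, 0)), ((0, 0, 2, 2), (1697540017116676096, 0)), ((1, 1, 1, 1), (38328964187305279488, 0)),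
  ((2, 2, 0, 0), (18477835633217765376, 0)), ((0, 0, 3, 3), (18190607053396377600, 0)), ((1, 1, 2, 2),
  (333598971102832361472, 0)), ((2, 2, 1, 1), (89942190939948711936, 0)), ((3, 3, 0, 0), (-20874191272987852800,
  0)), ((0, 0, 4, 4), (-7166311598930964480, 0)), ((0, 5, 3, 0), (-46898927042761457664, 0)), ((1, 1, 3, 3),
  (-1235029166853868503040, 0)), ((2, 2, 2, 2), (-2821037892807065731072, 0)), ((3, 3, 1, 1),
  (803271635319281942528, 0)), ((4, 4, 0, 0), (32068206736771645440, 0)), ((5, 0, 0, 3), (-46898927042761457664,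
  0)), ((0, 0, 5, 5), (-117672851904924476160, 0)), ((0, 5, 4, 1), (35607227004525496320, 0)), ((1, 1, 4, 4),
  (2809907087913860014080, 0)), ((1, 6, 3, 0), (88545668965553479680, 0)), ((2, 2, 3, 3), (11290138852912205045760,
  0)), ((3, 3, 2, 2), (-756737506846885724160, 0)), ((4, 4, 1, 1), (5237528275561021440, 0)), ((5, 0, 1, 4),
  (35607227004525496320, 0)), ((5, 5, 0, 0), (98075259366948864000, 0)), ((6, 1, 0, 3), (88545668965553479680, 0)),
  ((0, 0, 6, 6), (-88125525079126389855, 0)), ((0, 5, 5, 2), (-94478719559395691520, 0)), ((1, 1, 5, 5),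
  (4724734015445543058960, 0)), ((1, 6, 4, 1), (79748873853929280000, 0)), ((2, 2, 4, 4), (-62380662399630765590400,
  0)), ((2, 7, 3, 0), (-98858019344830986240, 0)), ((3, 3, 3, 3), (-30462459922956464282880, 0)), ((4, 4, 2, 2),
  (15510267212976406590720, 0)), ((5, 0, 2, 5), (-94478719559395691520, 0)), ((5, 5, 1, 1),
  (-3212467846482904289280, 0)), ((6, 1, 1, 4), (79748873853929280000, 0)), ((6, 6, 0, 0), (-113432041505502720000,
  0)), ((7, 2, 0, 3), (-98858019344830986240, 0))]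

theorem TOT_ok : eqP (cmb VC) (smP (1759218604441600, 0) TOT) = true := by decide +kernel

variable (c : ZC) (A : ℝ) (B : ℂ)

/-- `2000 H_0` -/
theorem F0_ev : evP (A : ℂ) B (fl 0 AL) =
    ((2000 * (33 / 200 * A ^ 2 - 9 / 40 * ‖B‖ ^ 2 + 31 / 25 * A ^ 2 * ‖B‖ ^ 2) : ℝ) : ℂ) := by
  have e : fl 0 AL = [((1, 1, 1, 1), (2480, 0)), ((1, 1, 0, 0), (330, 0)), ((0, 0, 1, 1), (-450, 0))] := by
    decide +kernel
  rw [e]
  simp only [evP_cons, evP_nil, evC, evM, pow_zero, pow_one, Complex.conj_ofReal]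
  push_cast
  rw [show ((‖B‖ : ℂ)) ^ 2 = B * (starRingEnd ℂ) B by rw [← sq_norm_c]; push_cast; rfl]
  ring

/-- the number `H_0` -/
noncomputable def h0v (A y : ℝ) : ℝ := 33 / 200 * A ^ 2 - 9 / 40 * y ^ 2 + 31 / 25 * A ^ 2 * y ^ 2

/-- the value in terms of the pieces -/
theorem val_pieces : (evP A B TOT).re / 11608008110899200000 =
    2 / 3 * ‖(PI c A B).sig (b0I A B)‖ ^ 2
      + 4 / 3 * ((starRingEnd ℂ) ((PI c A B).sig (b0I A B)) * (PI c A B).eta).re
      + L1 (PI c A B).eta 0 0 ((PI c A B).al (b0I A B))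
      + 2 * h0v A ‖B‖ * ((evP A B E0).re / DC)
      - 6 * (31 / 25 * A ^ 2 * ‖B‖ ^ 2) ^ 2
      - (8 * (evP A B (sqP (smP (-1, 0) E2))).re + 8 / 5 * (evP A B (sqP (QC 1 E4))).re
        + 24 / 35 * (evP A B (sqP (QC 2 E6))).re + 8 / 21 * (evP A B (sqP (QC 3 E8))).re
        + 8 / 33 * (evP A B (sqP (QC 4 E10))).re) / (24 * DC) ^ 2
      + (2 * (evP A B TTL / DT).re + (9 - 11 / 40) * (evP A B (fl 0 WB) / 1000000).re) - 9 := by
  have h1 := eqP_ok TOT_ok (A : ℂ) B
  have h2 : (evP (A : ℂ) B TOT).re / 11608008110899200000 =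
      (evP (A : ℂ) B (cmb VC)).re / (1081080 * (DC : ℝ) ^ 2) := by
    rw [h1, evP_sm, evC_int, DC_valR]
    have e : (((1759218604441600 : ℤ) : ℂ) * evP (A : ℂ) B TOT).re = 1759218604441600 * (evP (A : ℂ) B TOT).re := by
      rw [show ((1759218604441600 : ℤ) : ℂ) = ((1759218604441600 : ℝ) : ℂ) by push_cast; rfl, Complex.re_ofReal_mul]
    rw [e]
    norm_num
    ring
  rw [h2, cmb_re]
  unfold VC
  simp only [List.map_cons, List.map_nil, List.sum_cons, List.sum_nil]
  have r1 : ‖(PI c A B).sig (b0I A B)‖ ^ 2 = (evP (A : ℂ) B (sqP SG)).re / 1000000 := by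
    rw [sig_ev, sqP_re, norm_div, div_pow]
    norm_num
  have r2 : ((starRingEnd ℂ) ((PI c A B).sig (b0I A B)) * (PI c A B).eta).re =
      (evP (A : ℂ) B (mulP (cjP SG) EL)).re / 1000 := by
    have h3 : (starRingEnd ℂ) (1000 : ℂ) = 1000 := Complex.conj_ofReal 1000
    have : (starRingEnd ℂ) ((PI c A B).sig (b0I A B)) * (PI c A B).eta =
        ((1 / 1000 : ℝ) : ℂ) * evP (A : ℂ) B (mulP (cjP SG) EL) := by
      rw [sig_ev, eta_ev c, evP_mul, evP_cj, map_div₀, h3]
      push_cast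
      ring
    rw [this, Complex.re_ofReal_mul]
    ring
  have r3 := L1_ev c A B
  have r4 : (evP (A : ℂ) B (mulP (fl 0 AL) E0)).re = 2000 * h0v A ‖B‖ * (evP (A : ℂ) B E0).re := by
    rw [evP_mul, F0_ev, Complex.re_ofReal_mul]
    rfl
  have r5 : (evP (A : ℂ) B [((2, 2, 2, 2), (1, 0))]).re = A ^ 4 * ‖B‖ ^ 4 := by
    have : evP (A : ℂ) B [((2, 2, 2, 2), (1, 0))] = ((A ^ 4 * ‖B‖ ^ 4 : ℝ) : ℂ) := by
      simp only [evP_cons, evP_nil, evC, evM, Complex.conj_ofReal]
      push_cast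
      rw [show ((‖B‖ : ℂ)) ^ 4 = (B * (starRingEnd ℂ) B) ^ 2 by rw [← sq_norm_c]; push_cast; ring]
      ring
    rw [this, Complex.ofReal_re]
  have r6 : (evP (A : ℂ) B TTL / DT).re = (evP (A : ℂ) B TTL).re / (3 * DC) := by
    have : evP (A : ℂ) B TTL / DT = ((1 / (3 * DC) : ℝ) : ℂ) * evP (A : ℂ) B TTL := by
      unfold DT DC
      push_cast
      ring
    rw [this, Complex.re_ofReal_mul]
    ring
  have r7 : (evP (A : ℂ) B (fl 0 WB) / 1000000).re = (evP (A : ℂ) B (fl 0 WB)).re / 1000000 := by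
    have : evP (A : ℂ) B (fl 0 WB) / 1000000 = ((1 / 1000000 : ℝ) : ℂ) * evP (A : ℂ) B (fl 0 WB) := by
      push_cast
      ring
    rw [this, Complex.re_ofReal_mul]
    ring
  have r8 : (evP (A : ℂ) B one1).re = 1 := by
    unfold one1
    simp [evP_cons, evC, evM]
  rw [r1, r2, r3, r4, r5, r6, r7, r8, DC_valR]
  push_cast
  norm_num
  ring

end Pool.Agent.Helper35.Cas
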