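import Pool.Agent.Helper35.SH.VE
import Pool.Agent.Helper43.SH.Exp

/-!
# Project RC, SHARP, zone I: (D2) at the base and the value without the shift form, as value data (`VD`)
-/

set_option autoImplicit false

open MeasureTheory Set Filter Metric

namespace Pool.Agent.Helper35.Cas

open Helper49.LT hiding sg
open Helper49.RC (om)
open Helper44.GQ
open Helper49.Sharp hiding mean
open Helper56.RC (fc)
open Helper87.RC (BM)
open Helper95.SH (Dat)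
open Pool.Agent.Helper35.RC
open Pool.Agent.Helper20.RC (eM lk L1 lk_sq)
open Pool.Agent.Helper17.RC (qr D2_sq D2_lb qr_tail qr_summable)
open Pool.Agent.Helper33.SH (PI ZC z0I b0I)
open Pool.Agent.Helper33.GM (mul1 mulR abP evR_mul1 evR_mulR evR_append evR_nil evR_cons norm_evP_le leR leR_ok)
open Helper27.SH (P2 evR VD VOK ofP ofP_le evN evN_append)
open Helper40.NR (FP evF)

variable (c : ZC) (A : ℝ) (B : ℂ)

/-- (D2) from both sides -/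
theorem D2_two (hr : (PI c A B).Reg) (ds : Dat (b0I A B) (z0I A B)) {T : ℝ}
    (hT : ∑' k : ℕ, ‖(PI c A B).eA (b0I A B) (z0I A B) (k + 5)‖ ^ 2 / (lk (k + 5) ^ 2 - 1) ≤ T) :
    -24 * ∑ k ∈ Finset.range 5, ‖qI c A B k‖ ^ 2 / (lk k ^ 2 - 1)
        - (24 * 11 * 121 / 89375 * (A ^ 2 * ‖B‖ ^ 6) + 11 / 240 * T) ≤
      D2 (PI c A B).nu (Hk ((PI c A B).dal (b0I A B))) ((PI c A B).eA (b0I A B) (z0I A B)) (PI c A B).ga ∧
    D2 (PI c A B).nu (Hk ((PI c A B).dal (b0I A B))) ((PI c A B).eA (b0I A B) (z0I A B)) (PI c A B).ga ≤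
      -24 * ∑ k ∈ Finset.range 5, ‖qI c A B k‖ ^ 2 / (lk k ^ 2 - 1) := by
  have e0 : (PI c A B).nu = 1 / 12 := rfl
  have e1 : (PI c A B).ga = fun _ => 0 := rfl
  rw [e0, e1]
  set H := Hk ((PI c A B).dal (b0I A B)) with hH
  set e := (PI c A B).eA (b0I A B) (z0I A B) with he
  obtain ⟨E, hE⟩ := Pool.Agent.Helper43.SH.dal_BMd hr ds
  have sH : Summable fun k => (lk k ^ 2 - 1) * ‖H k‖ ^ 2 := Pool.Agent.Helper17.RC.Hk_summable hE
  obtain ⟨D, h1, h2⟩ := Pool.Agent.Helper43.SH.F_BMd hr ds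
  have sE : Summable fun k => ‖e k‖ ^ 2 / (lk k ^ 2 - 1) :=
    Helper95.SH.eM_summable h1 h2 hr.mph1 hr.mph2 hr.dph1 hr.dph2
  have hν : (0 : ℝ) < 1 / 12 := by norm_num
  constructor
  · have t1 := qr_tail (ν := 1 / 12) (c := 10) (by norm_num) sH sE 5
    have t2 := D2_lb hν sH sE 5 t1
    have t3 : ∑' k : ℕ, (lk (k + 5) ^ 2 - 1) * ‖H (k + 5)‖ ^ 2 = (lk (0 + 5) ^ 2 - 1) * ‖H (0 + 5)‖ ^ 2 := by
      refine tsum_eq_single 0 fun k hk => ?_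
      rw [hH, Hk_far c A B (k + 5) (by omega), norm_zero]
      ring
    have t4 : (lk (0 + 5) ^ 2 - 1) * ‖H (0 + 5)‖ ^ 2 = 121 / 89375 * (A ^ 2 * ‖B‖ ^ 6) := by
      have h5 := H12_ev c A B
      have h6 : ‖((lk 5 ^ 2 - 1 : ℝ) : ℂ) * H 5‖ = 11 / 25 * |A| * ‖B‖ ^ 3 := by
        rw [hH, h5, norm_mul, norm_mul, norm_pow, Complex.norm_conj, Complex.norm_real, Real.norm_eq_abs]
        norm_num
      have l5 : lk 5 ^ 2 - 1 = 143 := by unfold lk; norm_num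
      rw [norm_mul, Complex.norm_real, l5] at h6
      rw [zero_add, l5]
      have h7 : ‖H 5‖ = 11 / 25 * |A| * ‖B‖ ^ 3 / 143 := by
        rw [Real.norm_of_nonneg (by norm_num)] at h6
        linarith
      rw [h7]
      have h8 : (11 / 25 * |A| * ‖B‖ ^ 3 / 143) ^ 2 = (11 / 25 / 143) ^ 2 * (|A| ^ 2 * ‖B‖ ^ 6) := by ring
      rw [h8, sq_abs]
      ring
    rw [t3, t4] at t2
    have t5 : -(2 / (1 / 12)) * (∑ k ∈ Finset.range 5, ‖qr (1 / 12) H e k‖ ^ 2 / (lk k ^ 2 - 1) +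
        ((1 + 10) * (121 / 89375 * (A ^ 2 * ‖B‖ ^ 6)) + (1 + 1 / 10) * ((1 / 12) ^ 2 / 4 *
          ∑' k : ℕ, ‖e (k + 5)‖ ^ 2 / (lk (k + 5) ^ 2 - 1)))) =
        -24 * ∑ k ∈ Finset.range 5, ‖qr (1 / 12) H e k‖ ^ 2 / (lk k ^ 2 - 1)
        - (24 * 11 * 121 / 89375 * (A ^ 2 * ‖B‖ ^ 6)
          + 11 / 240 * ∑' k : ℕ, ‖e (k + 5)‖ ^ 2 / (lk (k + 5) ^ 2 - 1)) := by ring
    rw [t5] at t2
    refine le_trans ?_ t2
    unfold qI
    linarith
  · rw [D2_sq hν]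
    have := (qr_summable (1 / 12) sH sE).sum_le_tsum (Finset.range 5)
      (fun k _ => div_nonneg (sq_nonneg _) (lk_sq k).le)
    unfold qI
    linarith

/-! ### conversion of lists -/

/-- the list in the format of the budget -/
def toZ (p : Po) : Pool.Agent.Helper40.NR.PZ :=
  p.map fun x => ((x.1.1 + x.1.2.1, x.1.2.2.1, x.1.2.2.2), (x.2.1, 0, 0, x.2.2))

theorem evP_toZ (A : ℝ) (B : ℂ) : ∀ p : Po, Pool.Agent.Helper40.NR.evP A B (toZ p) = evP (A : ℂ) B p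
  | [] => rfl
  | x :: p => by
    have e : toZ (x :: p) = ((x.1.1 + x.1.2.1, x.1.2.2.1, x.1.2.2.2), (x.2.1, 0, 0, x.2.2)) :: toZ p := rfl
    rw [e, Pool.Agent.Helper40.NR.evP_cons, evP_toZ A B p, evP_cons]
    congr 1
    unfold Pool.Agent.Helper40.NR.ev4 Pool.Agent.Helper40.NR.evM evC evM s3
    rw [Complex.conj_ofReal]
    push_cast
    ring

/-- polynomial part of the value without `NS` -/
def fLOC : FP := (11608008110899200000, toZ TOT)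

theorem fLOC_ev : (evF A B fLOC).re = (evP (A : ℂ) B TOT).re / 11608008110899200000 := by
  unfold evF fLOC
  simp only
  rw [evP_toZ]
  have : evP (A : ℂ) B TOT / ((11608008110899200000 : ℤ) : ℂ) =
      ((1 / 11608008110899200000 : ℝ) : ℂ) * evP (A : ℂ) B TOT := by
    push_cast
    ring
  rw [this, Complex.re_ofReal_mul]
  ring

/-- the error, without the tail of the moments -/
def eLOC : P2 :=
  mulR [(2, 0, 33 / 100), (0, 2, 9 / 20), (2, 2, 62 / 25)] (toR 0 (XE 0 G0)) ++ mul1 0 0 2 (toR 0 XT) ++ erH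
  ++ [(2, 6, 2904 * 11 / 89375)]

theorem abs_re_le {z w : ℂ} {δ : ℝ} (h : ‖(starRingEnd ℂ) z - w‖ ≤ δ) : |z.re - w.re| ≤ δ := by
  have := (Complex.abs_re_le_norm ((starRingEnd ℂ) z - w)).trans h
  rwa [Complex.sub_re, Complex.conj_re] at this

/-- **the value without the shift form** -/
theorem vloc_main (hpr : c.pr2 = 6) (hh : c.h0 = 33 / 200 * A ^ 2 - 9 / 40 * ‖B‖ ^ 2) (hcs : c.cs = 11 / 40)
    (hA : 0 ≤ A) (h : A + 3 / 2 * ‖B‖ ≤ 1 / 4) (hr : (PI c A B).Reg) (ds : Dat (b0I A B) (z0I A B)) {T : ℝ}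
    (hT : ∑' k : ℕ, ‖(PI c A B).eA (b0I A B) (z0I A B) (k + 5)‖ ^ 2 / (lk (k + 5) ^ 2 - 1) ≤ T) :
    |(PI c A B).EP (b0I A B) (z0I A B) - (PI c A B).NS (b0I A B) (z0I A B) - (evF A B fLOC).re|
      ≤ evR A ‖B‖ eLOC + 11 / 240 * T := by
  have nA : ‖(A : ℂ)‖ = A := by rw [Complex.norm_real, Real.norm_of_nonneg hA]
  have h' : ‖(A : ℂ)‖ + 3 / 2 * ‖B‖ ≤ 1 / 4 := by rw [nA]; exact h
  have hy := norm_nonneg B
  have k0 := abs_re_le (e0_ev c A B h')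
  have k1 := TL_main c A B h'
  have k2 := D2_rows c A B h'
  obtain ⟨k3, k4⟩ := D2_two c A B hr ds hT
  have k5 := val_pieces c A B
  have hT0 : 0 ≤ T := le_trans (tsum_nonneg fun k => div_nonneg (sq_nonneg _) (lk_sq _).le) hT
  rw [fLOC_ev, k5]
  rw [nA] at k0 k1 k2
  have e0 : (evP (A : ℂ) B E0 / DC).re = (evP (A : ℂ) B E0).re / DC := by
    have : evP (A : ℂ) B E0 / (DC : ℂ) = ((1 / (DC : ℝ) : ℝ) : ℂ) * evP (A : ℂ) B E0 := by
      push_cast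
      ring
    rw [this, Complex.re_ofReal_mul]
    ring
  rw [e0] at k0
  have e1 : (PI c A B).EP (b0I A B) (z0I A B) - (PI c A B).NS (b0I A B) (z0I A B) =
      2 / 3 * ‖(PI c A B).sig (b0I A B)‖ ^ 2
      + 4 / 3 * ((starRingEnd ℂ) ((PI c A B).sig (b0I A B)) * (PI c A B).eta).re
      + L1 (PI c A B).eta 0 0 ((PI c A B).al (b0I A B))
      + 2 * h0v A ‖B‖ * (PI c A B).e00 (b0I A B) (z0I A B) - 6 * (31 / 25 * A ^ 2 * ‖B‖ ^ 2) ^ 2
      + D2 (PI c A B).nu (Hk ((PI c A B).dal (b0I A B))) ((PI c A B).eA (b0I A B) (z0I A B)) (PI c A B).ga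
      + Helper49.Sharp.mean (fun t => (PI c A B).w t * (PI c A B).TL t (b0I A B t) (z0I A B t)) - 9 := by
    unfold Par.EP
    rw [H0_ev, show (PI c A B).pr2 = 6 from hpr, show (PI c A B).h0 = 33 / 200 * A ^ 2 - 9 / 40 * ‖B‖ ^ 2 from hh]
    unfold h0v
    ring
  rw [e1]
  unfold eLOC
  simp only [evR_append, evR_mulR, evR_mul1, evR_toR, pow_zero, mul_one]
  have hv : |h0v A ‖B‖| ≤ 33 / 200 * A ^ 2 + 9 / 40 * ‖B‖ ^ 2 + 31 / 25 * A ^ 2 * ‖B‖ ^ 2 := by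
    unfold h0v
    have p1 : 0 ≤ A ^ 2 := by positivity
    have p2 : 0 ≤ ‖B‖ ^ 2 := by positivity
    have p3 : 0 ≤ A ^ 2 * ‖B‖ ^ 2 := by positivity
    rw [abs_le]
    constructor <;> nlinarith
  have r1 : evR A ‖B‖ [(2, 0, 33 / 100), (0, 2, 9 / 20), (2, 2, 62 / 25)] =
      2 * (33 / 200 * A ^ 2 + 9 / 40 * ‖B‖ ^ 2 + 31 / 25 * A ^ 2 * ‖B‖ ^ 2) := by
    simp only [evR_cons, evR_nil]
    push_cast
    ring
  have r2 : evR A ‖B‖ [(2, 6, 2904 * 11 / 89375)] = 24 * 11 * 121 / 89375 * (A ^ 2 * ‖B‖ ^ 6) := by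
    simp only [evR_cons, evR_nil]
    push_cast
    ring
  rw [r1, r2]
  have k6 : |2 * h0v A ‖B‖ * (PI c A B).e00 (b0I A B) (z0I A B) - 2 * h0v A ‖B‖ * ((evP (A : ℂ) B E0).re / DC)| ≤
      2 * (33 / 200 * A ^ 2 + 9 / 40 * ‖B‖ ^ 2 + 31 / 25 * A ^ 2 * ‖B‖ ^ 2) * evE A ‖B‖ 0 (XE 0 G0) := by
    rw [← mul_sub, abs_mul, abs_mul, abs_of_pos (show (0 : ℝ) < 2 by norm_num)]
    exact mul_le_mul (mul_le_mul_of_nonneg_left hv (by norm_num)) k0 (abs_nonneg _) (by positivity)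
  rw [hcs] at k1
  push_cast
  rw [abs_le] at *
  constructor <;> linarith [k1.1, k1.2, k2.1, k2.2, k6.1, k6.2]

end Pool.Agent.Helper35.Cas
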