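import Pool.Agent.Helper35.SH.VL
import Pool.Agent.Helper17.RC.TailQ
import Pool.Agent.Helper33.SH.GFun

/-!
# Project RC, SHARP, zone I: the first rows of (D2) at the base
-/

set_option autoImplicit false

open MeasureTheory Set Filter Metric

namespace Pool.Agent.Helper35.Cas

open Helper49.LT hiding sg
open Helper49.RC (om)
open Helper44.GQ
open Helper49.Sharp hiding mean
open Helper56.RC (fc)
open Helper87.RC (BM)
open Pool.Agent.Helper35.RC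
open Pool.Agent.Helper20.RC (eM lk L1)
open Pool.Agent.Helper17.RC (qr)
open Pool.Agent.Helper33.SH (PI ZC z0I b0I)
open Pool.Agent.Helper33.GM (mul1 mulR abP evR_mul1 evR_mulR evR_append evR_nil evR_cons norm_evP_le leR leR_ok)
open Helper27.SH (P2 evR)

/-- homogeneous error lists of degree 8 -/
def toR : ℕ → List ℚ → P2
  | _, [] => []
  | j, q :: E => (8 - j, j, |q|) :: toR (j + 1) E

theorem evR_toR (a b : ℝ) : ∀ (j : ℕ) (E : List ℚ), evR a b (toR j E) = evE a b j E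
  | _, [] => by simp [toR, evE, evR_nil]
  | j, q :: E => by
    rw [toR, evR_cons, evE, evR_toR a b (j + 1) E]
    push_cast
    rfl

theorem row_two {q Q : ℂ} {δ : ℝ} (h : ‖(starRingEnd ℂ) q - Q‖ ≤ δ) :
    |‖q‖ ^ 2 - ‖Q‖ ^ 2| ≤ 2 * ‖Q‖ * δ + δ * δ := by
  have h0 : 0 ≤ δ := (norm_nonneg _).trans h
  have h1 : |‖(starRingEnd ℂ) q‖ - ‖Q‖| ≤ δ := (abs_norm_sub_norm_le _ _).trans h
  rw [Complex.norm_conj] at h1
  have h2 := abs_le.1 h1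
  have n1 := norm_nonneg q
  have n2 := norm_nonneg Q
  have e : ‖q‖ ^ 2 - ‖Q‖ ^ 2 = (‖q‖ - ‖Q‖) * (‖q‖ + ‖Q‖) := by ring
  rw [e, abs_mul, abs_of_nonneg (add_nonneg n1 n2)]
  have h3 : ‖q‖ + ‖Q‖ ≤ 2 * ‖Q‖ + δ := by linarith [h2.2]
  calc |‖q‖ - ‖Q‖| * (‖q‖ + ‖Q‖) ≤ δ * (2 * ‖Q‖ + δ) :=
        mul_le_mul h1 h3 (add_nonneg n1 n2) h0
    _ = 2 * ‖Q‖ * δ + δ * δ := by ring

/-- `24 DC conj q_l` -/
def QC (k : ℕ) (E : Po) : Po :=
  cmb [(824633720832 * (2 * k + 1), cjP (fl (2 * k + 2) AL)), (-(824633720832 * (2 * k + 3)), fl (-(2 * k + 2)) AL),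
    (-1, E)]

theorem cmb_ev (u v : ℂ) : ∀ L : List (ℤ × Po), evP u v (cmb L) = (L.map fun x => (x.1 : ℂ) * evP u v x.2).sum
  | [] => by simp [cmb]
  | x :: L => by
    rw [cmb, evP_add, evP_sm, evC_int, cmb_ev u v L, List.map_cons, List.sum_cons]

/-- error of one row -/
def erQ (Q : Po) (X : List ℚ) : P2 :=
  mulR (mul1 0 0 (1 / (288 * DC)) (abP Q)) (toR 0 X) ++ mul1 0 0 (1 / 576) (mulR (toR 0 X) (toR 0 X))

theorem DC_val : (DC : ℂ) = 137438953472000 := by unfold DC; norm_num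
theorem DC_valR : (DC : ℝ) = 137438953472000 := by unfold DC; norm_num

theorem erQ_ok (A B q : ℂ) (Q : Po) (X : List ℚ)
    (h : ‖(starRingEnd ℂ) q - evP A B Q / (24 * DC)‖ ≤ evE ‖A‖ ‖B‖ 0 X / 24) :
    |‖q‖ ^ 2 - (evP A B (sqP Q)).re / (24 * DC) ^ 2| ≤ evR ‖A‖ ‖B‖ (erQ Q X) := by
  have h1 := row_two h
  have hD : (0 : ℝ) < DC := by rw [DC_valR]; norm_num
  have e1 : ‖evP A B Q / (24 * DC)‖ = ‖evP A B Q‖ / (24 * DC) := by
    rw [norm_div, norm_mul, DC_val, DC_valR]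
    norm_num
  rw [sqP_re, ← div_pow, ← e1]
  refine h1.trans ?_
  unfold erQ
  rw [evR_append, evR_mulR, evR_mul1, evR_mul1, evR_mulR, evR_toR]
  have h2 := norm_evP_le A B Q
  have h3 := evE_nonneg (norm_nonneg A) (norm_nonneg B) 0 X
  rw [e1]
  push_cast
  simp only [pow_zero, mul_one]
  have h4 : 2 * (‖evP A B Q‖ / (24 * DC)) * (evE ‖A‖ ‖B‖ 0 X / 24) =
      1 / (288 * DC) * ‖evP A B Q‖ * evE ‖A‖ ‖B‖ 0 X := by
    field_simp
    ring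
  rw [h4]
  have h5 : 1 / (288 * DC) * ‖evP A B Q‖ * evE ‖A‖ ‖B‖ 0 X ≤
      1 / (288 * DC) * evR ‖A‖ ‖B‖ (abP Q) * evE ‖A‖ ‖B‖ 0 X :=
    mul_le_mul_of_nonneg_right (mul_le_mul_of_nonneg_left h2 (by positivity)) h3
  have h6 : evE ‖A‖ ‖B‖ 0 X / 24 * (evE ‖A‖ ‖B‖ 0 X / 24) = 1 / 576 * (evE ‖A‖ ‖B‖ 0 X * evE ‖A‖ ‖B‖ 0 X) := by ring
  linarith

variable (c : ZC) (A : ℝ) (B : ℂ)

/-- the linear functionals of the rows -/
noncomputable def qI (k : ℕ) : ℂ := qr (1 / 12) (Hk ((PI c A B).dal (b0I A B))) ((PI c A B).eA (b0I A B) (z0I A B)) k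

theorem qI_ev (k : ℕ) (hk : k ≠ 0) (E : Po) (X : List ℚ)
    (he : ‖(starRingEnd ℂ) ((PI c A B).eA (b0I A B) (z0I A B) k) - evP A B E / DC‖ ≤ evE ‖(A : ℂ)‖ ‖B‖ 0 X) :
    ‖(starRingEnd ℂ) (qI c A B k) - evP A B (QC k E) / (24 * DC)‖ ≤ evE ‖(A : ℂ)‖ ‖B‖ 0 X / 24 := by
  have e1 : (starRingEnd ℂ) (qI c A B k) - evP A B (QC k E) / (24 * DC) =
      -(1 / 24) * ((starRingEnd ℂ) ((PI c A B).eA (b0I A B) (z0I A B) k) - evP A B E / DC) := by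
    unfold qI qr QC
    rw [Hk_ev c A B k hk, cmb_ev]
    simp only [List.map_cons, List.map_nil, List.sum_cons, List.sum_nil, evP_cj, map_sub, map_mul, map_div₀,
      Complex.conj_ofReal, Complex.conj_conj, Complex.conj_natCast]
    have h2 : (starRingEnd ℂ) (2 : ℂ) = 2 := Complex.conj_ofReal 2
    have h3 : (starRingEnd ℂ) (2000 : ℂ) = 2000 := Complex.conj_ofReal 2000
    rw [h2, h3, DC_val]
    push_cast
    ring
  rw [e1, norm_mul]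
  have : ‖(-(1 / 24) : ℂ)‖ = 1 / 24 := by norm_num
  rw [this]
  linarith

theorem q0_ev (E : Po) (X : List ℚ)
    (he : ‖(starRingEnd ℂ) ((PI c A B).eA (b0I A B) (z0I A B) 0) - evP A B E / DC‖ ≤ evE ‖(A : ℂ)‖ ‖B‖ 0 X) :
    ‖(starRingEnd ℂ) (qI c A B 0) - evP A B (smP (-1, 0) E) / (24 * DC)‖ ≤ evE ‖(A : ℂ)‖ ‖B‖ 0 X / 24 := by
  have e1 : (starRingEnd ℂ) (qI c A B 0) - evP A B (smP (-1, 0) E) / (24 * DC) =
      -(1 / 24) * ((starRingEnd ℂ) ((PI c A B).eA (b0I A B) (z0I A B) 0) - evP A B E / DC) := by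
    unfold qI qr
    rw [Hk_zero c A B, evP_sm, evC_int, mul_zero, zero_sub, map_neg, map_mul, Complex.conj_ofReal, DC_val]
    push_cast
    ring
  rw [e1, norm_mul]
  have : ‖(-(1 / 24) : ℂ)‖ = 1 / 24 := by norm_num
  rw [this]
  linarith

/-- error of the five rows -/
def erH : P2 :=
  mul1 0 0 8 (erQ (smP (-1, 0) E2) (XE 2 G2)) ++ mul1 0 0 (8 / 5) (erQ (QC 1 E4) (XE 4 G4))
  ++ mul1 0 0 (24 / 35) (erQ (QC 2 E6) (XE 6 G6)) ++ mul1 0 0 (8 / 21) (erQ (QC 3 E8) (XE 8 G8))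
  ++ mul1 0 0 (8 / 33) (erQ (QC 4 E10) (XE 10 G10))

/-- **the five rows `l = 2, .., 10`** -/
theorem D2_rows (h : ‖(A : ℂ)‖ + 3 / 2 * ‖B‖ ≤ 1 / 4) :
    |-24 * ∑ k ∈ Finset.range 5, ‖qI c A B k‖ ^ 2 / (lk k ^ 2 - 1)
      + (8 * (evP A B (sqP (smP (-1, 0) E2))).re + 8 / 5 * (evP A B (sqP (QC 1 E4))).re
        + 24 / 35 * (evP A B (sqP (QC 2 E6))).re + 8 / 21 * (evP A B (sqP (QC 3 E8))).re
        + 8 / 33 * (evP A B (sqP (QC 4 E10))).re) / (24 * DC) ^ 2| ≤ evR ‖(A : ℂ)‖ ‖B‖ erH := by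
  have r0 := erQ_ok _ _ _ _ _ (q0_ev c A B _ _ (e2_ev c A B h))
  have r1 := erQ_ok _ _ _ _ _ (qI_ev c A B 1 (by decide) _ _ (e4_ev c A B h))
  have r2 := erQ_ok _ _ _ _ _ (qI_ev c A B 2 (by decide) _ _ (e6_ev c A B h))
  have r3 := erQ_ok _ _ _ _ _ (qI_ev c A B 3 (by decide) _ _ (e8_ev c A B h))
  have r4 := erQ_ok _ _ _ _ _ (qI_ev c A B 4 (by decide) _ _ (e10_ev c A B h))
  unfold erH
  simp only [evR_append, evR_mul1, pow_zero, mul_one]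
  rw [Finset.sum_range_succ, Finset.sum_range_succ, Finset.sum_range_succ, Finset.sum_range_succ,
    Finset.sum_range_succ, Finset.sum_range_zero]
  have l0 : lk 0 ^ 2 - 1 = 3 := by unfold lk; norm_num
  have l1 : lk 1 ^ 2 - 1 = 15 := by unfold lk; norm_num
  have l2 : lk 2 ^ 2 - 1 = 35 := by unfold lk; norm_num
  have l3 : lk 3 ^ 2 - 1 = 63 := by unfold lk; norm_num
  have l4 : lk 4 ^ 2 - 1 = 99 := by unfold lk; norm_num
  rw [l0, l1, l2, l3, l4]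
  push_cast
  set D : ℝ := (24 * (DC : ℝ)) ^ 2
  rw [abs_le] at *
  have e : ∀ x : ℝ, x / D = x * (1 / D) := fun x => by ring
  rw [e] at *
  rw [e] at r1
  constructor <;> nlinarith [r0.1, r0.2, r1.1, r1.2, r2.1, r2.2, r3.1, r3.2, r4.1, r4.2]

end Pool.Agent.Helper35.Cas
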