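import Pool.Agent.Helper35.SH.Ev

/-!
# Project RC, SHARP, zone I: the local part `2 (T1 + T2)` at the base, exact through degree 7
-/

set_option autoImplicit false

open MeasureTheory Set Filter Metric

namespace Pool.Agent.Helper35.Cas

open Helper49.LT hiding sg
open Helper49.RC (om)
open Helper44.GQ
open Helper49.Sharp hiding mean
open Pool.Agent.Helper35.RC
open Pool.Agent.Helper20.RC (eM lk)
open Pool.Agent.Helper33.SH (PI ZC z0I b0I ζ1 ζ2 Z1_eq Z2_eq Z1 Z2 norm_ζ1 norm_ζ2 norm_z0I W1 W2_eq W1_eq u1_eq u2_eq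
  om_norm)

/-- `η e^{2it}` -/
def EL : Po := [((1, 0, 0, 1), (-2, 0))]

/-- the terms of `w conj W_j g_j` -/
def Tl (k : ℤ) (be : Po) (G : ℕ → ℚ) : List It :=
  [⟨one1, 1, 1, 1, 8, 8, G 0⟩, ⟨W2, 1, 1, 1, 6, 6, G 1⟩, ⟨be, 8000, -1, 1, 6, 6, G 2⟩,
   ⟨mulP W2 be, 8000, -1, 1, 4, 4, G 3⟩, ⟨smP (om2 (-k)) (cjP EL), 6, -1, 3, 6, 6, G 4⟩,
   ⟨mulP W2 (smP (om2 (-k)) (cjP EL)), 6, -1, 3, 4, 4, G 5⟩,
   ⟨mulP (smP (om2 (-k)) (cjP EL)) be, 48000, -3, 3, 4, 4, G 6⟩,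
   ⟨mulP W2 (mulP (smP (om2 (-k)) (cjP EL)) be), 48000, -3, 3, 2, 2, G 7⟩,
   ⟨smP (-1, 0) (smP (om2 k) EL), 2, 3, -1, 6, 6, G 8⟩,
   ⟨mulP W2 (smP (-1, 0) (smP (om2 k) EL)), 2, 3, -1, 4, 4, G 9⟩,
   ⟨mulP (smP (-1, 0) (smP (om2 k) EL)) be, 16000, 1, -1, 4, 4, G 10⟩,
   ⟨mulP W2 (mulP (smP (-1, 0) (smP (om2 k) EL)) be), 16000, 1, -1, 2, 2, G 11⟩]

/-- the value -/
noncomputable def tden (w e o oc ζ β : ℂ) : ℂ :=
  w * (Ph (1 / 2) (1 / 2) ζ + β * Ph (-1 / 2) (1 / 2) ζ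
    + (starRingEnd ℂ) e / 3 * oc * (Ph (-1 / 2) (3 / 2) ζ + β * Ph (-3 / 2) (3 / 2) ζ)
    - e * o * (Ph (3 / 2) (-1 / 2) ζ + β * Ph (1 / 2) (-1 / 2) ζ))

theorem WL_eq (u v : ℂ) : evP u v WL = 1 + evP u v W2 := by
  unfold WL
  rw [evP_cons]
  simp [evC, evM]

theorem one1_eq (u v : ℂ) : evP u v one1 = 1 := by
  unfold one1
  simp [evC, evM]

theorem lfV_Tl (A B : ℂ) (Z : Po) (k : ℤ) (be : Po) (G : ℕ → ℚ) (t : ℝ) :
    lfV A B Z (Tl k be G) t = tden (evP (uu A t) (vv B t) WL) (evP (uu A t) (vv B t) EL) (evC (om2 k) / 2)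
      (evC (om2 (-k)) / 2) (evP (uu A t) (vv B t) Z / 4) (evP (uu A t) (vv B t) be / 8000) := by
  unfold lfV Tl It.v tden
  simp only [List.map_cons, List.map_nil, List.sum_cons, List.sum_nil, evP_sm, evP_mul, one1_eq, evP_cj, WL_eq]
  unfold evC
  push_cast
  ring

def GT1 (i : ℕ) : ℚ := [(549 / 10000), (171 / 2000), (239 / 500), (577 / 1000), (39 / 50), (987 / 1000), (711 / 100), (99 / 20), (39 / 50), (987 / 1000), (577 / 1000), (787 / 1000)].getD i 0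
/-- common denominator -/
def DT : ℤ := 412316860416000
/-- `DT` times the mean -/
def TTL : Po :=
  [((0, 0, 0, 0), (824633720832000, 0)), ((0, 0, 1, 1), (247390116249600, 0)), ((1, 1, 0, 0), (138126148239360,
  0)), ((0, 0, 2, 2), (18022756515840, 0)), ((1, 1, 1, 1), (-1169906141757440, 0)), ((2, 2, 0, 0),
  (69320772157440, 0)), ((0, 0, 3, 3), (-46672537190400, 0)), ((1, 1, 2, 2), (862766990622720, 0)), ((2, 2, 1, 1),
  (-1688518074040320, 0)), ((3, 3, 0, 0), (25028921917440, 0))]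

theorem ctF : ((Tl 2 be1 GT1).all fun x => x.chk 0) = true := by decide +kernel
theorem ctG : ((Tl 4 be2 GT1).all fun x => x.chk 0) = true := by decide +kernel
theorem ctD : (chkD DT (Tl 2 be1 GT1) && chkD DT (Tl 4 be2 GT1)) = true := by decide +kernel
theorem ctE : eqP (totI zp2 zc2 0 0 DT (Tl 4 be2 GT1) (totI zp1 zc1 0 0 DT (Tl 2 be1 GT1) [])) TTL = true := by
  decide +kernel

/-- the error -/
def XT : List ℚ := addE (totE 0 (Tl 2 be1 GT1)) (totE 0 (Tl 4 be2 GT1))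

end Pool.Agent.Helper35.Cas
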