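import Pool.Agent.Helper35.SH.VT

/-!
# Project RC, SHARP, zone I: the mean of `w TL` at the base
-/

set_option autoImplicit false

open MeasureTheory Set Filter Metric

namespace Pool.Agent.Helper35.Cas

open Helper49.LT hiding sg
open Helper49.RC (om)
open Helper44.GQ
open Helper49.Sharp hiding mean
open Pool.Agent.Helper35.RC
open Pool.Agent.Helper20.RC (eM lk)
open Helper95.RC (Lf)
open Pool.Agent.Helper33.SH (PI ZC z0I b0I ζ1 ζ2 Z1_eq Z2_eq Z1 Z2 norm_ζ1 norm_ζ2 norm_z0I W1 W2_eq W1_eq u1_eq u2_eq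
  om_norm TL_W)

/-- one family -/
theorem tden_pt (w : ℝ) (E o ζ β u W g : ℂ) (ho : ‖o‖ = 1) (hζ : ‖ζ‖ < 1)
    (hu : u = o * ((1 + ζ) / (‖1 + ζ‖ : ℂ)))
    (hW : W = (1 + E * u ^ 2 / 3 - (starRingEnd ℂ) (E * u ^ 2)) * u) (hg : g = o * (1 + ζ + β)) :
    (w : ℂ) * ((starRingEnd ℂ) W * g) = tden w E (o ^ 2) ((starRingEnd ℂ) (o ^ 2)) ζ β := by
  have hF := one_add_ne hζ
  have hn : (‖1 + ζ‖ : ℂ) ≠ 0 := by
    have : ‖1 + ζ‖ ≠ 0 := norm_ne_zero_iff.2 hF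
    exact_mod_cast this
  set U := (1 + ζ) / (‖1 + ζ‖ : ℂ) with hU
  have hUn : ‖U‖ = 1 := by
    rw [hU, norm_div, Complex.norm_real, norm_norm, div_self (norm_ne_zero_iff.2 hF)]
  have hcU : (starRingEnd ℂ) U * U = 1 := by
    rw [mul_comm, Complex.mul_conj, Complex.normSq_eq_norm_sq, hUn]; norm_num
  have hco : (starRingEnd ℂ) o * o = 1 := by
    rw [mul_comm, Complex.mul_conj, Complex.normSq_eq_norm_sq, ho]; norm_num
  have eU : 1 + ζ = (‖1 + ζ‖ : ℂ) * U := by rw [hU]; field_simp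
  have hU1 : U = Ph (1 / 2) (-1 / 2) ζ := by
    have := Ph_unit hζ 1
    rw [zpow_one] at this
    rw [hU, this]
    congr 1 <;> push_cast <;> ring
  have hcU1 : (starRingEnd ℂ) U = Ph (-1 / 2) (1 / 2) ζ := by rw [hU1, Ph_conj]
  have p1 : Ph (1 / 2) (1 / 2) ζ = (‖1 + ζ‖ : ℂ) := (Ph_norm hζ).symm
  have p2 : Ph (-1 / 2) (3 / 2) ζ = (‖1 + ζ‖ : ℂ) * ((starRingEnd ℂ) U * (starRingEnd ℂ) U) := by
    rw [hcU1, ← p1, Ph_mul hζ, Ph_mul hζ]; congr 1 <;> norm_num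
  have p3 : Ph (-3 / 2) (3 / 2) ζ = (starRingEnd ℂ) U * ((starRingEnd ℂ) U * (starRingEnd ℂ) U) := by
    rw [hcU1, Ph_mul hζ, Ph_mul hζ]; congr 1 <;> norm_num
  have p4 : Ph (3 / 2) (-1 / 2) ζ = (‖1 + ζ‖ : ℂ) * (U * U) := by
    rw [← p1, hU1, Ph_mul hζ, Ph_mul hζ]; congr 1 <;> norm_num
  unfold tden
  rw [p1, ← hcU1, p2, p3, p4, ← hU1, hW, hg, hu, show (1 + ζ + β) = (‖1 + ζ‖ : ℂ) * U + β by rw [← eU]]
  have h3 : (starRingEnd ℂ) (3 : ℂ) = 3 := Complex.conj_ofReal 3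
  simp only [map_mul, map_sub, map_add, map_div₀, map_pow, map_one, h3, Complex.conj_conj]
  set Ū := (starRingEnd ℂ) U
  set ō := (starRingEnd ℂ) o
  set Ē := (starRingEnd ℂ) E
  set n := (‖1 + ζ‖ : ℂ)
  -- everything times `ō o = 1`, `Ū U = 1`
  have k1 : (w : ℂ) * ((1 + Ē * (ō * Ū) ^ 2 / 3 - E * (o * U) ^ 2) * (ō * Ū) * (o * (n * U + β))) =
      (w : ℂ) * ((1 + Ē * (ō * Ū) ^ 2 / 3 - E * (o * U) ^ 2) * (n * (Ū * U) + β * Ū) * (ō * o)) := by ring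
  rw [k1, hcU, hco]
  linear_combination (-(w : ℂ) * E * o ^ 2 * β * U) * hcU

variable (c : ZC) (A : ℝ) (B : ℂ)

theorem EL_ev (t : ℝ) : (PI c A B).eta * ee (2 * t) = evP (uu A t) (vv B t) EL := by
  show (-2 * A * (starRingEnd ℂ) B) * ee (2 * t) = _
  have e1 : ee (2 * t) = ee (-3 * t) * ee (-(-5 * t)) := by rw [← ee_add]; congr 1; ring
  rw [e1]
  unfold EL uu vv
  simp only [evP_cons, evP_nil, evC, evM, map_mul, conj_ee, pow_zero, pow_one]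
  push_cast
  ring

/-- `|b₀|²` times `w` -/
def WB : Po := mulP WL (addP (mulP B2L B2L) (smP (-1, 0) (mulP YL YL)))

theorem bb_ev (t : ℝ) : ((‖b0I A B t‖ ^ 2 : ℝ) : ℂ) =
    evP (uu A t) (vv B t) (addP (mulP B2L B2L) (smP (-1, 0) (mulP YL YL))) / 1000000 := by
  have h : (‖b0I A B t‖ ^ 2 : ℝ) = (b0I A B t).re * (b0I A B t).re + (b0I A B t).im * (b0I A B t).im := by
    rw [← Complex.normSq_eq_norm_sq, Complex.normSq_apply]
  rw [h, Complex.ofReal_add, Complex.ofReal_mul, Complex.ofReal_mul, b2_ev, b3_ev, evP_add, evP_sm, evP_mul, evP_mul,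
    evC_int]
  push_cast
  linear_combination (evP (uu A t) (vv B t) YL / 1000 * (evP (uu A t) (vv B t) YL / 1000)) * Complex.I_mul_I

/-- the complex integrand -/
noncomputable def Phi0 (t : ℝ) : ℂ :=
  2 * (lfV A B Z1 (Tl 2 be1 GT1) t + lfV A B Z2 (Tl 4 be2 GT1) t)
    + (9 - c.cs) * (evP (uu A t) (vv B t) WB / 1000000)

theorem TL_pt (h : ‖(A : ℂ)‖ + 3 / 2 * ‖B‖ < 1) (t : ℝ) :
    (PI c A B).w t * (PI c A B).TL t (b0I A B t) (z0I A B t) = (Phi0 c A B t).re := by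
  have hz1 := nz1 A B h t
  have hz2 := nz2 A B h t
  have hz : ‖z0I A B t‖ < 1 := by rw [← norm_ζ1]; exact hz1
  have ho2 : ‖om ^ 2‖ = 1 := by rw [norm_pow, om_norm, one_pow]
  have hlo : (PI c A B).lo t (b0I A B t) (z0I A B t) = 0 := by
    show (21 / 25 - 4 / 5 * ‖z0I A B t‖ ^ 2) * Lf (z0I A B t - z0I A B t)
      - ((b0I A B t).re - (b0I A B t).re) ^ 2 - 3 / 2 * ((b0I A B t).im - (b0I A B t).im) ^ 2 = 0
    rw [sub_self, sub_self, sub_self]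
    unfold Lf
    simp
  have a1 := tden_pt ((PI c A B).w t) ((PI c A B).eta * ee (2 * t)) om (ζ1 A B t) (β1 A B t) ((PI c A B).u1 t)
    (W1 (PI c A B) t) (g1 (b0I A B t) (z0I A B t)) om_norm hz1 (u1_eq c A B t hz) (W1_eq c A B t) (g1_eq A B t)
  have a2 := tden_pt ((PI c A B).w t) ((PI c A B).eta * ee (2 * t)) (om ^ 2) (ζ2 A B t) (β2 A B t) ((PI c A B).u2 t)
    (Pool.Agent.Helper33.SH.W2 (PI c A B) t) (g2 (b0I A B t) (z0I A B t)) ho2 hz2 (u2_eq c A B t hz) (W2_eq c A B t)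
    (g2_eq A B t)
  have c1 : (starRingEnd ℂ) (om ^ 2) = evC (om2 (-2)) / 2 := by
    rw [om2_eq, zpow_neg, show (2 : ℤ) = ((2 : ℕ) : ℤ) by rfl, zpow_natCast]
    refine eq_inv_of_mul_eq_one_left ?_
    rw [mul_comm, Complex.mul_conj, Complex.normSq_eq_norm_sq, ho2]
    norm_num
  have c2 : om ^ 2 = evC (om2 2) / 2 := by
    rw [om2_eq, show (2 : ℤ) = ((2 : ℕ) : ℤ) by rfl, zpow_natCast]
  have c3 : (om ^ 2) ^ 2 = evC (om2 4) / 2 := by
    rw [om2_eq, show (4 : ℤ) = ((4 : ℕ) : ℤ) by rfl, zpow_natCast]; ring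
  have c4 : (starRingEnd ℂ) ((om ^ 2) ^ 2) = evC (om2 (-4)) / 2 := by
    rw [om2_eq, zpow_neg, show (4 : ℤ) = ((4 : ℕ) : ℤ) by rfl, zpow_natCast]
    have h4 : ‖om ^ 4‖ = 1 := by rw [norm_pow, om_norm, one_pow]
    refine eq_inv_of_mul_eq_one_left ?_
    rw [mul_comm, show (om ^ 2) ^ 2 = om ^ 4 by ring, Complex.mul_conj,
      Complex.normSq_eq_norm_sq, h4]
    norm_num
  have e1 : lfV A B Z1 (Tl 2 be1 GT1) t = ((PI c A B).w t : ℂ) * ((starRingEnd ℂ) (W1 (PI c A B) t) *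
      g1 (b0I A B t) (z0I A B t)) := by
    rw [a1, lfV_Tl, w_ev, EL_ev, zeta1_ev, c1, c2]
    rfl
  have e2 : lfV A B Z2 (Tl 4 be2 GT1) t = ((PI c A B).w t : ℂ) * ((starRingEnd ℂ)
      (Pool.Agent.Helper33.SH.W2 (PI c A B) t) * g2 (b0I A B t) (z0I A B t)) := by
    rw [a2, lfV_Tl, w_ev, EL_ev, zeta2_ev, c4, c3]
    rfl
  have e3 : evP (uu A t) (vv B t) WB / 1000000 = (((PI c A B).w t * ‖b0I A B t‖ ^ 2 : ℝ) : ℂ) := by
    unfold WB
    rw [evP_mul, Complex.ofReal_mul, bb_ev, w_ev]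
    ring
  unfold Phi0
  rw [e1, e2, e3, TL_W, hlo]
  have e4 : (9 - (c.cs : ℂ)) * (((PI c A B).w t * ‖b0I A B t‖ ^ 2 : ℝ) : ℂ) =
      (((9 - c.cs) * ((PI c A B).w t * ‖b0I A B t‖ ^ 2) : ℝ) : ℂ) := by push_cast; ring
  have e5 : (2 : ℂ) * (((PI c A B).w t : ℂ) * ((starRingEnd ℂ) (W1 (PI c A B) t) * g1 (b0I A B t) (z0I A B t)) +
      ((PI c A B).w t : ℂ) * ((starRingEnd ℂ) (Pool.Agent.Helper33.SH.W2 (PI c A B) t) *
        g2 (b0I A B t) (z0I A B t))) = ((2 * (PI c A B).w t : ℝ) : ℂ) * ((starRingEnd ℂ) (W1 (PI c A B) t) *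
      g1 (b0I A B t) (z0I A B t) + (starRingEnd ℂ) (Pool.Agent.Helper33.SH.W2 (PI c A B) t) *
        g2 (b0I A B t) (z0I A B t)) := by push_cast; ring
  rw [e4, e5, Complex.add_re, Complex.re_ofReal_mul, Complex.add_re, Complex.ofReal_re]
  show (PI c A B).w t * (_ + _ + (9 - c.cs) * _ + (c.m - c.lam) * 0) = _
  ring

theorem re_mean {F : ℝ → ℂ} (h : Continuous F) : (mean F).re = Helper49.Sharp.mean (fun t => (F t).re) := by
  unfold mean Helper49.Sharp.mean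
  have e : (1 / (2 * Real.pi) : ℂ) = ((1 / (2 * Real.pi) : ℝ) : ℂ) := by push_cast; ring
  rw [e, Complex.re_ofReal_mul]
  congr 1
  have := Complex.reCLM.intervalIntegral_comp_comm (a := (0 : ℝ)) (b := 2 * Real.pi) (μ := volume)
    (h.intervalIntegrable 0 (2 * Real.pi))
  exact this.symm

/-- **the mean of `w TL`** -/
theorem TL_main (h : ‖(A : ℂ)‖ + 3 / 2 * ‖B‖ ≤ 1 / 4) :
    |Helper49.Sharp.mean (fun t => (PI c A B).w t * (PI c A B).TL t (b0I A B t) (z0I A B t))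
      - (2 * (evP A B TTL / DT).re + (9 - c.cs) * (evP A B (fl 0 WB) / 1000000).re)|
      ≤ 2 * evE ‖(A : ℂ)‖ ‖B‖ 0 XT := by
  have h1 : ‖(A : ℂ)‖ + 3 / 2 * ‖B‖ < 1 := h.trans_lt (by norm_num)
  have z1 : ∀ t, ‖evP (uu A t) (vv B t) Z1 / 4‖ < 1 := fun t => by rw [zeta1_ev]; exact nz1 A B h1 t
  have z2 : ∀ t, ‖evP (uu A t) (vv B t) Z2 / 4‖ < 1 := fun t => by rw [zeta2_ev]; exact nz2 A B h1 t
  have k1 := cont_lf A B Z1 z1 (Tl 2 be1 GT1)
  have k2 := cont_lf A B Z2 z2 (Tl 4 be2 GT1)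
  have k3 : Continuous fun t : ℝ => (9 - (c.cs : ℂ)) * (evP (uu A t) (vv B t) WB / 1000000) :=
    continuous_const.mul ((cont_evP A B WB).div_const _)
  have k4 : Continuous fun t : ℝ => 2 * (lfV A B Z1 (Tl 2 be1 GT1) t + lfV A B Z2 (Tl 4 be2 GT1) t) :=
    continuous_const.mul (k1.add k2)
  have hc : Continuous (Phi0 c A B) := k4.add k3
  have e0 : (fun t => (PI c A B).w t * (PI c A B).TL t (b0I A B t) (z0I A B t)) = fun t => (Phi0 c A B t).re :=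
    funext fun t => TL_pt c A B h1 t
  rw [e0, ← re_mean hc]
  have e1 : mean (Phi0 c A B) = 2 * (mean (fun t => lfV A B Z1 (Tl 2 be1 GT1) t)
      + mean (fun t => lfV A B Z2 (Tl 4 be2 GT1) t)) + (9 - c.cs) * (evP A B (fl 0 WB) / 1000000) := by
    have : Phi0 c A B = fun t => 2 * (lfV A B Z1 (Tl 2 be1 GT1) t + lfV A B Z2 (Tl 4 be2 GT1) t)
      + (9 - (c.cs : ℂ)) * (evP (uu A t) (vv B t) WB / 1000000) := rfl
    rw [this, mean_add k4 k3, mean_const_mul, mean_const_mul, mean_add k1 k2]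
    congr 2
    have e2 := mean_ee_evP A B 0 WB
    have e3 : (fun t => evP (uu A t) (vv B t) WB / 1000000) = fun t => (1 / 1000000 : ℂ) * (ee (((0 : ℤ) : ℝ) * t) *
        evP (uu A t) (vv B t) WB) := by
      funext t
      push_cast
      rw [zero_mul, show ee 0 = 1 by unfold ee; simp]
      ring
    rw [e3, mean_const_mul, e2, neg_zero]
    ring
  have hr : ‖(A : ℂ)‖ + 3 / 2 * ‖B‖ ≤ ((1 / 4 : ℚ) : ℝ) := by push_cast; exact h
  have m := two_fam A B (1 / 4) (by norm_num) le_rfl hr 0 0 rfl DT (by decide) (Tl 2 be1 GT1) (Tl 4 be2 GT1) TTL ctF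
    ctG ctD ctE
  have ez : ∀ (F : ℝ → ℂ), (fun t : ℝ => ee (((0 : ℤ) : ℝ) * t) * F t) = F := fun F => by
    funext t
    push_cast
    rw [zero_mul, show ee 0 = 1 by unfold ee; simp, one_mul]
  rw [ez, ez] at m
  have hX : addE (totE (1 / 4) (Tl 2 be1 GT1)) (totE (1 / 4) (Tl 4 be2 GT1)) = XT := by
    have e : ∀ (x : It), x.K = x.M → x.er (1 / 4) = x.er 0 := by
      intro x hx
      unfold It.er
      rw [hx, Nat.sub_self, pow_zero, pow_zero]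
    have e' : ∀ k be, totE (1 / 4) (Tl k be GT1) = totE 0 (Tl k be GT1) := by
      intro k be
      unfold Tl
      simp only [totE]
      rw [e _ rfl, e _ rfl, e _ rfl, e _ rfl, e _ rfl, e _ rfl, e _ rfl, e _ rfl, e _ rfl, e _ rfl, e _ rfl, e _ rfl]
    unfold XT
    rw [e', e']
  rw [hX] at m
  rw [e1]
  set M := mean (fun t => lfV A B Z1 (Tl 2 be1 GT1) t) + mean (fun t => lfV A B Z2 (Tl 4 be2 GT1) t) with hM
  have e5 : (2 * M + (9 - (c.cs : ℂ)) * (evP A B (fl 0 WB) / 1000000)).re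
      - (2 * (evP A B TTL / DT).re + (9 - c.cs) * (evP A B (fl 0 WB) / 1000000).re) = 2 * (M - evP A B TTL / DT).re := by
    have : (9 - (c.cs : ℂ)) = ((9 - c.cs : ℝ) : ℂ) := by push_cast; ring
    have h2 : (2 : ℂ) * M = ((2 : ℝ) : ℂ) * M := by push_cast; ring
    rw [this, h2, Complex.add_re, Complex.re_ofReal_mul, Complex.re_ofReal_mul, Complex.sub_re]
    ring
  rw [e5, abs_mul, abs_of_pos (by norm_num : (0 : ℝ) < 2)]
  exact mul_le_mul_of_nonneg_left ((Complex.abs_re_le_norm _).trans m) (by norm_num)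

end Pool.Agent.Helper35.Cas
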